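import Pool.Agent.E8helper14.KE.Frz

/-!
# The graph of a formula whose clauses have four different literals

For every clause `c` there is a 4-cycle `q c 0, q c 1, q c 2, q c 3`, whose `j`-th edge is present iff the
`j`-th literal is false. It is joined completely to the pair `f c j`, which is an edge iff the literal
is true. The pair is matched with the pair of the literal, which is an edge iff the literal is false.
The pairs of opposite literals are completely joined.
-/

set_option autoImplicit false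

namespace Pool.Agent.E8helper14.KE

/-- The vertices. -/
inductive CV (I X : Type) : Type
  | q : I → Fin 4 → CV I X
  | f : I → Fin 4 → Bool → CV I X
  | p : X → Bool → Bool → CV I X
  deriving DecidableEq

section
variable {I X : Type}

/-- The vertices as a sum type. -/
def CV.equiv : CV I X ≃ (I × Fin 4) ⊕ (I × Fin 4 × Bool) ⊕ (X × Bool × Bool) where
  toFun
    | CV.q c j => Sum.inl (c, j)
    | CV.f c j s => Sum.inr (Sum.inl (c, j, s))
    | CV.p x t s => Sum.inr (Sum.inr (x, t, s))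
  invFun
    | Sum.inl (c, j) => CV.q c j
    | Sum.inr (Sum.inl (c, j, s)) => CV.f c j s
    | Sum.inr (Sum.inr (x, t, s)) => CV.p x t s
  left_inv := by rintro (_ | _ | _) <;> rfl
  right_inv := by rintro (_ | _ | _) <;> rfl

instance [Finite I] [Finite X] : Finite (CV I X) := Finite.of_equiv _ CV.equiv.symm

/-- The literal number `j` of the clause `c` is true. -/
def Tr (lit : I → Fin 4 → Bool × X) (τ : X → Bool) (c : I) (j : Fin 4) : Prop :=
  τ (lit c j).2 = (lit c j).1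

/-- Adjacency in the graph of the assignment `τ`. -/
def CAdj (lit : I → Fin 4 → Bool × X) (τ : X → Bool) : CV I X → CV I X → Prop
  | CV.q c j, CV.q c' j' => c = c' ∧ ((j' = j + 1 ∧ ¬ Tr lit τ c j) ∨ (j = j' + 1 ∧ ¬ Tr lit τ c j'))
  | CV.q c j, CV.f c' j' _ => c = c' ∧ (j = j' ∨ j = j' + 1)
  | CV.q _ _, CV.p _ _ _ => False
  | CV.f c' j' _, CV.q c j => c = c' ∧ (j = j' ∨ j = j' + 1)
  | CV.f c j s, CV.f c' j' s' => c = c' ∧ j = j' ∧ s ≠ s' ∧ Tr lit τ c j
  | CV.f c j s, CV.p x t s' => lit c j = (t, x) ∧ s = s'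
  | CV.p _ _ _, CV.q _ _ => False
  | CV.p x t s', CV.f c j s => lit c j = (t, x) ∧ s = s'
  | CV.p x t s, CV.p x' t' s' => x = x' ∧ ((t = t' ∧ s ≠ s' ∧ τ x ≠ t) ∨ t ≠ t')

/-- The graph of the assignment `τ`. -/
def core (lit : I → Fin 4 → Bool × X) (τ : X → Bool) : SimpleGraph (CV I X) where
  Adj := CAdj lit τ
  symm := ⟨by
    rintro (⟨c, j⟩ | ⟨c, j, s⟩ | ⟨x, t, s⟩) (⟨c', j'⟩ | ⟨c', j', s'⟩ | ⟨x', t', s'⟩) h
    · obtain ⟨rfl, h⟩ := h
      exact ⟨rfl, h.symm⟩
    · exact h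
    · exact h
    · exact h
    · obtain ⟨rfl, rfl, h, h'⟩ := h
      exact ⟨rfl, rfl, h.symm, h'⟩
    · exact h
    · exact h
    · exact h
    · obtain ⟨rfl, h⟩ := h
      refine ⟨rfl, ?_⟩
      rcases h with ⟨rfl, h1, h2⟩ | h
      · exact Or.inl ⟨rfl, h1.symm, h2⟩
      · exact Or.inr h.symm⟩
  loopless := ⟨by
    rintro (⟨c, j⟩ | ⟨c, j, s⟩ | ⟨x, t, s⟩) h
    · obtain ⟨-, ⟨h, -⟩ | ⟨h, -⟩⟩ := h
      · revert h; revert j; decide
      · revert h; revert j; decide
    · exact h.2.2.1 rfl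
    · rcases h.2 with h | h
      · exact h.2.1 rfl
      · exact h rfl⟩

/-- The pairs which may be modified. -/
def CFree : CV I X → CV I X → Prop
  | CV.q c j, CV.q c' j' => c = c' ∧ (j' = j + 1 ∨ j = j' + 1)
  | CV.f c j _, CV.f c' j' _ => c = c' ∧ j = j'
  | CV.p x t _, CV.p x' t' _ => x = x' ∧ t = t'
  | _, _ => False

theorem core_agree (lit : I → Fin 4 → Bool × X) (τ τ' : X → Bool) (u v : CV I X) (_ : u ≠ v)
    (h : ¬ CFree u v) : (core lit τ).Adj u v ↔ (core lit τ').Adj u v := by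
  show CAdj lit τ u v ↔ CAdj lit τ' u v
  rcases u with ⟨c, j⟩ | ⟨c, j, s⟩ | ⟨x, t, s⟩ <;>
    rcases v with ⟨c', j'⟩ | ⟨c', j', s'⟩ | ⟨x', t', s'⟩ <;> simp only [CAdj, CFree] at h ⊢
  · constructor
    · rintro ⟨h1, ⟨h2, -⟩ | ⟨h2, -⟩⟩
      · exact absurd ⟨h1, Or.inl h2⟩ h
      · exact absurd ⟨h1, Or.inr h2⟩ h
    · rintro ⟨h1, ⟨h2, -⟩ | ⟨h2, -⟩⟩
      · exact absurd ⟨h1, Or.inl h2⟩ h
      · exact absurd ⟨h1, Or.inr h2⟩ h
  · constructor
    · rintro ⟨h1, h2, -⟩
      exact absurd ⟨h1, h2⟩ h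
    · rintro ⟨h1, h2, -⟩
      exact absurd ⟨h1, h2⟩ h
  · constructor
    · rintro ⟨h1, ⟨h2, -⟩ | h2⟩
      · exact absurd ⟨h1, h2⟩ h
      · exact ⟨h1, Or.inr h2⟩
    · rintro ⟨h1, ⟨h2, -⟩ | h2⟩
      · exact absurd ⟨h1, h2⟩ h
      · exact ⟨h1, Or.inr h2⟩

/-! ### The graph of a satisfying assignment has no induced 4-cycle -/

theorem nbr_f {lit : I → Fin 4 → Bool × X} {τ : X → Bool} {c : I} {j : Fin 4} {s : Bool}
    {x : CV I X} (h : (core lit τ).Adj (CV.f c j s) x) :
    x = CV.q c j ∨ x = CV.q c (j + 1) ∨ (x = CV.f c j (!s) ∧ Tr lit τ c j) ∨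
      x = CV.p (lit c j).2 (lit c j).1 s := by
  have h' : CAdj lit τ (CV.f c j s) x := h
  rcases x with ⟨c', j'⟩ | ⟨c', j', s'⟩ | ⟨x', t', s'⟩
  · obtain ⟨rfl, rfl | rfl⟩ := h'
    · exact Or.inl rfl
    · exact Or.inr (Or.inl rfl)
  · obtain ⟨rfl, rfl, h1, h2⟩ := h'
    have : s' = !s := by cases s <;> cases s' <;> simp_all
    exact Or.inr (Or.inr (Or.inl ⟨by rw [this], h2⟩))
  · obtain ⟨h1, rfl⟩ := h'
    exact Or.inr (Or.inr (Or.inr (by rw [h1])))

theorem core_aux {lit : I → Fin 4 → Bool × X} (hd : ∀ c j j', lit c j = lit c j' → j = j')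
    {τ : X → Bool} (c : I) (j : Fin 4) (s : Bool) (b v d : CV I X)
    (h1 : (core lit τ).Adj (CV.f c j s) b) (h2 : (core lit τ).Adj b v)
    (h3 : (core lit τ).Adj v d) (h4 : (core lit τ).Adj d (CV.f c j s))
    (hac : CV.f c j s ≠ v) (hbd : b ≠ d) :
    (core lit τ).Adj (CV.f c j s) v ∨ (core lit τ).Adj b d := by
  -- two neighbours on the 4-cycle
  have A : ∀ (v : CV I X), CV.f c j s ≠ v → (core lit τ).Adj (CV.q c j) v →
      (core lit τ).Adj v (CV.q c (j + 1)) →
      (core lit τ).Adj (CV.f c j s) v ∨ (core lit τ).Adj (CV.q c j) (CV.q c (j + 1)) := by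
    intro v hv e1 e2
    by_cases ht : Tr lit τ c j
    · left
      have e1' : CAdj lit τ (CV.q c j) v := e1
      have e2' : CAdj lit τ v (CV.q c (j + 1)) := e2
      rcases v with ⟨c', j'⟩ | ⟨c', j', s'⟩ | ⟨x', t', s'⟩
      · exfalso
        obtain ⟨-, ⟨e3, -⟩ | ⟨e3, -⟩⟩ := e1' <;> obtain ⟨-, ⟨e4, -⟩ | ⟨e4, -⟩⟩ := e2' <;>
          · clear h1 h2 h3 h4 hac hbd hv e1 e2 ht
            revert e3 e4
            revert j j'
            decide
      · obtain ⟨rfl, e3⟩ := e1'
        obtain ⟨-, e4⟩ := e2'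
        have : j = j' := by
          clear h1 h2 h3 h4 hac hbd hv e1 e2 ht
          revert e3 e4
          revert j j'
          decide
        subst this
        refine ⟨rfl, rfl, ?_, ht⟩
        rintro rfl
        exact hv rfl
      · exact e1'.elim
    · exact Or.inr ⟨rfl, Or.inl ⟨rfl, ht⟩⟩
  -- a vertex of the 4-cycle and the other vertex of the pair
  have B : ∀ j' : Fin 4, j' = j ∨ j' = j + 1 → (core lit τ).Adj (CV.q c j') (CV.f c j (!s)) :=
    fun j' h => ⟨rfl, h⟩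
  -- a vertex of the 4-cycle and a literal vertex
  have C : ∀ (v : CV I X) (j' : Fin 4), CV.f c j s ≠ v → (core lit τ).Adj (CV.q c j') v →
      (core lit τ).Adj v (CV.p (lit c j).2 (lit c j).1 s) → False := by
    intro v j' hv e1 e2
    have e1' : CAdj lit τ (CV.q c j') v := e1
    have e2' : CAdj lit τ v (CV.p (lit c j).2 (lit c j).1 s) := e2
    rcases v with ⟨c', j''⟩ | ⟨c', j'', s'⟩ | ⟨x', t', s'⟩
    · exact e2'.elim
    · obtain ⟨rfl, -⟩ := e1'
      obtain ⟨e3, rfl⟩ := e2'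
      have := hd _ _ _ e3
      subst this
      exact hv rfl
    · exact e1'.elim
  -- the other vertex of the pair and a literal vertex
  have D : ∀ (v : CV I X), CV.f c j s ≠ v → Tr lit τ c j → (core lit τ).Adj (CV.f c j (!s)) v →
      (core lit τ).Adj v (CV.p (lit c j).2 (lit c j).1 s) → False := by
    intro v hv ht e1 e2
    have e2' : CAdj lit τ v (CV.p (lit c j).2 (lit c j).1 s) := e2
    rcases nbr_f e1 with rfl | rfl | ⟨rfl, -⟩ | rfl
    · exact e2'.elim
    · exact e2'.elim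
    · simp at hv
    · obtain ⟨-, ⟨-, -, e3⟩ | e3⟩ := e2'
      · exact e3 ht
      · exact e3 rfl
  rcases nbr_f h1 with rfl | rfl | ⟨rfl, ht⟩ | rfl <;>
    rcases nbr_f h4.symm with rfl | rfl | ⟨rfl, ht'⟩ | rfl
  · exact absurd rfl hbd
  · exact A v hac h2 h3
  · exact Or.inr (B _ (Or.inl rfl))
  · exact (C v _ hac h2 h3).elim
  · rcases A v hac h3.symm h2.symm with h | h
    · exact Or.inl h
    · exact Or.inr h.symm
  · exact absurd rfl hbd
  · exact Or.inr (B _ (Or.inr rfl))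
  · exact (C v _ hac h2 h3).elim
  · exact Or.inr (B _ (Or.inl rfl)).symm
  · exact Or.inr (B _ (Or.inr rfl)).symm
  · exact absurd rfl hbd
  · exact (D v hac ht h2 h3).elim
  · exact (C v _ hac h3.symm h2.symm).elim
  · exact (C v _ hac h3.symm h2.symm).elim
  · exact (D v hac ht' h3.symm h2.symm).elim
  · exact absurd rfl hbd

theorem core_noC4 {lit : I → Fin 4 → Bool × X} (hd : ∀ c j j', lit c j = lit c j' → j = j')
    {τ : X → Bool} (hsat : ∀ c, ∃ j, Tr lit τ c j) : NoC4 (core lit τ) := by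
  intro a b v d h1 h2 h3 h4 hac hbd
  by_cases ha : ∃ c j s, a = CV.f c j s
  · obtain ⟨c, j, s, rfl⟩ := ha
    exact core_aux hd c j s b v d h1 h2 h3 h4 hac hbd
  by_cases hb : ∃ c j s, b = CV.f c j s
  · obtain ⟨c, j, s, rfl⟩ := hb
    rcases core_aux hd c j s v d a h2 h3 h4 h1 hbd hac.symm with h | h
    · exact Or.inr h
    · exact Or.inl h.symm
  by_cases hv : ∃ c j s, v = CV.f c j s
  · obtain ⟨c, j, s, rfl⟩ := hv
    rcases core_aux hd c j s d a b h3 h4 h1 h2 hac.symm hbd.symm with h | h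
    · exact Or.inl h.symm
    · exact Or.inr h.symm
  by_cases hd' : ∃ c j s, d = CV.f c j s
  · obtain ⟨c, j, s, rfl⟩ := hd'
    rcases core_aux hd c j s a b v h4 h1 h2 h3 hbd.symm hac with h | h
    · exact Or.inr h.symm
    · exact Or.inl h
  push Not at ha hb hv hd'
  have h1' : CAdj lit τ a b := h1
  have h2' : CAdj lit τ b v := h2
  have h3' : CAdj lit τ v d := h3
  have h4' : CAdj lit τ d a := h4
  rcases a with ⟨c, j⟩ | ⟨c, j, s⟩ | ⟨x, t, s⟩
  · -- all four vertices are on the cycle of a clause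
    rcases b with ⟨c1, j1⟩ | ⟨c1, j1, s1⟩ | ⟨x1, t1, s1⟩
    · rcases v with ⟨c2, j2⟩ | ⟨c2, j2, s2⟩ | ⟨x2, t2, s2⟩
      · rcases d with ⟨c3, j3⟩ | ⟨c3, j3, s3⟩ | ⟨x3, t3, s3⟩
        · exfalso
          obtain ⟨rfl, h1'⟩ := h1'
          obtain ⟨rfl, h2'⟩ := h2'
          obtain ⟨rfl, h3'⟩ := h3'
          obtain ⟨-, h4'⟩ := h4'
          have hj : j ≠ j2 := fun h => hac (by rw [h])
          have hj' : j1 ≠ j3 := fun h => hbd (by rw [h])
          obtain ⟨k, hk⟩ := hsat c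
          clear h1 h2 h3 h4 hac hbd ha hb hv hd'
          generalize Tr lit τ c = P at *
          rcases h1' with ⟨e1, f1⟩ | ⟨e1, f1⟩ <;> rcases h2' with ⟨e2, f2⟩ | ⟨e2, f2⟩ <;>
            rcases h3' with ⟨e3, f3⟩ | ⟨e3, f3⟩ <;> rcases h4' with ⟨e4, f4⟩ | ⟨e4, f4⟩
          all_goals
            first
            | (exfalso
               clear hk f1 f2 f3 f4
               revert hj hj' e1 e2 e3 e4
               revert j j1 j2 j3
               decide)
            | (have hk' : k = j ∨ k = j1 ∨ k = j2 ∨ k = j3 := by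
                 clear hk f1 f2 f3 f4
                 revert hj hj' e1 e2 e3 e4
                 revert j j1 j2 j3 k
                 decide
               rcases hk' with rfl | rfl | rfl | rfl <;> contradiction)
        · exact absurd rfl (hd' _ _ _)
        · exact h3'.elim
      · exact absurd rfl (hv _ _ _)
      · exact h2'.elim
    · exact absurd rfl (hb _ _ _)
    · exact h1'.elim
  · exact absurd rfl (ha _ _ _)
  · -- all four vertices belong to the same variable
    rcases b with ⟨c1, j1⟩ | ⟨c1, j1, s1⟩ | ⟨x1, t1, s1⟩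
    · exact h1'.elim
    · exact absurd rfl (hb _ _ _)
    · rcases v with ⟨c2, j2⟩ | ⟨c2, j2, s2⟩ | ⟨x2, t2, s2⟩
      · exact h2'.elim
      · exact absurd rfl (hv _ _ _)
      · rcases d with ⟨c3, j3⟩ | ⟨c3, j3, s3⟩ | ⟨x3, t3, s3⟩
        · exact h3'.elim
        · exact absurd rfl (hd' _ _ _)
        · obtain ⟨rfl, h1'⟩ := h1'
          obtain ⟨rfl, h2'⟩ := h2'
          obtain ⟨rfl, h3'⟩ := h3'
          obtain ⟨-, h4'⟩ := h4'
          have hj : ¬ (t = t2 ∧ s = s2) := fun h => hac (by rw [h.1, h.2])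
          have hj' : ¬ (t1 = t3 ∧ s1 = s3) := fun h => hbd (by rw [h.1, h.2])
          have goal : ((t = t2 ∧ s ≠ s2 ∧ τ x ≠ t) ∨ t ≠ t2) ∨
              ((t1 = t3 ∧ s1 ≠ s3 ∧ τ x ≠ t1) ∨ t1 ≠ t3) := by
            clear h1 h2 h3 h4 hac hbd ha hb hv hd'
            generalize τ x = r at *
            cases t <;> cases t1 <;> cases t2 <;> cases t3 <;> cases r <;>
              first
              | (exact Or.inl (Or.inr (by decide)))
              | (exact Or.inr (Or.inr (by decide)))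
              | (cases s <;> cases s1 <;> cases s2 <;> cases s3 <;> simp_all)
          rcases goal with h | h
          · exact Or.inl ⟨rfl, h⟩
          · exact Or.inr ⟨rfl, h⟩

end

end Pool.Agent.E8helper14.KE
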