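import Pool.Agent.E8helper14.KE.Core

/-!
# The graph of a formula: solutions give satisfying assignments, and the number of modifications
-/

set_option autoImplicit false

namespace Pool.Agent.E8helper14.KE

section
variable {I X : Type}

theorem core_sound {lit : I → Fin 4 → Bool × X} {H : SimpleGraph (CV I X)} (h4 : NoC4 H)
    (hH : ∀ u v, u ≠ v → ¬ CFree u v → (H.Adj u v ↔ (core lit (fun _ => false)).Adj u v)) :
    ∃ τ : X → Bool, ∀ c, ∃ j, Tr lit τ c j := by
  classical
  refine ⟨fun x => decide (¬ H.Adj (CV.p x true false) (CV.p x true true)), ?_⟩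
  intro c
  by_contra hno
  push Not at hno
  -- the 4-cycle of the clause is complete
  have key : ∀ j : Fin 4, H.Adj (CV.q c j) (CV.q c (j + 1)) := by
    intro j
    by_contra hq
    have a1 : ∀ (s : Bool) (j' : Fin 4), j' = j ∨ j' = j + 1 →
        H.Adj (CV.q c j') (CV.f c j s) := by
      intro s j' hj'
      exact (hH _ _ (by simp) (by simp [CFree])).2 ⟨rfl, hj'⟩
    have hf : H.Adj (CV.f c j false) (CV.f c j true) := by
      rcases h4 (CV.q c j) (CV.f c j false) (CV.q c (j + 1)) (CV.f c j true)
        (a1 _ _ (Or.inl rfl)) (a1 _ _ (Or.inr rfl)).symm (a1 _ _ (Or.inr rfl))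
        (a1 _ _ (Or.inl rfl)).symm (by simp) (by simp) with h | h
      · exact absurd h hq
      · exact h
    have a2 : ∀ s : Bool, H.Adj (CV.f c j s) (CV.p (lit c j).2 (lit c j).1 s) := by
      intro s
      exact (hH _ _ (by simp) (by simp [CFree])).2 ⟨rfl, rfl⟩
    have a3 : ∀ s s' : Bool, s ≠ s' → ¬ H.Adj (CV.f c j s) (CV.p (lit c j).2 (lit c j).1 s') := by
      intro s s' hs h
      have := (hH _ _ (by simp) (by simp [CFree])).1 h
      exact hs this.2
    have hp : ¬ H.Adj (CV.p (lit c j).2 (lit c j).1 false) (CV.p (lit c j).2 (lit c j).1 true) := by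
      intro hp
      rcases h4 (CV.f c j false) (CV.f c j true) (CV.p (lit c j).2 (lit c j).1 true)
        (CV.p (lit c j).2 (lit c j).1 false) hf (a2 true) hp.symm (a2 false).symm
        (by simp) (by simp) with h | h
      · exact a3 _ _ (by simp) h
      · exact a3 _ _ (by simp) h
    apply hno j
    show decide (¬ H.Adj (CV.p (lit c j).2 true false) (CV.p (lit c j).2 true true)) = (lit c j).1
    cases ht : (lit c j).1
    · rw [ht] at hp
      rw [decide_eq_false_iff_not, not_not]
      have a4 : ∀ s s' : Bool, H.Adj (CV.p (lit c j).2 true s) (CV.p (lit c j).2 false s') := by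
        intro s s'
        exact (hH _ _ (by simp) (by simp [CFree])).2 ⟨rfl, Or.inr (by simp)⟩
      rcases h4 (CV.p (lit c j).2 true false) (CV.p (lit c j).2 false false)
        (CV.p (lit c j).2 true true) (CV.p (lit c j).2 false true) (a4 _ _) (a4 _ _).symm (a4 _ _)
        (a4 _ _).symm (by simp) (by simp) with h | h
      · exact h
      · exact absurd h hp
    · rw [ht] at hp
      rw [decide_eq_true_eq]
      exact hp
  have hdiag : ∀ j : Fin 4, ¬ H.Adj (CV.q c j) (CV.q c (j + 2)) := by
    intro j h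
    have m1 : ∀ j : Fin 4, ¬ (j + 2 = j + 1 ∨ j = j + 2 + 1) := by decide
    have m2 : ∀ j : Fin 4, j ≠ j + 2 := by decide
    have h1 : ¬ CFree (CV.q c j : CV I X) (CV.q c (j + 2)) := fun h2 => m1 j h2.2
    have h2 : (CV.q c j : CV I X) ≠ CV.q c (j + 2) := by
      simp only [ne_eq, CV.q.injEq, true_and]
      exact m2 j
    have h3 := (hH _ _ h2 h1).1 h
    obtain ⟨-, ⟨h4, -⟩ | ⟨h4, -⟩⟩ := h3
    · exact m1 j (Or.inl h4)
    · exact m1 j (Or.inr h4)
  rcases h4 (CV.q c 0) (CV.q c 1) (CV.q c 2) (CV.q c 3) (key 0) (key 1) (key 2) (key 3)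
    (by simp) (by simp) with h | h
  · exact hdiag 0 h
  · exact hdiag 1 h

/-- The modified pairs of a clause position. -/
def gq (y : (I × Fin 4) × Bool) : Sym2 (CV I X) :=
  if y.2 then s(CV.q y.1.1 y.1.2, CV.q y.1.1 (y.1.2 + 1))
  else s(CV.f y.1.1 y.1.2 false, CV.f y.1.1 y.1.2 true)

/-- The modified pairs of a variable. -/
def gp (y : X × Bool) : Sym2 (CV I X) := s(CV.p y.1 y.2 false, CV.p y.1 y.2 true)

theorem tr_iff {lit : I → Fin 4 → Bool × X} {τ : X → Bool} {c : I} {j : Fin 4}
    (h : τ (lit c j).2 = false) : Tr lit (fun _ => false) c j ↔ Tr lit τ c j := by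
  unfold Tr
  rw [h]

theorem core_diff (lit : I → Fin 4 → Bool × X) (τ : X → Bool) (J : Set (I × Fin 4)) (Y : Set X)
    (hJ : ∀ c j, τ (lit c j).2 = true → (c, j) ∈ J) (hY : ∀ x, τ x = true → x ∈ Y) :
    symmDiff (core lit (fun _ => false)).edgeSet (core lit τ).edgeSet ⊆
      gq '' (J ×ˢ Set.univ) ∪ gp '' (Y ×ˢ Set.univ) := by
  intro e he
  induction e with
  | _ u v =>
  rw [Set.mem_symmDiff, SimpleGraph.mem_edgeSet, SimpleGraph.mem_edgeSet] at he
  have he' : ¬ (CAdj lit (fun _ => false) u v ↔ CAdj lit τ u v) := by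
    intro h
    rcases he with he | he
    · exact he.2 (h.1 he.1)
    · exact he.2 (h.2 he.1)
  clear he
  rcases u with ⟨c, j⟩ | ⟨c, j, s⟩ | ⟨x, t, s⟩ <;>
    rcases v with ⟨c', j'⟩ | ⟨c', j', s'⟩ | ⟨x', t', s'⟩ <;>
      simp only [CAdj, not_true_eq_false, iff_self] at he'
  · left
    by_cases hc : c = c'
    · subst hc
      simp only [true_and] at he'
      by_cases h1 : j' = j + 1
      · have h2 : ¬ j = j' + 1 := by
          clear he'
          revert h1
          revert j j'
          decide
        simp only [h1, true_and] at he'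
        refine ⟨((c, j), true), ⟨hJ _ _ ?_, trivial⟩, ?_⟩
        · by_contra h3
          rw [Bool.not_eq_true] at h3
          apply he'
          rw [tr_iff h3]
          have h4 : ¬ j = j + 1 + 1 := by rw [← h1]; exact h2
          simp [h4]
        · simp [gq, h1]
      · by_cases h2 : j = j' + 1
        · have h1' : ¬ j' = j + 1 := h1
          simp only [h2, true_and] at he'
          refine ⟨((c, j'), true), ⟨hJ _ _ ?_, trivial⟩, ?_⟩
          · by_contra h3
            rw [Bool.not_eq_true] at h3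
            apply he'
            rw [tr_iff h3]
            have h4 : ¬ j' = j' + 1 + 1 := by rw [← h2]; exact h1
            simp [h4]
          · simp only [gq, h2, if_true]
            exact Sym2.eq_swap
        · exfalso
          apply he'
          simp [h1, h2]
    · exfalso
      apply he'
      simp [hc]
  · left
    by_cases hc : c = c' ∧ j = j' ∧ s ≠ s'
    · obtain ⟨rfl, rfl, hs⟩ := hc
      refine ⟨((c, j), false), ⟨hJ _ _ ?_, trivial⟩, ?_⟩
      · by_contra h3
        rw [Bool.not_eq_true] at h3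
        apply he'
        rw [tr_iff h3]
      · simp only [gq]
        cases s <;> cases s'
        · exact absurd rfl hs
        · rfl
        · exact Sym2.eq_swap
        · exact absurd rfl hs
    · exfalso
      apply he'
      constructor
      · rintro ⟨h1, h2, h3, -⟩
        exact absurd ⟨h1, h2, h3⟩ hc
      · rintro ⟨h1, h2, h3, -⟩
        exact absurd ⟨h1, h2, h3⟩ hc
  · right
    by_cases hc : x = x' ∧ t = t' ∧ s ≠ s'
    · obtain ⟨rfl, rfl, hs⟩ := hc
      refine ⟨(x, t), ⟨hY _ ?_, trivial⟩, ?_⟩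
      · by_contra h3
        rw [Bool.not_eq_true] at h3
        apply he'
        rw [h3]
      · simp only [gp]
        cases s <;> cases s'
        · exact absurd rfl hs
        · rfl
        · exact Sym2.eq_swap
        · exact absurd rfl hs
    · exfalso
      apply he'
      constructor
      · rintro ⟨h1, ⟨h2, h3, -⟩ | h2⟩
        · exact absurd ⟨h1, h2, h3⟩ hc
        · exact ⟨h1, Or.inr h2⟩
      · rintro ⟨h1, ⟨h2, h3, -⟩ | h2⟩
        · exact absurd ⟨h1, h2, h3⟩ hc
        · exact ⟨h1, Or.inr h2⟩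

theorem core_ncard [Finite I] [Finite X] (lit : I → Fin 4 → Bool × X) (τ : X → Bool)
    (J : Set (I × Fin 4)) (Y : Set X)
    (hJ : ∀ c j, τ (lit c j).2 = true → (c, j) ∈ J) (hY : ∀ x, τ x = true → x ∈ Y) :
    (symmDiff (core lit (fun _ => false)).edgeSet (core lit τ).edgeSet).ncard ≤
      2 * J.ncard + 2 * Y.ncard := by
  refine (Set.ncard_le_ncard (core_diff lit τ J Y hJ hY) (Set.toFinite _)).trans ?_
  refine (Set.ncard_union_le _ _).trans ?_
  refine Nat.add_le_add ?_ ?_
  · refine (Set.ncard_image_le (Set.toFinite _)).trans ?_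
    rw [Set.ncard_prod, Set.ncard_univ]
    simp [mul_comm]
  · refine (Set.ncard_image_le (Set.toFinite _)).trans ?_
    rw [Set.ncard_prod, Set.ncard_univ]
    simp [mul_comm]

end

end Pool.Agent.E8helper14.KE
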