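import Pool.Agent.H671R2.CK.Defs
import Pool.Agent.H671R2.ZDefs

/-!
# Edge modification problems and polynomial kernels: the definitions
-/

set_option autoImplicit false

namespace Pool.Agent.E8helper14.KE

open Pool.Agent.NPC Pool.Agent.NPC.R671

/-- Finite simple graphs, with the vertices `0, ..., n - 1`. -/
abbrev FinGraph : Type := Σ n : ℕ, SimpleGraph (Fin n)

/-- The three types of edge modification. -/
inductive Kind : Type
  | deletion
  | completion
  | editing

/-- `G'` can be obtained from `G` by modifications of type `M`: by removing edges, by adding edges, or by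
both. -/
def Kind.Allows (M : Kind) {n : ℕ} (G G' : SimpleGraph (Fin n)) : Prop :=
  match M with
  | Kind.deletion => G' ≤ G
  | Kind.completion => G ≤ G'
  | Kind.editing => True

/-- `G` is `𝓕`-free: no induced subgraph of `G` is isomorphic to a member of `𝓕`. -/
def IsFree (𝓕 : List FinGraph) {n : ℕ} (G : SimpleGraph (Fin n)) : Prop :=
  ∀ H ∈ 𝓕, IsEmpty (H.2 ↪g G)

/-- `(G, k)` is a yes-instance of the `𝓕`-free edge modification problem of type `M`: `G` can be made
`𝓕`-free by at most `k` modifications of type `M`. -/
def Yes (M : Kind) (𝓕 : List FinGraph) {n : ℕ} (G : SimpleGraph (Fin n)) (k : ℕ) : Prop :=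
  ∃ G' : SimpleGraph (Fin n), M.Allows G G' ∧ IsFree 𝓕 G' ∧
    (symmDiff G.edgeSet G'.edgeSet).ncard ≤ k

/-- The bit string coding the instance `(G, k)`: the adjacency matrix of `G`, and `k` in binary. -/
noncomputable def code {n : ℕ} (G : SimpleGraph (Fin n)) (k : ℕ) : List Bool :=
  bits (adjMatrix G, k)

/-- The `𝓕`-free edge modification problem of type `M`, with parameter `k`, has a polynomial kernel: there
is a polynomial-time algorithm `K` which maps every instance `(G, k)` to an equivalent instance of
the same problem whose size is bounded by a polynomial in `k`. -/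
def HasPolyKernel (M : Kind) (𝓕 : List FinGraph) : Prop :=
  ∃ (K : List Bool → List Bool) (g : Polynomial ℕ), PolyTime K ∧
    ∀ (n k : ℕ) (G : SimpleGraph (Fin n)), ∃ (n' k' : ℕ) (G' : SimpleGraph (Fin n')),
      K (code G k) = code G' k' ∧ (Yes M 𝓕 G k ↔ Yes M 𝓕 G' k') ∧
      (code G' k').length ≤ g.eval k

/-- The cycle with four vertices. -/
def C4 : FinGraph := ⟨4, SimpleGraph.cycleGraph 4⟩

/-- The complement of the cycle with four vertices: two disjoint edges. -/
def twoK2 : FinGraph := ⟨4, (SimpleGraph.cycleGraph 4)ᶜ⟩

end Pool.Agent.E8helper14.KE
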