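import Mathlib

/-!
# Freezing pairs of vertices in `C₄`-free edge editing

Every pair of vertices which must not be modified gets `k + 1` gadgets: if the pair is an edge `uv`,
then a gadget consists of two nonadjacent vertices adjacent to `u` and `v`; if it is not an edge, then a
gadget is a path `u z z' v`.
-/

set_option autoImplicit false

namespace Pool.Agent.E8helper14.KE

/-- There is no induced cycle with four vertices. -/
def NoC4 {V : Type} (G : SimpleGraph V) : Prop :=
  ∀ a b c d : V, G.Adj a b → G.Adj b c → G.Adj c d → G.Adj d a → a ≠ c → b ≠ d →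
    G.Adj a c ∨ G.Adj b d

section
variable {V : Type}

/-- The gadget vertices. -/
abbrev Z (V : Type) (k : ℕ) : Type := V × V × Fin (k + 1) × Bool

/-- The vertex `w` is adjacent to the gadget vertex `z`. -/
def Att (G : SimpleGraph V) (Fr : V → V → Prop) {k : ℕ} (w : V) (z : Z V k) : Prop :=
  Fr z.1 z.2.1 ∧ z.1 ≠ z.2.1 ∧
    ((w = z.1 ∧ (G.Adj z.1 z.2.1 ∨ z.2.2.2 = false)) ∨
      (w = z.2.1 ∧ (G.Adj z.1 z.2.1 ∨ z.2.2.2 = true)))

/-- The two gadget vertices are adjacent. -/
def ZAdj (G : SimpleGraph V) (Fr : V → V → Prop) {k : ℕ} (z z' : Z V k) : Prop :=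
  z.1 = z'.1 ∧ z.2.1 = z'.2.1 ∧ z.2.2.1 = z'.2.2.1 ∧ z.2.2.2 ≠ z'.2.2.2 ∧ Fr z.1 z.2.1 ∧
    z.1 ≠ z.2.1 ∧ ¬ G.Adj z.1 z.2.1

/-- The graph `H` with the gadgets for `G`. -/
def ext (G : SimpleGraph V) (Fr : V → V → Prop) (k : ℕ) (H : SimpleGraph V) :
    SimpleGraph (V ⊕ Z V k) where
  Adj x y := match x, y with
    | Sum.inl u, Sum.inl v => H.Adj u v
    | Sum.inl w, Sum.inr z => Att G Fr w z
    | Sum.inr z, Sum.inl w => Att G Fr w z
    | Sum.inr z, Sum.inr z' => ZAdj G Fr z z'
  symm := ⟨by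
    rintro (u | z) (v | z') h
    · exact H.adj_symm h
    · exact h
    · exact h
    · obtain ⟨h1, h2, h3, h4, h5, h6, h7⟩ := h
      exact ⟨h1.symm, h2.symm, h3.symm, h4.symm, by rw [← h1, ← h2]; exact h5,
        by rw [← h1, ← h2]; exact h6, by rw [← h1, ← h2]; exact h7⟩⟩
  loopless := ⟨by
    rintro (u | z) h
    · exact H.irrefl h
    · exact h.2.2.2.1 rfl⟩

theorem ext_inl {G : SimpleGraph V} {Fr : V → V → Prop} {k : ℕ} {H : SimpleGraph V} {u v : V} :
    (ext G Fr k H).Adj (Sum.inl u) (Sum.inl v) ↔ H.Adj u v := Iff.rfl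

/-- An induced 4-cycle of the extended graph has no gadget vertices. -/
theorem ext_noC4_aux {G : SimpleGraph V} {Fr : V → V → Prop} {k : ℕ} {H : SimpleGraph V}
    (hH : ∀ u v, u ≠ v → Fr u v → (H.Adj u v ↔ G.Adj u v)) (z : Z V k) (b c d : V ⊕ Z V k)
    (h1 : (ext G Fr k H).Adj (Sum.inr z) b) (h2 : (ext G Fr k H).Adj b c)
    (h3 : (ext G Fr k H).Adj c d) (h4 : (ext G Fr k H).Adj d (Sum.inr z))
    (hac : Sum.inr z ≠ c) (hbd : b ≠ d) : (ext G Fr k H).Adj b d := by
  obtain ⟨u, v, i, s⟩ := z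
  by_cases hG : G.Adj u v
  · -- the neighbours of `z` are `u` and `v`
    have key : ∀ x : V ⊕ Z V k, (ext G Fr k H).Adj (Sum.inr (u, v, i, s)) x →
        Fr u v ∧ u ≠ v ∧ (x = Sum.inl u ∨ x = Sum.inl v) := by
      rintro (w | z') h
      · obtain ⟨e1, e2, e3 | e3⟩ := h
        · exact ⟨e1, e2, Or.inl (by rw [e3.1])⟩
        · exact ⟨e1, e2, Or.inr (by rw [e3.1])⟩
      · exact absurd hG h.2.2.2.2.2.2
    obtain ⟨hf, hne, hb⟩ := key b h1
    obtain ⟨-, -, hd⟩ := key d h4.symm
    have hH' : H.Adj u v := (hH u v hne hf).2 hG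
    rcases hb with rfl | rfl <;> rcases hd with rfl | rfl
    · exact absurd rfl hbd
    · exact hH'
    · exact hH'.symm
    · exact absurd rfl hbd
  · -- the neighbours of `z` are one of `u` and `v`, and the other gadget vertex
    have key : ∀ (s : Bool) (x : V ⊕ Z V k), (ext G Fr k H).Adj (Sum.inr (u, v, i, s)) x →
        Fr u v ∧ u ≠ v ∧ (x = Sum.inl (if s then v else u) ∨ x = Sum.inr (u, v, i, !s)) := by
      rintro s (w | ⟨u', v', i', s'⟩) h
      · obtain ⟨e1, e2, e3 | e3⟩ := h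
        · rcases e3.2 with e4 | e4
          · exact absurd e4 hG
          · have e4' : s = false := e4
            have e5 : w = u := e3.1
            subst e4' e5
            exact ⟨e1, e2, Or.inl rfl⟩
        · rcases e3.2 with e4 | e4
          · exact absurd e4 hG
          · have e4' : s = true := e4
            have e5 : w = v := e3.1
            subst e4' e5
            exact ⟨e1, e2, Or.inl rfl⟩
      · obtain ⟨e1, e2, e3, e4, e5, e6, -⟩ := h
        simp only at e1 e2 e3 e4 e5 e6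
        subst e1 e2 e3
        refine ⟨e5, e6, Or.inr ?_⟩
        have : s' = !s := by
          cases s <;> cases s' <;> simp_all
        rw [this]
    have key2 : ∀ (s : Bool) (c : V ⊕ Z V k), Sum.inr (u, v, i, s) ≠ c →
        (ext G Fr k H).Adj (Sum.inr (u, v, i, !s)) c →
        (ext G Fr k H).Adj c (Sum.inl (if s then v else u)) → False := by
      intro s c h1 h2 h3
      obtain ⟨hf, hne, hc⟩ := key (!s) c h2
      rcases hc with rfl | rfl
      · rw [ext_inl] at h3
        have h4 : ¬ H.Adj u v := fun h => hG ((hH u v hne hf).1 h)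
        cases s
        · exact h4 h3.symm
        · exact h4 h3
      · simp at h1
    obtain ⟨hf, hne, hb⟩ := key s b h1
    obtain ⟨-, -, hd⟩ := key s d h4.symm
    rcases hb with rfl | rfl <;> rcases hd with rfl | rfl
    · exact absurd rfl hbd
    · exact (key2 s c hac h3.symm h2.symm).elim
    · exact (key2 s c hac h2 h3).elim
    · exact absurd rfl hbd

theorem ext_noC4 {G : SimpleGraph V} {Fr : V → V → Prop} {k : ℕ} {H : SimpleGraph V}
    (hH : ∀ u v, u ≠ v → Fr u v → (H.Adj u v ↔ G.Adj u v)) (hH4 : NoC4 H) :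
    NoC4 (ext G Fr k H) := by
  intro a b c d h1 h2 h3 h4 hac hbd
  rcases a with a | z
  · rcases b with b | z
    · rcases c with c | z
      · rcases d with d | z
        · exact hH4 a b c d h1 h2 h3 h4 (fun h => hac (by rw [h])) (fun h => hbd (by rw [h]))
        · exact Or.inl (ext_noC4_aux hH z _ _ _ h4 h1 h2 h3 hbd.symm hac)
      · exact Or.inr (ext_noC4_aux hH z _ _ _ h3 h4 h1 h2 hac.symm hbd.symm).symm
    · exact Or.inl (ext_noC4_aux hH z _ _ _ h2 h3 h4 h1 hbd hac.symm).symm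
  · exact Or.inr (ext_noC4_aux hH z _ _ _ h1 h2 h3 h4 hac hbd)

/-- The modified pairs of the extended graphs are those of the graphs. -/
theorem ext_symmDiff (G : SimpleGraph V) (Fr : V → V → Prop) (k : ℕ) (H : SimpleGraph V) :
    symmDiff (ext G Fr k G).edgeSet (ext G Fr k H).edgeSet =
      Sym2.map Sum.inl '' (symmDiff G.edgeSet H.edgeSet) := by
  ext e
  induction e with
  | _ x y =>
  rw [Set.mem_symmDiff, SimpleGraph.mem_edgeSet, SimpleGraph.mem_edgeSet, Set.mem_image]
  constructor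
  · intro h
    rcases x with u | z <;> rcases y with v | z'
    · refine ⟨s(u, v), ?_, rfl⟩
      rw [Set.mem_symmDiff, SimpleGraph.mem_edgeSet, SimpleGraph.mem_edgeSet]
      exact h
    · rcases h with h | h
      · exact absurd h.1 h.2
      · exact absurd h.1 h.2
    · rcases h with h | h
      · exact absurd h.1 h.2
      · exact absurd h.1 h.2
    · rcases h with h | h
      · exact absurd h.1 h.2
      · exact absurd h.1 h.2
  · rintro ⟨e, he, hxy⟩
    induction e with
    | _ u v =>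
    rw [Set.mem_symmDiff, SimpleGraph.mem_edgeSet, SimpleGraph.mem_edgeSet] at he
    rw [Sym2.map_mk, Sym2.eq_iff] at hxy
    rcases hxy with ⟨rfl, rfl⟩ | ⟨rfl, rfl⟩
    · exact he
    · rcases he with he | he
      · exact Or.inl ⟨he.1.symm, fun h => he.2 h.symm⟩
      · exact Or.inr ⟨he.1.symm, fun h => he.2 h.symm⟩

theorem ext_ncard (G : SimpleGraph V) (Fr : V → V → Prop) (k : ℕ) (H : SimpleGraph V) :
    (symmDiff (ext G Fr k G).edgeSet (ext G Fr k H).edgeSet).ncard =
      (symmDiff G.edgeSet H.edgeSet).ncard := by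
  rw [ext_symmDiff]
  exact Set.ncard_image_of_injective _ (Sym2.map.injective Sum.inl_injective)

/-- In a gadget of a modified pair a further pair is modified. -/
theorem gadget_modified {G : SimpleGraph V} {Fr : V → V → Prop} {k : ℕ}
    {G' : SimpleGraph (V ⊕ Z V k)} (h4 : NoC4 G') {u v : V} (hne : u ≠ v) (hf : Fr u v)
    (hmod : ¬ (G'.Adj (Sum.inl u) (Sum.inl v) ↔ G.Adj u v)) (i : Fin (k + 1)) :
    ∃ e ∈ symmDiff (ext G Fr k G).edgeSet G'.edgeSet,
      (∃ s, Sum.inr (u, v, i, s) ∈ e) ∧ ∀ z : Z V k, Sum.inr z ∈ e → z.2.2.1 = i := by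
  by_contra hcon
  push Not at hcon
  have keep : ∀ (x : V ⊕ Z V k) (s : Bool), (∀ z : Z V k, Sum.inr z = x → z.2.2.1 = i) →
      (G'.Adj (Sum.inr (u, v, i, s)) x ↔ (ext G Fr k G).Adj (Sum.inr (u, v, i, s)) x) := by
    intro x s hx
    by_contra hne'
    obtain ⟨z, hz, hz'⟩ := hcon s(Sum.inr (u, v, i, s), x) (by
      rw [Set.mem_symmDiff, SimpleGraph.mem_edgeSet, SimpleGraph.mem_edgeSet]
      tauto) ⟨s, Sym2.mem_mk_left _ _⟩
    rw [Sym2.mem_iff] at hz
    rcases hz with hz | hz
    · rw [Sum.inr.injEq] at hz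
      rw [hz] at hz'
      exact hz' rfl
    · exact hz' (hx z hz)
  have k1 : ∀ (w : V) (s : Bool), (G'.Adj (Sum.inr (u, v, i, s)) (Sum.inl w) ↔
      (ext G Fr k G).Adj (Sum.inr (u, v, i, s)) (Sum.inl w)) := fun w s =>
    keep _ s fun z hz => by simp at hz
  have k2 : ∀ (s s' : Bool), (G'.Adj (Sum.inr (u, v, i, s)) (Sum.inr (u, v, i, s')) ↔
      (ext G Fr k G).Adj (Sum.inr (u, v, i, s)) (Sum.inr (u, v, i, s'))) := fun s s' =>
    keep _ s fun z hz => by rw [Sum.inr.injEq] at hz; rw [hz]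
  by_cases hG : G.Adj u v
  · have hno : ¬ G'.Adj (Sum.inl u) (Sum.inl v) := fun h => hmod ⟨fun _ => hG, fun _ => h⟩
    have a1 : ∀ s, G'.Adj (Sum.inr (u, v, i, s)) (Sum.inl u) := fun s =>
      (k1 u s).2 ⟨hf, hne, Or.inl ⟨rfl, Or.inl hG⟩⟩
    have a2 : ∀ s, G'.Adj (Sum.inr (u, v, i, s)) (Sum.inl v) := fun s =>
      (k1 v s).2 ⟨hf, hne, Or.inr ⟨rfl, Or.inl hG⟩⟩
    rcases h4 (Sum.inl u) (Sum.inr (u, v, i, false)) (Sum.inl v) (Sum.inr (u, v, i, true))
      (a1 false).symm (a2 false) (a2 true).symm (a1 true) (fun h => hne (Sum.inl.inj h))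
      (by simp) with h | h
    · exact hno h
    · have := (k2 false true).1 h
      exact this.2.2.2.2.2.2 hG
  · have hyes : G'.Adj (Sum.inl u) (Sum.inl v) := by
      by_contra h
      exact hmod ⟨fun h' => absurd h' h, fun h' => absurd h' hG⟩
    have a1 : G'.Adj (Sum.inr (u, v, i, false)) (Sum.inl u) :=
      (k1 u false).2 ⟨hf, hne, Or.inl ⟨rfl, Or.inr rfl⟩⟩
    have a2 : G'.Adj (Sum.inr (u, v, i, true)) (Sum.inl v) :=
      (k1 v true).2 ⟨hf, hne, Or.inr ⟨rfl, Or.inr rfl⟩⟩
    have a3 : G'.Adj (Sum.inr (u, v, i, false)) (Sum.inr (u, v, i, true)) :=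
      (k2 false true).2 ⟨rfl, rfl, rfl, by simp, hf, hne, hG⟩
    rcases h4 (Sum.inl u) (Sum.inr (u, v, i, false)) (Sum.inr (u, v, i, true)) (Sum.inl v)
      a1.symm a3 a2 hyes.symm (by simp) (by simp) with h | h
    · have := (k1 u true).1 h.symm
      obtain ⟨-, -, ⟨-, h5⟩ | ⟨h5, -⟩⟩ := this
      · rcases h5 with h5 | h5
        · exact hG h5
        · simp at h5
      · exact hne h5
    · have := (k1 v false).1 h
      obtain ⟨-, -, ⟨h5, -⟩ | ⟨-, h5⟩⟩ := this
      · exact hne h5.symm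
      · rcases h5 with h5 | h5
        · exact hG h5
        · simp at h5

/-- **Freezing.** Editing the extended graph with at most `k` modifications amounts to editing `G` with
at most `k` modifications, none of them on a frozen pair. -/
theorem frozen_iff [Finite V] (G : SimpleGraph V) (Fr : V → V → Prop) (k : ℕ) :
    (∃ G' : SimpleGraph (V ⊕ Z V k), NoC4 G' ∧
      (symmDiff (ext G Fr k G).edgeSet G'.edgeSet).ncard ≤ k) ↔
    ∃ H : SimpleGraph V, NoC4 H ∧ (∀ u v, u ≠ v → Fr u v → (H.Adj u v ↔ G.Adj u v)) ∧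
      (symmDiff G.edgeSet H.edgeSet).ncard ≤ k := by
  constructor
  · rintro ⟨G', h4, hk⟩
    refine ⟨G'.comap Sum.inl, ?_, ?_, ?_⟩
    · intro a b c d h1 h2 h3 h5 hac hbd
      exact h4 (Sum.inl a) (Sum.inl b) (Sum.inl c) (Sum.inl d) h1 h2 h3 h5
        (fun h => hac (Sum.inl.inj h)) (fun h => hbd (Sum.inl.inj h))
    · intro u v hne hf
      by_contra hmod
      have hmod' : ¬ (G'.Adj (Sum.inl u) (Sum.inl v) ↔ G.Adj u v) := hmod
      choose e he he1 he2 using fun i => gadget_modified h4 hne hf hmod' i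
      have hinj : Function.Injective e := by
        intro i j hij
        obtain ⟨s, hs⟩ := he1 i
        rw [hij] at hs
        exact he2 j _ hs
      have hcard : (Set.range e).ncard = k + 1 := by
        rw [← Set.image_univ, Set.ncard_image_of_injective _ hinj, Set.ncard_univ]
        simp
      have hsub : Set.range e ⊆ symmDiff (ext G Fr k G).edgeSet G'.edgeSet := by
        rintro _ ⟨i, rfl⟩
        exact he i
      have := Set.ncard_le_ncard hsub (Set.toFinite _)
      omega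
    · refine le_trans ?_ hk
      have hsub : Sym2.map Sum.inl '' (symmDiff G.edgeSet (G'.comap Sum.inl).edgeSet) ⊆
          symmDiff (ext G Fr k G).edgeSet G'.edgeSet := by
        rintro _ ⟨e, he, rfl⟩
        induction e with
        | _ u v =>
        rw [Set.mem_symmDiff, SimpleGraph.mem_edgeSet, SimpleGraph.mem_edgeSet] at he
        rw [Sym2.map_mk, Set.mem_symmDiff, SimpleGraph.mem_edgeSet, SimpleGraph.mem_edgeSet]
        exact he
      have h1 := Set.ncard_le_ncard hsub (Set.toFinite _)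
      rwa [Set.ncard_image_of_injective _ (Sym2.map.injective Sum.inl_injective)] at h1
  · rintro ⟨H, h4, hf, hk⟩
    exact ⟨ext G Fr k H, ext_noC4 hf h4, by rw [ext_ncard]; exact hk⟩

end

end Pool.Agent.E8helper14.KE
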