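import Pool.Agent.E8helper14.KE.Defs
import Pool.Agent.E8helper14.KE.Frz

/-!
# Induced 4-cycles, complements, isomorphisms
-/

set_option autoImplicit false

namespace Pool.Agent.E8helper14.KE

theorem isEmpty_c4 {V : Type} (G : SimpleGraph V) :
    IsEmpty (SimpleGraph.cycleGraph 4 ↪g G) ↔ NoC4 G := by
  constructor
  · intro h a b c d h1 h2 h3 h4 hac hbd
    by_contra hno
    push Not at hno
    obtain ⟨n1, n2⟩ := hno
    refine h.false ⟨⟨![a, b, c, d], ?_⟩, ?_⟩
    · intro i j hij
      have e1 := h1.ne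
      have e2 := h2.ne
      have e3 := h3.ne
      have e4 := h4.ne
      fin_cases i <;> fin_cases j <;> simp_all
    · intro i j
      rw [SimpleGraph.cycleGraph_adj]
      have n1' : ¬ G.Adj c a := fun h => n1 h.symm
      have n2' : ¬ G.Adj d b := fun h => n2 h.symm
      have e1 := h1.symm
      have e2 := h2.symm
      have e3 := h3.symm
      have e4 := h4.symm
      have l0 : ∀ x, ¬ G.Adj x x := fun x h => h.ne rfl
      show G.Adj (![a, b, c, d] i) (![a, b, c, d] j) ↔ _
      fin_cases i <;> fin_cases j <;>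
        first
        | exact iff_of_true h1 (by decide)
        | exact iff_of_true h2 (by decide)
        | exact iff_of_true h3 (by decide)
        | exact iff_of_true h4 (by decide)
        | exact iff_of_true e1 (by decide)
        | exact iff_of_true e2 (by decide)
        | exact iff_of_true e3 (by decide)
        | exact iff_of_true e4 (by decide)
        | exact iff_of_false n1 (by decide)
        | exact iff_of_false n2 (by decide)
        | exact iff_of_false n1' (by decide)
        | exact iff_of_false n2' (by decide)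
        | exact iff_of_false (l0 _) (by decide)
  · intro h
    refine ⟨fun f => ?_⟩
    have adj : ∀ i j : Fin 4, (SimpleGraph.cycleGraph 4).Adj i j → G.Adj (f i) (f j) :=
      fun i j hij => f.map_adj_iff.2 hij
    have nadj : ∀ i j : Fin 4, ¬ (SimpleGraph.cycleGraph 4).Adj i j → ¬ G.Adj (f i) (f j) :=
      fun i j hij h' => hij (f.map_adj_iff.1 h')
    have inj : ∀ i j : Fin 4, i ≠ j → f i ≠ f j := fun i j hij h' => hij (f.injective h')
    rcases h (f 0) (f 1) (f 2) (f 3) (adj 0 1 (by rw [SimpleGraph.cycleGraph_adj]; decide))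
      (adj 1 2 (by rw [SimpleGraph.cycleGraph_adj]; decide))
      (adj 2 3 (by rw [SimpleGraph.cycleGraph_adj]; decide))
      (adj 3 0 (by rw [SimpleGraph.cycleGraph_adj]; decide)) (inj 0 2 (by decide))
      (inj 1 3 (by decide)) with h' | h'
    · exact nadj 0 2 (by rw [SimpleGraph.cycleGraph_adj]; decide) h'
    · exact nadj 1 3 (by rw [SimpleGraph.cycleGraph_adj]; decide) h'

/-- Editing into a graph without induced 4-cycles with at most `k` modifications. -/
def Ed {V : Type} (G : SimpleGraph V) (k : ℕ) : Prop :=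
  ∃ G' : SimpleGraph V, NoC4 G' ∧ (symmDiff G.edgeSet G'.edgeSet).ncard ≤ k

theorem yes_c4 {n : ℕ} (G : SimpleGraph (Fin n)) (k : ℕ) :
    Yes Kind.editing [C4] G k ↔ Ed G k := by
  unfold Yes Ed
  refine exists_congr fun G' => ?_
  have h1 : IsFree [C4] G' ↔ NoC4 G' := by
    unfold IsFree
    simp only [List.mem_singleton, forall_eq]
    exact isEmpty_c4 G'
  rw [h1]
  exact ⟨fun h => h.2, fun h => ⟨trivial, h⟩⟩

theorem symmDiff_compl {V : Type} (G G' : SimpleGraph V) :
    symmDiff Gᶜ.edgeSet G'ᶜ.edgeSet = symmDiff G.edgeSet G'.edgeSet := by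
  ext e
  induction e with
  | _ a b =>
  rw [Set.mem_symmDiff, Set.mem_symmDiff]
  simp only [SimpleGraph.mem_edgeSet, SimpleGraph.compl_adj]
  have h1 : G.Adj a b → a ≠ b := fun h => h.ne
  have h2 : G'.Adj a b → a ≠ b := fun h => h.ne
  tauto

theorem isEmpty_twoK2 {V : Type} (G : SimpleGraph V) :
    IsEmpty ((SimpleGraph.cycleGraph 4)ᶜ ↪g G) ↔ NoC4 Gᶜ := by
  rw [← isEmpty_c4]
  have e : ((SimpleGraph.cycleGraph 4) ↪g Gᶜ) ≃ ((SimpleGraph.cycleGraph 4)ᶜ ↪g Gᶜᶜ) :=
    SimpleGraph.Embedding.complEquiv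
  rw [compl_compl] at e
  exact e.symm.isEmpty_congr

theorem yes_twoK2 {n : ℕ} (G : SimpleGraph (Fin n)) (k : ℕ) :
    Yes Kind.editing [twoK2] Gᶜ k ↔ Ed G k := by
  unfold Yes Ed
  constructor
  · rintro ⟨G', -, h1, h2⟩
    refine ⟨G'ᶜ, ?_, ?_⟩
    · exact (isEmpty_twoK2 G').1 (h1 twoK2 (by simp))
    · rw [← symmDiff_compl, compl_compl]
      exact h2
  · rintro ⟨G', h1, h2⟩
    refine ⟨G'ᶜ, trivial, ?_, ?_⟩
    · intro H hH
      rw [List.mem_singleton] at hH
      subst hH
      refine (isEmpty_twoK2 G'ᶜ).2 ?_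
      rw [compl_compl]
      exact h1
    · rw [symmDiff_compl]
      exact h2

theorem Ed.transfer {A B : Type} {G : SimpleGraph A} {H : SimpleGraph B} (e : A ≃ B)
    (he : ∀ i j, G.Adj i j ↔ H.Adj (e i) (e j)) {k : ℕ} (h : Ed G k) : Ed H k := by
  obtain ⟨G', h1, h2⟩ := h
  refine ⟨G'.comap e.symm, ?_, ?_⟩
  · intro a b c d e1 e2 e3 e4 hac hbd
    exact h1 _ _ _ _ e1 e2 e3 e4 (fun h => hac (e.symm.injective h))
      (fun h => hbd (e.symm.injective h))
  · have h3 : symmDiff H.edgeSet (G'.comap e.symm).edgeSet =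
        Sym2.map e '' symmDiff G.edgeSet G'.edgeSet := by
      ext s
      constructor
      · intro hs
        refine ⟨Sym2.map e.symm s, ?_, ?_⟩
        · induction s with
          | _ a b =>
          rw [Set.mem_symmDiff, SimpleGraph.mem_edgeSet, SimpleGraph.mem_edgeSet] at hs
          rw [Sym2.map_mk, Set.mem_symmDiff, SimpleGraph.mem_edgeSet, SimpleGraph.mem_edgeSet,
            he, e.apply_symm_apply, e.apply_symm_apply]
          exact hs
        · rw [Sym2.map_map]
          simp
      · rintro ⟨s, hs, rfl⟩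
        induction s with
        | _ a b =>
        rw [Set.mem_symmDiff, SimpleGraph.mem_edgeSet, SimpleGraph.mem_edgeSet] at hs
        rw [Sym2.map_mk, Set.mem_symmDiff, SimpleGraph.mem_edgeSet, SimpleGraph.mem_edgeSet,
          ← he, SimpleGraph.comap_adj, e.symm_apply_apply, e.symm_apply_apply]
        exact hs
    rw [h3, Set.ncard_image_of_injective _ (Sym2.map.injective e.injective)]
    exact h2

theorem ed_congr {A B : Type} {G : SimpleGraph A} {H : SimpleGraph B} (e : A ≃ B)
    (he : ∀ i j, G.Adj i j ↔ H.Adj (e i) (e j)) (k : ℕ) : Ed G k ↔ Ed H k :=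
  ⟨fun h => h.transfer e he, fun h => h.transfer e.symm fun i j => by
    rw [he, e.apply_symm_apply, e.apply_symm_apply]⟩

end Pool.Agent.E8helper14.KE
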