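import Pool.Agent.E8helper14.KE.Link
import Pool.Agent.H671R2.CK.K3
import Pool.Agent.H671R2.CK.K15
import Pool.Agent.H622R2.CoNP
import Pool.Agent.H671R2.Search

/-!
# `C₄`-free editing and `2K₂`-free editing are incompressible
-/

set_option autoImplicit false

namespace Pool.Agent.E8helper14.KE

open Pool.Agent.NPC Pool.Agent.NPC.R671 Pool.Agent.H622R2
open Pool.Agent.CK (Form maxLen CoNPSubsetNPPoly)

theorem eval_mono' (p : Polynomial ℕ) {a b : ℕ} (h : a ≤ b) : p.eval a ≤ p.eval b := by
  rw [Polynomial.eval_eq_sum, Polynomial.eval_eq_sum]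
  exact Finset.sum_le_sum fun i _ => Nat.mul_le_mul_left _ (Nat.pow_le_pow_left h i)

theorem code_inj {n n' k k' : ℕ} {G : SimpleGraph (Fin n)} {G' : SimpleGraph (Fin n')}
    (h : code G k = code G' k') (M : Kind) (𝓕 : List FinGraph) :
    Yes M 𝓕 G k ↔ Yes M 𝓕 G' k' := by
  have h1 : (adjMatrix G, k) = (adjMatrix G', k') := bits_injective h
  rw [Prod.mk.injEq] at h1
  obtain ⟨h2, rfl⟩ := h1
  have h3 : n = n' := by
    have := congrArg List.length h2
    simpa [adjMatrix] using this
  subst h3
  rw [adjMatrix_inj h2]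

theorem budget_bound : ∃ q : Polynomial ℕ, ∀ (fs : List Form) (m : ℕ), (∀ φ ∈ fs, φ.length ≤ m) →
    budget fs ≤ q.eval (m + fs.length.size) := by
  refine ⟨(Polynomial.X + 3) * (14 * (Polynomial.X + 1) + 2), ?_⟩
  intro fs m h
  have hM : maxLen fs ≤ m + 1 := by
    unfold maxLen
    refine (CK.K15_foldl fs 1 m h).trans ?_
    omega
  have hev : ((Polynomial.X + 3) * (14 * (Polynomial.X + 1) + 2) : Polynomial ℕ).eval
      (m + fs.length.size) =
      (m + fs.length.size + 3) * (14 * (m + fs.length.size + 1) + 2) := by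
    simp
  rw [hev]
  unfold budget
  have h1 : (2 * fs.length).size ≤ fs.length.size + 1 := by
    rw [Nat.size_le, pow_succ]
    have := Nat.lt_size_self fs.length
    omega
  have h2 : (2 * fs.length).size + 2 ≤ m + fs.length.size + 3 := by omega
  have h3 : 14 * maxLen fs + 2 ≤ 14 * (m + fs.length.size + 1) + 2 := by omega
  exact Nat.mul_le_mul h2 h3

/-- If `C₄`-free editing or `2K₂`-free editing has a polynomial kernel, then `coNP ⊆ NP/poly`. -/
theorem incomp (b : Bool) (h : HasPolyKernel Kind.editing [ex b]) : CoNPSubsetNPPoly := by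
  obtain ⟨K, g, hK, hker⟩ := h
  intro L hL
  obtain ⟨red, hred, hpr, hL'⟩ := hardPr_SAT3b Lᶜ hL
  have hredP : Poly red := PC.comp (g := red) (f := fun x => x) hred rawOut
  obtain ⟨p, hp⟩ := hredP.sz_le
  obtain ⟨q1, hq1⟩ := budget_bound
  -- the composition
  let comp : List (List Bool) → List Bool := fun xs => K (bits (inst b (xs.map red)))
  have hcomp : Poly comp := by
    have h1 : Poly (fun xs : List (List Bool) => xs.map red) :=
      NPC.Poly.map (F := fun _ x => red x) NPC.Poly.id (hredP.comp (NPC.Poly.snd NPC.Poly.id))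
    have h2 : Poly (fun xs : List (List Bool) => inst b (xs.map red)) := poly_inst b h1
    have h3 : Poly (fun xs : List (List Bool) => bits (inst b (xs.map red))) :=
      poly_bits.comp h2
    exact (poly_of_polyTime hK).comp h3
  -- the output of the kernelization
  have key : ∀ xs : List (List Bool), xs ≠ [] → ∃ (n' k' : ℕ) (G' : SimpleGraph (Fin n')),
      comp xs = code G' k' ∧ (Yes Kind.editing [ex b] G' k' ↔ ∃ x ∈ xs, x ∉ L) ∧
      (code G' k').length ≤ g.eval (budget (xs.map red)) := by
    intro xs hxs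
    have hprom : Prom (xs.map red) := by
      refine ⟨by simpa using hxs, ?_, ?_, ?_⟩
      · intro φ hφ
        obtain ⟨x, -, rfl⟩ := List.mem_map.1 hφ
        exact (hpr x).1
      · intro φ hφ
        obtain ⟨x, -, rfl⟩ := List.mem_map.1 hφ
        exact (hpr x).2.1
      · intro φ hφ
        obtain ⟨x, -, rfl⟩ := List.mem_map.1 hφ
        exact (hpr x).2.2
    obtain ⟨n, G, h1, h2⟩ := inst_iff b hprom
    obtain ⟨n', k', G', h3, h4, h5⟩ := hker n (budget (xs.map red)) G
    refine ⟨n', k', G', ?_, ?_, h5⟩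
    · rw [← h3]
      show K (bits (inst b (xs.map red))) = K (bits (adjMatrix G, budget (xs.map red)))
      rw [h1]
      rfl
    · rw [← h4]
      refine h2.trans ?_
      constructor
      · rintro ⟨φ, hφ, hs⟩
        obtain ⟨x, hx, rfl⟩ := List.mem_map.1 hφ
        exact ⟨x, hx, (hL' x).2 hs⟩
      · rintro ⟨x, hx, hxL⟩
        exact ⟨red x, List.mem_map_of_mem hx, (hL' x).1 hxL⟩
  refine CK.fs L comp hcomp
    (fun y => ∃ (n' k' : ℕ) (G' : SimpleGraph (Fin n')), y = code G' k' ∧
      Yes Kind.editing [ex b] G' k')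
    (Polynomial.C 4 * (g.comp (q1.comp (p.comp (Polynomial.C 4 * Polynomial.X + 1) +
      Polynomial.X))) + 1) ?_ ?_
  · intro n xs hne hn
    obtain ⟨n', k', G', h1, -, h3⟩ := key xs hne
    have hlen : ∀ φ ∈ xs.map red, φ.length ≤ p.eval (4 * n + 1) := by
      intro φ hφ
      obtain ⟨x, hx, rfl⟩ := List.mem_map.1 hφ
      have e1 := NPC.length_lt_sz (red x)
      have e2 := hp x
      have e3 := sz_listBool_le x
      rw [hn x hx] at e3
      have e4 := eval_mono' p e3
      omega
    have h5 := hq1 (xs.map red) _ hlen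
    rw [List.length_map] at h5
    rw [h1]
    refine (sz_listBool_le _).trans ?_
    have e5 : p.eval (4 * n + 1) ≤ p.eval (4 * (n + xs.length.size) + 1) :=
      eval_mono' p (by omega)
    have h6 := h3.trans (eval_mono' g (h5.trans (eval_mono' q1
      (Nat.add_le_add e5 (Nat.le_add_left xs.length.size n)))))
    simp only [Polynomial.eval_add, Polynomial.eval_comp, Polynomial.eval_mul, Polynomial.eval_C,
      Polynomial.eval_X, Polynomial.eval_one]
    omega
  · intro n xs hne _
    obtain ⟨n', k', G', h1, h2, -⟩ := key xs hne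
    rw [h1]
    constructor
    · rintro ⟨n'', k'', G'', h4, h5⟩
      exact h2.1 ((code_inj h4 _ _).2 h5)
    · intro hx
      exact ⟨n', k', G', rfl, h2.2 hx⟩

end Pool.Agent.E8helper14.KE
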