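import Pool.Agent.E8helper14.KE.Tree
import Pool.Agent.H671R2.CK.K7
import Pool.Agent.H671R2.PolyAuto

/-!
# The instances are computed in polynomial time
-/

set_option autoImplicit false

namespace Pool.Agent.E8helper14.KE

open Pool.Agent.NPC
open Pool.Agent.CK (Form maxLen)

/-- Codes of the vertices of the core: kind, two indices, a position or sign, a side. -/
abbrev LC : Type := ℕ × ℕ × ℕ × ℕ × Bool

/-- Codes of all vertices. -/
abbrev LF : Type := LC ⊕ (LC × LC × ℕ × Bool)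

instance decLC : DecidableEq LC := inferInstance

instance decLZ : DecidableEq (LC × LC × ℕ × Bool) := inferInstance

instance decLF : DecidableEq LF := inferInstance

/-- Adjacency of codes, in one direction. -/
def ad1 (fs : List Form) (u v : LC) : Bool :=
  decide (u.1 = 0 ∧ v.1 = 0 ∧ u.2.1 = v.2.1 ∧ u.2.2.1 = v.2.2.1 ∧
      v.2.2.2.1 = (u.2.2.2.1 + 1) % 4 ∧ (litN fs u.2.1 u.2.2.1 u.2.2.2.1).1 = true) ||
  (decide (u.1 = 0 ∧ v.1 = 1 ∧ u.2.1 = v.2.1 ∧ u.2.2.1 = v.2.2.1 ∧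
      (u.2.2.2.1 = v.2.2.2.1 ∨ u.2.2.2.1 = (v.2.2.2.1 + 1) % 4)) ||
  (decide (u.1 = 1 ∧ v.1 = 1 ∧ u.2.1 = v.2.1 ∧ u.2.2.1 = v.2.2.1 ∧
      u.2.2.2.1 = v.2.2.2.1 ∧ ¬ u.2.2.2.2 = v.2.2.2.2 ∧
      (litN fs u.2.1 u.2.2.1 u.2.2.2.1).1 = false) ||
  (decide (u.1 = 1 ∧ v.1 = 2 ∧ litN fs u.2.1 u.2.2.1 u.2.2.2.1 =
      (decide (v.2.2.2.1 = 1), v.2.1, v.2.2.1) ∧ u.2.2.2.2 = v.2.2.2.2) ||
  decide (u.1 = 2 ∧ v.1 = 2 ∧ u.2.1 = v.2.1 ∧ u.2.2.1 = v.2.2.1 ∧
      ((u.2.2.2.1 = v.2.2.2.1 ∧ ¬ u.2.2.2.2 = v.2.2.2.2 ∧ ¬ u.2.2.2.1 = 0) ∨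
        ¬ u.2.2.2.1 = v.2.2.2.1)))))

/-- Adjacency of codes. -/
def ad (fs : List Form) (u v : LC) : Bool := ad1 fs u v || ad1 fs v u

/-- Pairs of codes which may be modified. -/
def fre (u v : LC) : Bool :=
  decide (u.1 = v.1 ∧ u.2.1 = v.2.1 ∧ u.2.2.1 = v.2.2.1 ∧
    ((u.1 = 0 ∧ (v.2.2.2.1 = (u.2.2.2.1 + 1) % 4 ∨ u.2.2.2.1 = (v.2.2.2.1 + 1) % 4)) ∨
      (¬ u.1 = 0 ∧ u.2.2.2.1 = v.2.2.2.1)))

/-- Adjacency of a code to a gadget vertex. -/
def att (fs : List Form) (w : LC) (z : LC × LC × ℕ × Bool) : Bool :=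
  decide ((fre z.1 z.2.1 = false ∧ ¬ z.1 = z.2.1) ∧
    ((w = z.1 ∧ (ad fs z.1 z.2.1 = true ∨ z.2.2.2 = false)) ∨
      (w = z.2.1 ∧ (ad fs z.1 z.2.1 = true ∨ z.2.2.2 = true))))

/-- Adjacency of gadget vertices. -/
def zad (fs : List Form) (z z' : LC × LC × ℕ × Bool) : Bool :=
  decide (z.1 = z'.1 ∧ z.2.1 = z'.2.1 ∧ z.2.2.1 = z'.2.2.1 ∧ ¬ z.2.2.2 = z'.2.2.2 ∧
    fre z.1 z.2.1 = false ∧ ¬ z.1 = z.2.1 ∧ ad fs z.1 z.2.1 = false)

/-- Adjacency of all codes. -/
def adF (fs : List Form) (x y : LF) : Bool :=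
  Sum.elim (fun u => Sum.elim (fun v => ad fs u v) (fun z => att fs u z) y)
    (fun z => Sum.elim (fun w => att fs w z) (fun z' => zad fs z z') y) x

/-- Adjacency, complemented if `b` is `true`. -/
def adB (fs : List Form) (b : Bool) (x y : LF) : Bool :=
  if b then (if x = y then false else !adF fs x y) else adF fs x y

/-- Valid codes of vertices of the core. -/
def valid (fs : List Form) (u : LC) : Bool :=
  decide ((u.1 = 0 ∧ u.2.2.1 < maxLen fs ∧ u.2.2.2.2 = false) ∨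
    (u.1 = 1 ∧ u.2.2.1 < maxLen fs) ∨
    (u.1 = 2 ∧ u.2.1 < 3 * fs.length + 4 ∧ u.2.2.2.1 < 2))

/-- The codes of the vertices of the core. -/
def vsC (fs : List Form) : List LC :=
  ((List.range 3) ×ˢ ((List.range (3 * fs.length + 5)) ×ˢ ((List.range (3 * maxLen fs + 1)) ×ˢ
    ((List.range 4) ×ˢ [false, true])))).filter (fun u => valid fs u)

/-- The codes of all vertices. -/
def vsF (fs : List Form) : List LF :=
  (vsC fs).map (fun u => Sum.inl u) ++
    ((vsC fs) ×ˢ ((vsC fs) ×ˢ ((List.range (budget fs + 1)) ×ˢ [false, true]))).map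
      (fun z => Sum.inr z)

/-- The instance. -/
def inst (b : Bool) (fs : List Form) : List (List Bool) × ℕ :=
  ((vsF fs).map (fun x => (vsF fs).map (fun y => adB fs b x y)), budget fs)

section
variable {α : Type} [TEnc α]

theorem poly_cl {fs : α → List Form} {s r : α → ℕ} (hf : Poly fs) (hs : Poly s) (hr : Poly r) :
    Poly (fun a => cl (fs a) (s a) (r a)) := by
  unfold cl
  fun_prop

theorem poly_litN {fs : α → List Form} {s r j : α → ℕ} (hf : Poly fs) (hs : Poly s) (hr : Poly r)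
    (hj : Poly j) : Poly (fun a => litN (fs a) (s a) (r a) (j a)) := by
  have h1 := poly_cl hf hs hr
  unfold litN
  fun_prop

theorem poly_ad1 {fs : α → List Form} {u v : α → LC} (hf : Poly fs) (hu : Poly u) (hv : Poly v) :
    Poly (fun a => ad1 (fs a) (u a) (v a)) := by
  have h1 : Poly (fun a => litN (fs a) (u a).2.1 (u a).2.2.1 (u a).2.2.2.1) :=
    poly_litN hf (by fun_prop) (by fun_prop) (by fun_prop)
  unfold ad1
  fun_prop

theorem poly_ad {fs : α → List Form} {u v : α → LC} (hf : Poly fs) (hu : Poly u) (hv : Poly v) :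
    Poly (fun a => ad (fs a) (u a) (v a)) := by
  have h1 := poly_ad1 hf hu hv
  have h2 := poly_ad1 hf hv hu
  unfold ad
  fun_prop

theorem poly_fre {u v : α → LC} (hu : Poly u) (hv : Poly v) :
    Poly (fun a => fre (u a) (v a)) := by
  unfold fre
  fun_prop

theorem poly_att {fs : α → List Form} {w : α → LC} {z : α → LC × LC × ℕ × Bool} (hf : Poly fs)
    (hw : Poly w) (hz : Poly z) : Poly (fun a => att (fs a) (w a) (z a)) := by
  have h1 : Poly (fun a => ad (fs a) (z a).1 (z a).2.1) :=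
    poly_ad hf (by fun_prop) (by fun_prop)
  have h2 : Poly (fun a => fre (z a).1 (z a).2.1) := poly_fre (by fun_prop) (by fun_prop)
  unfold att
  fun_prop

theorem poly_zad {fs : α → List Form} {z z' : α → LC × LC × ℕ × Bool} (hf : Poly fs)
    (hz : Poly z) (hz' : Poly z') : Poly (fun a => zad (fs a) (z a) (z' a)) := by
  have h1 : Poly (fun a => ad (fs a) (z a).1 (z a).2.1) :=
    poly_ad hf (by fun_prop) (by fun_prop)
  have h2 : Poly (fun a => fre (z a).1 (z a).2.1) := poly_fre (by fun_prop) (by fun_prop)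
  unfold zad
  fun_prop

theorem poly_adF {fs : α → List Form} {x y : α → LF} (hf : Poly fs)
    (hx : Poly x) (hy : Poly y) : Poly (fun a => adF (fs a) (x a) (y a)) := by
  unfold adF
  refine NPC.Poly.sumElim hx ?_ ?_
  · refine NPC.Poly.sumElim (hy.comp (NPC.Poly.fst NPC.Poly.id)) ?_ ?_
    · exact poly_ad (hf.comp (by fun_prop)) (by fun_prop) (by fun_prop)
    · exact poly_att (hf.comp (by fun_prop)) (by fun_prop) (by fun_prop)
  · refine NPC.Poly.sumElim (hy.comp (NPC.Poly.fst NPC.Poly.id)) ?_ ?_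
    · exact poly_att (hf.comp (by fun_prop)) (by fun_prop) (by fun_prop)
    · exact poly_zad (hf.comp (by fun_prop)) (by fun_prop) (by fun_prop)

theorem poly_adB {fs : α → List Form} (b : Bool) {x y : α → LF} (hf : Poly fs)
    (hx : Poly x) (hy : Poly y) : Poly (fun a => adB (fs a) b (x a) (y a)) := by
  have h1 := poly_adF hf hx hy
  cases b
  · exact h1
  · unfold adB
    simp only [if_true]
    fun_prop

theorem upoly_budget {fs : α → List Form} (hf : Poly fs) : UPoly (fun a => budget (fs a)) := by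
  have h1 : UPoly (fun a => maxLen (fs a)) := CK.upoly_maxLen hf
  have h2 : UPoly (fun a => (2 * (fs a).length).size) := CK.upoly_size (by fun_prop)
  unfold budget
  exact (h2.add (UPoly.const 2)).mul (((UPoly.const 14).mul h1).add (UPoly.const 2))

theorem poly_vsC {fs : α → List Form} (hf : Poly fs) : Poly (fun a => vsC (fs a)) := by
  have h1 : UPoly (fun a => maxLen (fs a)) := CK.upoly_maxLen hf
  have h2 : UPoly (fun a => (fs a).length) := UPoly.length hf
  have r1 : Poly (fun a => List.range (3 * (fs a).length + 5)) :=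
    (((UPoly.const 3).mul h2).add (UPoly.const 5)).range
  have r2 : Poly (fun a => List.range (3 * maxLen (fs a) + 1)) :=
    (((UPoly.const 3).mul h1).add (UPoly.const 1)).range
  have h3 : Poly (fun p : α × LC => valid (fs p.1) p.2) := by
    have h4 : Poly (fun p : α × LC => maxLen (fs p.1)) :=
      h1.toPoly.comp (NPC.Poly.fst NPC.Poly.id)
    unfold valid
    fun_prop
  unfold vsC
  fun_prop

theorem poly_vsF {fs : α → List Form} (hf : Poly fs) : Poly (fun a => vsF (fs a)) := by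
  have h1 := poly_vsC hf
  have r1 : Poly (fun a => List.range (budget (fs a) + 1)) :=
    ((upoly_budget hf).add (UPoly.const 1)).range
  unfold vsF
  fun_prop

theorem poly_inst (b : Bool) {fs : α → List Form} (hf : Poly fs) :
    Poly (fun a => inst b (fs a)) := by
  have h1 := poly_vsF hf
  have h2 : Poly (fun a => budget (fs a)) := (upoly_budget hf).toPoly
  have h3 : Poly (fun p : (α × LF) × LF => adB (fs p.1.1) b p.1.2 p.2) :=
    poly_adB b (hf.comp (by fun_prop)) (by fun_prop) (by fun_prop)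
  unfold inst
  refine NPC.Poly.pair ?_ h2
  refine NPC.Poly.map h1 ?_
  exact NPC.Poly.map (l := fun p : α × LF => vsF (fs p.1)) (h1.comp (NPC.Poly.fst NPC.Poly.id)) h3

end

end Pool.Agent.E8helper14.KE
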