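import Pool.Agent.E8helper14.KE.Pos
import Pool.Agent.E8helper14.KE.Incomp

/-!
# `{C₄, 2K₂}`-free editing has a (trivial) kernel
-/

set_option autoImplicit false

namespace Pool.Agent.E8helper14.KE

open Pool.Agent.NPC Pool.Agent.NPC.R671

/-- Five numbers. -/
abbrev F5 : Type := ℕ × ℕ × ℕ × ℕ × ℕ

/-- The five numbers are different. -/
def dis (c : F5) : Bool :=
  decide (c.1 ∉ [c.2.1, c.2.2.1, c.2.2.2.1, c.2.2.2.2] ∧ c.2.1 ∉ [c.2.2.1, c.2.2.2.1, c.2.2.2.2] ∧
    c.2.2.1 ∉ [c.2.2.2.1, c.2.2.2.2] ∧ ¬ c.2.2.2.1 = c.2.2.2.2)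

/-- The candidates. -/
def cands (n : ℕ) : List (List ℕ × List (ℕ × ℕ)) :=
  ([], []) :: (((List.range n) ×ˢ ((List.range n) ×ˢ ((List.range n) ×ˢ ((List.range n) ×ˢ
    (List.range n))))).filter dis).map (fun c =>
      ([c.1, c.2.1, c.2.2.1, c.2.2.2.1, c.2.2.2.2], [(c.1, c.2.1), (c.2.1, c.2.2.1),
        (c.2.2.1, c.2.2.2.1), (c.2.2.2.1, c.2.2.2.2), (c.2.2.2.2, c.1)]))

/-- The thresholds. -/
def thrs (n : ℕ) : List (Option ℕ) := none :: (List.range n).map some

/-- The test whether the instance is a yes-instance. -/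
def test (p : List (List Bool) × ℕ) : Bool :=
  (cands p.1.length).any fun c => (thrs p.1.length).any fun u =>
    decide (cost p.1.length (gg p.1) c.1 c.2 (thr p.1.length (gg p.1) c.1 u) ≤ p.2)

theorem mem_product' {α β : Type} {l : List α} {m : List β} {a : α} {b : β} :
    (a, b) ∈ l ×ˢ m ↔ a ∈ l ∧ b ∈ m := List.pair_mem_product

theorem mem_cands {n : ℕ} (C : List ℕ) (E : List (ℕ × ℕ)) : (C, E) ∈ cands n ↔ Cand n C E := by
  unfold cands Cand
  rw [List.mem_cons, List.mem_map, Prod.mk.injEq]
  refine or_congr Iff.rfl ?_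
  constructor
  · rintro ⟨⟨c0, c1, c2, c3, c4⟩, h1, h2⟩
    rw [List.mem_filter] at h1
    obtain ⟨h1, h3⟩ := h1
    rw [mem_product', mem_product', mem_product', mem_product'] at h1
    simp only [List.mem_range] at h1
    simp only [dis, decide_eq_true_eq, List.mem_cons, List.not_mem_nil, or_false, not_or] at h3
    rw [Prod.mk.injEq] at h2
    refine ⟨![c0, c1, c2, c3, c4], ?_, ?_, h2.1.symm, h2.2.symm⟩
    · intro i j hij
      obtain ⟨⟨a1, a2, a3, a4⟩, ⟨a5, a6, a7⟩, ⟨a8, a9⟩, a10⟩ := h3
      fin_cases i <;> fin_cases j <;>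
        first
        | rfl
        | exact absurd hij a1
        | exact absurd hij a2
        | exact absurd hij a3
        | exact absurd hij a4
        | exact absurd hij a5
        | exact absurd hij a6
        | exact absurd hij a7
        | exact absurd hij a8
        | exact absurd hij a9
        | exact absurd hij a10
        | exact absurd hij.symm a1
        | exact absurd hij.symm a2
        | exact absurd hij.symm a3
        | exact absurd hij.symm a4
        | exact absurd hij.symm a5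
        | exact absurd hij.symm a6
        | exact absurd hij.symm a7
        | exact absurd hij.symm a8
        | exact absurd hij.symm a9
        | exact absurd hij.symm a10
    · intro i
      obtain ⟨b0, b1, b2, b3, b4⟩ := h1
      fin_cases i
      · exact b0
      · exact b1
      · exact b2
      · exact b3
      · exact b4
  · rintro ⟨c, hc, hn, rfl, rfl⟩
    refine ⟨(c 0, c 1, c 2, c 3, c 4), ?_, rfl⟩
    rw [List.mem_filter]
    constructor
    · rw [mem_product', mem_product', mem_product', mem_product']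
      simp only [List.mem_range]
      exact ⟨hn 0, hn 1, hn 2, hn 3, hn 4⟩
    · simp only [dis, decide_eq_true_eq, List.mem_cons, List.not_mem_nil, or_false, not_or]
      have h : ∀ i j, i ≠ j → ¬ c i = c j := fun i j hij h => hij (hc h)
      refine ⟨⟨?_, ?_, ?_, ?_⟩, ⟨?_, ?_, ?_⟩, ⟨?_, ?_⟩, ?_⟩ <;> exact h _ _ (by decide)

theorem mem_thrs {n : ℕ} (u : Option ℕ) : u ∈ thrs n ↔ ∀ v ∈ u, v < n := by
  unfold thrs
  cases u with
  | none => simp
  | some v => simp

theorem test_iff {n : ℕ} (G : SimpleGraph (Fin n)) (k : ℕ) :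
    test (adjMatrix G, k) = true ↔ Yes Kind.editing [C4, twoK2] G k := by
  rw [pos_iff G (gg (adjMatrix G)) (gg_symm G) (gg_irrefl G) (gg_adj G)]
  have hn : (adjMatrix G).length = n := by simp [adjMatrix]
  unfold test
  rw [List.any_eq_true]
  simp only [hn, List.any_eq_true, decide_eq_true_eq]
  constructor
  · rintro ⟨⟨C, E⟩, h1, u, h2, h3⟩
    exact ⟨C, E, (mem_cands C E).1 h1, u, (mem_thrs u).1 h2, h3⟩
  · rintro ⟨C, E, h1, u, h2, h3⟩
    exact ⟨(C, E), (mem_cands C E).2 h1, u, (mem_thrs u).2 h2, h3⟩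

section
variable {α : Type} [TEnc α]

theorem poly_gg {M : α → List (List Bool)} {i j : α → ℕ} (hM : Poly M) (hi : Poly i)
    (hj : Poly j) : Poly (fun a => gg (M a) (i a) (j a)) := by
  unfold gg
  fun_prop

theorem poly_wt {M : α → List (List Bool)} {C : α → List ℕ} {j : α → ℕ} (hM : Poly M)
    (hC : Poly C) (hj : Poly j) : Poly (fun a => wt (M a).length (gg (M a)) (C a) (j a)) := by
  have hr : Poly (fun a => List.range (M a).length) := (UPoly.length hM).range
  have h1 : Poly (fun p : α × ℕ => gg (M p.1) p.2 (j p.1)) :=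
    poly_gg (hM.comp (by fun_prop)) (by fun_prop) (hj.comp (by fun_prop))
  unfold wt
  fun_prop

theorem poly_key {M : α → List (List Bool)} {C : α → List ℕ} {j : α → ℕ} (hM : Poly M)
    (hC : Poly C) (hj : Poly j) : Poly (fun a => key (M a).length (gg (M a)) (C a) (j a)) := by
  have h1 := poly_wt hM hC hj
  unfold key
  fun_prop

theorem poly_thr {M : α → List (List Bool)} {C : α → List ℕ} {u : α → Option ℕ} {j : α → ℕ}
    (hM : Poly M) (hC : Poly C) (hu : Poly u) (hj : Poly j) :
    Poly (fun a => thr (M a).length (gg (M a)) (C a) (u a) (j a)) := by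
  have h1 : Poly (fun p : α × ℕ => key (M p.1).length (gg (M p.1)) (C p.1) p.2) :=
    poly_key (hM.comp (by fun_prop)) (hC.comp (by fun_prop)) (by fun_prop)
  have h2 : Poly (fun p : α × ℕ => key (M p.1).length (gg (M p.1)) (C p.1) (j p.1)) :=
    poly_key (hM.comp (by fun_prop)) (hC.comp (by fun_prop)) (hj.comp (by fun_prop))
  unfold thr
  exact NPC.Poly.optElim hu (NPC.Poly.const false) (NPC.Poly.decide_le h1 h2)

theorem poly_vio {g ci cj e qi qj : α → Bool} (h1 : Poly g) (h2 : Poly ci) (h3 : Poly cj)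
    (h4 : Poly e) (h5 : Poly qi) (h6 : Poly qj) :
    Poly (fun a => vio (g a) (ci a) (cj a) (e a) (qi a) (qj a)) := by
  unfold vio
  fun_prop

theorem poly_cost {M : α → List (List Bool)} {C : α → List ℕ} {E : α → List (ℕ × ℕ)}
    {u : α → Option ℕ} (hM : Poly M) (hC : Poly C) (hE : Poly E) (hu : Poly u) :
    Poly (fun a => cost (M a).length (gg (M a)) (C a) (E a)
      (thr (M a).length (gg (M a)) (C a) (u a))) := by
  have hr : Poly (fun a => List.range (M a).length) := (UPoly.length hM).range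
  have h1 : Poly (fun p : α × ℕ × ℕ => gg (M p.1) p.2.1 p.2.2) :=
    poly_gg (hM.comp (by fun_prop)) (by fun_prop) (by fun_prop)
  have h2 : Poly (fun p : α × ℕ × ℕ => thr (M p.1).length (gg (M p.1)) (C p.1) (u p.1) p.2.1) :=
    poly_thr (hM.comp (by fun_prop)) (hC.comp (by fun_prop)) (hu.comp (by fun_prop)) (by fun_prop)
  have h3 : Poly (fun p : α × ℕ × ℕ => thr (M p.1).length (gg (M p.1)) (C p.1) (u p.1) p.2.2) :=
    poly_thr (hM.comp (by fun_prop)) (hC.comp (by fun_prop)) (hu.comp (by fun_prop)) (by fun_prop)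
  have h4 : Poly (fun p : α × ℕ × ℕ => viol (gg (M p.1)) (C p.1) (E p.1)
      (thr (M p.1).length (gg (M p.1)) (C p.1) (u p.1)) p.2.1 p.2.2) := by
    unfold viol
    exact poly_vio h1 (by fun_prop) (by fun_prop) (by fun_prop) h2 h3
  unfold cost
  fun_prop

theorem poly_cands {M : α → List (List Bool)} (hM : Poly M) :
    Poly (fun a => cands (M a).length) := by
  have hr : Poly (fun a => List.range (M a).length) := (UPoly.length hM).range
  have h1 : Poly (fun p : α × F5 => dis p.2) := by
    unfold dis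
    fun_prop
  unfold cands
  fun_prop

theorem poly_thrs {M : α → List (List Bool)} (hM : Poly M) :
    Poly (fun a => thrs (M a).length) := by
  have hr : Poly (fun a => List.range (M a).length) := (UPoly.length hM).range
  unfold thrs
  fun_prop

end

theorem poly_test : Poly test := by
  have h1 : Poly (fun p : List (List Bool) × ℕ => p.1) := by fun_prop
  have h2 := poly_cands h1
  have h3 := poly_thrs h1
  have h4 : Poly (fun q : ((List (List Bool) × ℕ) × (List ℕ × List (ℕ × ℕ))) × Option ℕ =>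
      cost q.1.1.1.length (gg q.1.1.1) q.1.2.1 q.1.2.2
        (thr q.1.1.1.length (gg q.1.1.1) q.1.2.1 q.2)) :=
    poly_cost (by fun_prop) (by fun_prop) (by fun_prop) (by fun_prop)
  unfold test
  refine NPC.Poly.any h2 ?_
  refine NPC.Poly.any (l := fun q : (List (List Bool) × ℕ) × (List ℕ × List (ℕ × ℕ)) =>
    thrs q.1.1.length) (h3.comp (NPC.Poly.fst NPC.Poly.id)) ?_
  exact NPC.Poly.decide_le h4 (by fun_prop)

theorem yes_empty : Yes Kind.editing [C4, twoK2] (⊥ : SimpleGraph (Fin 0)) 0 := by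
  refine ⟨⊥, trivial, ?_, by simp⟩
  intro H hH
  simp only [List.mem_cons, List.not_mem_nil, or_false] at hH
  rcases hH with rfl | rfl
  · exact ⟨fun f => (f (0 : Fin 4)).elim0⟩
  · exact ⟨fun f => (f (0 : Fin 4)).elim0⟩

theorem not_yes_cycle : ¬ Yes Kind.editing [C4, twoK2] (SimpleGraph.cycleGraph 4) 0 := by
  rintro ⟨G', -, h1, h2⟩
  have h3 : symmDiff (SimpleGraph.cycleGraph 4).edgeSet G'.edgeSet = ∅ := by
    rw [← Set.ncard_eq_zero (Set.toFinite _)]
    omega
  have h4 : (SimpleGraph.cycleGraph 4).edgeSet = G'.edgeSet := by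
    have := symmDiff_eq_bot.1 h3
    exact this
  have h5 : SimpleGraph.cycleGraph 4 = G' := SimpleGraph.edgeSet_inj.1 h4
  rw [← h5] at h1
  exact (h1 C4 (by simp)).false (SimpleGraph.Embedding.refl)

/-- `{C₄, 2K₂}`-free editing has a polynomial kernel. -/
theorem kernel : HasPolyKernel Kind.editing [C4, twoK2] := by
  let cy : List (List Bool) × ℕ := (adjMatrix (⊥ : SimpleGraph (Fin 0)), 0)
  let cn : List (List Bool) × ℕ := (adjMatrix (SimpleGraph.cycleGraph 4), 0)
  let K : List Bool → List (List Bool) × ℕ := fun x =>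
    (unbits (List (List Bool) × ℕ) x).elim ([], 0) fun p => if test p = true then cy else cn
  have hK : NPC.Poly K := by
    refine NPC.Poly.optElim poly_unbits (NPC.Poly.const _) ?_
    have h1 : NPC.Poly (fun p : List Bool × (List (List Bool) × ℕ) =>
        cond (test p.2) cy cn) :=
      NPC.Poly.cond (poly_test.comp (NPC.Poly.snd NPC.Poly.id)) (NPC.Poly.const _)
        (NPC.Poly.const _)
    refine h1.congr fun p => ?_
    cases test p.2 <;> simp
  refine ⟨fun x => bits (K x), Polynomial.C ((bits cy).length + (bits cn).length),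
    polyTime_bits hK, ?_⟩
  intro n k G
  have hcode : K (code G k) = if test (adjMatrix G, k) = true then cy else cn := by
    show (unbits (List (List Bool) × ℕ) (bits (adjMatrix G, k))).elim ([], 0) _ = _
    rw [unbits_bits]
    rfl
  show ∃ (n' k' : ℕ) (G' : SimpleGraph (Fin n')), bits (K (code G k)) = _ ∧ _
  rw [hcode]
  by_cases h : Yes Kind.editing [C4, twoK2] G k
  · rw [if_pos ((test_iff G k).2 h)]
    refine ⟨0, 0, ⊥, rfl, iff_of_true h yes_empty, ?_⟩
    rw [Polynomial.eval_C]
    exact Nat.le_add_right _ _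
  · rw [if_neg (fun h' => h ((test_iff G k).1 h'))]
    refine ⟨4, 0, SimpleGraph.cycleGraph 4, rfl, iff_of_false h not_yes_cycle, ?_⟩
    rw [Polynomial.eval_C]
    exact Nat.le_add_left _ _

end Pool.Agent.E8helper14.KE
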