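import Pool.Agent.E8helper14.KE.Gr
import Pool.Agent.E8helper14.KE.Inst

/-!
# The instances: correctness
-/

set_option autoImplicit false

namespace Pool.Agent.E8helper14.KE

open Pool.Agent.NPC Pool.Agent.NPC.R671
open Pool.Agent.CK (Form maxLen)

variable {fs : List Form}

/-- The code of a vertex of the core. -/
def cc : CV (II fs) (XX fs) → LC
  | CV.q c j => (0, c.1, c.2, j, false)
  | CV.f c j s => (1, c.1, c.2, j, s)
  | CV.p x t s => (2, x.1, x.2, (if t then 1 else 0), s)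

theorem cc_inj : Function.Injective (cc (fs := fs)) := by
  rintro (⟨⟨c, r⟩, j⟩ | ⟨⟨c, r⟩, j, s⟩ | ⟨⟨c, r⟩, t, s⟩) (⟨⟨c', r'⟩, j'⟩ | ⟨⟨c', r'⟩, j', s'⟩ | ⟨⟨c', r'⟩, t', s'⟩) h <;>
    simp only [cc, Prod.mk.injEq] at h
  · obtain ⟨-, h1, h2, h3, -⟩ := h
    rw [Fin.ext h1, Fin.ext h2, Fin.ext h3]
  · omega
  · omega
  · omega
  · obtain ⟨-, h1, h2, h3, rfl⟩ := h
    rw [Fin.ext h1, Fin.ext h2, Fin.ext h3]
  · omega
  · omega
  · omega
  · obtain ⟨-, h1, h2, h3, rfl⟩ := h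
    have : t = t' := by
      cases t <;> cases t' <;> simp_all
    rw [Fin.ext h1, Fin.ext h2, this]

theorem mem_vsC (z : LC) : z ∈ vsC fs ↔ ∃ x : CV (II fs) (XX fs), cc x = z := by
  obtain ⟨k, a, b, e, s⟩ := z
  have hL := one_le_maxLen fs
  constructor
  · intro h
    unfold vsC valid at h
    simp only [List.mem_filter, List.mem_product, List.mem_range, List.mem_cons,
      decide_eq_true_eq, List.not_mem_nil, or_false] at h
    obtain ⟨⟨-, h2, h3, h4, -⟩, h6⟩ := h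
    rcases h6 with ⟨rfl, h7, rfl⟩ | ⟨rfl, h7⟩ | ⟨rfl, h7, h8⟩
    · exact ⟨CV.q (⟨a, h2⟩, ⟨b, h7⟩) ⟨e, h4⟩, rfl⟩
    · exact ⟨CV.f (⟨a, h2⟩, ⟨b, h7⟩) ⟨e, h4⟩ s, rfl⟩
    · refine ⟨CV.p (⟨a, h7⟩, ⟨b, h3⟩) (decide (e = 1)) s, ?_⟩
      have : e = 0 ∨ e = 1 := by omega
      rcases this with rfl | rfl <;> rfl
  · rintro ⟨x, hx⟩
    rw [← hx]
    have e0 : vsC fs = ((List.range 3) ×ˢ ((List.range (3 * fs.length + 5)) ×ˢ
      ((List.range (3 * maxLen fs + 1)) ×ˢ ((List.range 4) ×ˢ [false, true])))).filter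
        (fun u => valid fs u) := rfl
    rw [e0, List.mem_filter]
    rcases x with ⟨⟨c, r⟩, j⟩ | ⟨⟨c, r⟩, j, s⟩ | ⟨⟨c, r⟩, t, s⟩
    · have h1 := c.2
      have h2 := r.2
      have h3 := j.2
      constructor
      · simp only [cc, List.mem_product, List.mem_range]
        exact ⟨by omega, by omega, by omega, by omega, by simp⟩
      · unfold valid
        rw [decide_eq_true_eq]
        exact Or.inl ⟨rfl, h2, rfl⟩
    · have h1 := c.2
      have h2 := r.2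
      have h3 := j.2
      constructor
      · simp only [cc, List.mem_product, List.mem_range]
        exact ⟨by omega, by omega, by omega, by omega, by cases s <;> simp⟩
      · unfold valid
        rw [decide_eq_true_eq]
        exact Or.inr (Or.inl ⟨rfl, h2⟩)
    · have h1 := c.2
      have h2 := r.2
      constructor
      · simp only [cc, List.mem_product, List.mem_range]
        exact ⟨by omega, by omega, by omega, by split_ifs <;> omega, by cases s <;> simp⟩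
      · unfold valid
        rw [decide_eq_true_eq]
        refine Or.inr (Or.inr ⟨rfl, h1, ?_⟩)
        show (if t then 1 else 0) < 2
        split_ifs <;> omega

theorem nodup_vsC : (vsC fs).Nodup := by
  unfold vsC
  refine List.Nodup.filter _ ?_
  refine List.Nodup.product List.nodup_range ?_
  refine List.Nodup.product List.nodup_range ?_
  refine List.Nodup.product List.nodup_range ?_
  exact List.Nodup.product List.nodup_range (by simp)

theorem fin4_succ (j j' : Fin 4) : (j' : ℕ) = ((j : ℕ) + 1) % 4 ↔ j' = j + 1 := by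
  revert j j'
  decide

theorem fre_cc (x y : CV (II fs) (XX fs)) : fre (cc x) (cc y) = true ↔ CFree x y := by
  unfold fre
  rw [decide_eq_true_eq]
  rcases x with ⟨⟨c, r⟩, j⟩ | ⟨⟨c, r⟩, j, s⟩ | ⟨⟨c, r⟩, t, s⟩ <;>
    rcases y with ⟨⟨c', r'⟩, j'⟩ | ⟨⟨c', r'⟩, j', s'⟩ | ⟨⟨c', r'⟩, t', s'⟩ <;>
    simp only [cc, CFree, Prod.mk.injEq]
  · rw [← fin4_succ j j', ← fin4_succ j' j]
    constructor
    · rintro ⟨-, h1, h2, ⟨-, h3⟩ | ⟨h3, -⟩⟩
      · exact ⟨⟨Fin.ext h1, Fin.ext h2⟩, h3⟩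
      · exact absurd trivial h3
    · rintro ⟨⟨rfl, rfl⟩, h3⟩
      exact ⟨trivial, rfl, rfl, Or.inl ⟨trivial, h3⟩⟩
  · simp
  · simp
  · simp
  · constructor
    · rintro ⟨-, h1, h2, ⟨h3, -⟩ | ⟨-, h3⟩⟩
      · omega
      · exact ⟨⟨Fin.ext h1, Fin.ext h2⟩, Fin.ext h3⟩
    · rintro ⟨⟨rfl, rfl⟩, rfl⟩
      exact ⟨trivial, rfl, rfl, Or.inr ⟨by omega, rfl⟩⟩
  · simp
  · simp
  · simp
  · constructor
    · rintro ⟨-, h1, h2, ⟨h3, -⟩ | ⟨-, h3⟩⟩
      · omega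
      · refine ⟨⟨Fin.ext h1, Fin.ext h2⟩, ?_⟩
        cases t <;> cases t' <;> simp_all
    · rintro ⟨⟨rfl, rfl⟩, rfl⟩
      exact ⟨trivial, rfl, rfl, Or.inr ⟨by omega, rfl⟩⟩

/-- One direction of adjacency in the core. -/
def A1 (h : Prom fs) : CV (II fs) (XX fs) → CV (II fs) (XX fs) → Prop
  | CV.q c j, CV.q c' j' => c = c' ∧ j' = j + 1 ∧ (lit h c j).1 = true
  | CV.q c j, CV.f c' j' _ => c = c' ∧ (j = j' ∨ j = j' + 1)
  | CV.f c j s, CV.f c' j' s' => c = c' ∧ j = j' ∧ s ≠ s' ∧ (lit h c j).1 = false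
  | CV.f c j s, CV.p x t s' => lit h c j = (t, x) ∧ s = s'
  | CV.p x t s, CV.p x' t' s' => x = x' ∧ ((t = t' ∧ s ≠ s' ∧ t = true) ∨ t ≠ t')
  | _, _ => False

theorem A1_iff (h : Prom fs) (x y : CV (II fs) (XX fs)) :
    (core (lit h) (fun _ => false)).Adj x y ↔ A1 h x y ∨ A1 h y x := by
  show CAdj (lit h) (fun _ => false) x y ↔ _
  rcases x with ⟨c, j⟩ | ⟨c, j, s⟩ | ⟨c, t, s⟩ <;>
    rcases y with ⟨c', j'⟩ | ⟨c', j', s'⟩ | ⟨c', t', s'⟩ <;>
    simp only [CAdj, A1, Tr]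
  · constructor
    · rintro ⟨rfl, ⟨h1, h2⟩ | ⟨h1, h2⟩⟩
      · exact Or.inl ⟨rfl, h1, by simpa using h2⟩
      · exact Or.inr ⟨rfl, h1, by simpa using h2⟩
    · rintro (⟨rfl, h1, h2⟩ | ⟨rfl, h1, h2⟩)
      · exact ⟨rfl, Or.inl ⟨h1, by simp [h2]⟩⟩
      · exact ⟨rfl, Or.inr ⟨h1, by simp [h2]⟩⟩
  · simp
  · simp
  · constructor
    · exact fun h => Or.inr h
    · rintro (h | h)
      · exact h.elim
      · exact h
  · constructor
    · rintro ⟨rfl, rfl, h1, h2⟩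
      exact Or.inl ⟨rfl, rfl, h1, h2.symm⟩
    · rintro (⟨rfl, rfl, h1, h2⟩ | ⟨rfl, rfl, h1, h2⟩)
      · exact ⟨rfl, rfl, h1, h2.symm⟩
      · exact ⟨rfl, rfl, h1.symm, h2.symm⟩
  · simp
  · simp
  · constructor
    · exact fun h => Or.inr h
    · rintro (h | h)
      · exact h.elim
      · exact h
  · constructor
    · rintro ⟨rfl, ⟨rfl, h1, h2⟩ | h1⟩
      · exact Or.inl ⟨rfl, Or.inl ⟨rfl, h1, by simpa using h2.symm⟩⟩
      · exact Or.inl ⟨rfl, Or.inr h1⟩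
    · rintro (⟨rfl, ⟨rfl, h1, h2⟩ | h1⟩ | ⟨rfl, ⟨rfl, h1, h2⟩ | h1⟩)
      · exact ⟨rfl, Or.inl ⟨rfl, h1, by simp [h2]⟩⟩
      · exact ⟨rfl, Or.inr h1⟩
      · exact ⟨rfl, Or.inl ⟨rfl, h1.symm, by simp [h2]⟩⟩
      · exact ⟨rfl, Or.inr h1.symm⟩

theorem lit_eq_iff (h : Prom fs) (c : II fs) (j : Fin 4) (t : Bool) (x : XX fs) :
    litN fs c.1 c.2 j = (decide ((if t then 1 else 0) = 1), (x.1 : ℕ), (x.2 : ℕ)) ↔
      lit h c j = (t, x) := by
  obtain ⟨x1, x2⟩ := x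
  unfold lit
  constructor
  · intro he
    simp only [he]
    cases t <;> simp
  · intro he
    simp only [Prod.mk.injEq] at he
    obtain ⟨h1, h2, h3⟩ := he
    have h2' := congrArg Fin.val h2
    have h3' := congrArg Fin.val h3
    refine Prod.ext ?_ (Prod.ext h2' h3')
    rw [h1]
    cases t <;> simp

theorem ad1_cc (h : Prom fs) (x y : CV (II fs) (XX fs)) :
    ad1 fs (cc x) (cc y) = true ↔ A1 h x y := by
  unfold ad1
  simp only [Bool.or_eq_true, decide_eq_true_eq]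
  rcases x with ⟨⟨c, r⟩, j⟩ | ⟨⟨c, r⟩, j, s⟩ | ⟨⟨c, r⟩, t, s⟩ <;>
    rcases y with ⟨⟨c', r'⟩, j'⟩ | ⟨⟨c', r'⟩, j', s'⟩ | ⟨⟨c', r'⟩, t', s'⟩
  · simp only [cc, A1, Prod.mk.injEq]
    rw [← fin4_succ j j']
    constructor
    · rintro (⟨-, -, h1, h2, h3, h4⟩ | ⟨-, h1, -⟩ | ⟨h1, -⟩ | ⟨h1, -⟩ | ⟨h1, -⟩)
      · exact ⟨⟨Fin.ext h1, Fin.ext h2⟩, h3, h4⟩
      all_goals omega
    · rintro ⟨⟨rfl, rfl⟩, h3, h4⟩
      exact Or.inl ⟨trivial, trivial, rfl, rfl, h3, h4⟩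
  · simp only [cc, A1, Prod.mk.injEq]
    rw [← fin4_succ j' j]
    constructor
    · rintro (⟨-, h1, -⟩ | ⟨-, -, h1, h2, h3⟩ | ⟨h1, -⟩ | ⟨h1, -⟩ | ⟨h1, -⟩)
      · omega
      · refine ⟨⟨Fin.ext h1, Fin.ext h2⟩, ?_⟩
        rcases h3 with h3 | h3
        · exact Or.inl (Fin.ext h3)
        · exact Or.inr h3
      all_goals omega
    · rintro ⟨⟨rfl, rfl⟩, h3⟩
      refine Or.inr (Or.inl ⟨trivial, trivial, rfl, rfl, ?_⟩)
      rcases h3 with h3 | h3
      · exact Or.inl (by rw [h3])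
      · exact Or.inr h3
  · simp only [cc, A1]
    constructor
    · rintro (⟨-, h1, -⟩ | ⟨-, h1, -⟩ | ⟨h1, -⟩ | ⟨h1, -⟩ | ⟨h1, -⟩) <;> omega
    · exact fun h => h.elim
  · simp only [cc, A1]
    constructor
    · rintro (⟨h1, -⟩ | ⟨h1, -⟩ | ⟨-, h1, -⟩ | ⟨-, h1, -⟩ | ⟨h1, -⟩) <;> omega
    · exact fun h => h.elim
  · simp only [cc, A1, Prod.mk.injEq]
    constructor
    · rintro (⟨h1, -⟩ | ⟨h1, -⟩ | ⟨-, -, h1, h2, h3, h4, h5⟩ | ⟨-, h1, -⟩ | ⟨h1, -⟩)
      · omega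
      · omega
      · exact ⟨⟨Fin.ext h1, Fin.ext h2⟩, Fin.ext h3, h4, h5⟩
      · omega
      · omega
    · rintro ⟨⟨rfl, rfl⟩, rfl, h4, h5⟩
      exact Or.inr (Or.inr (Or.inl ⟨trivial, trivial, rfl, rfl, rfl, h4, h5⟩))
  · simp only [cc, A1]
    rw [← lit_eq_iff]
    constructor
    · rintro (⟨h1, -⟩ | ⟨h1, -⟩ | ⟨-, h1, -⟩ | ⟨-, -, h1, h2⟩ | ⟨h1, -⟩)
      · omega
      · omega
      · omega
      · exact ⟨h1, h2⟩
      · omega
    · rintro ⟨h1, h2⟩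
      exact Or.inr (Or.inr (Or.inr (Or.inl ⟨trivial, trivial, h1, h2⟩)))
  · simp only [cc, A1]
    constructor
    · rintro (⟨h1, -⟩ | ⟨h1, -⟩ | ⟨h1, -⟩ | ⟨h1, -⟩ | ⟨-, h1, -⟩) <;> omega
    · exact fun h => h.elim
  · simp only [cc, A1]
    constructor
    · rintro (⟨h1, -⟩ | ⟨h1, -⟩ | ⟨h1, -⟩ | ⟨h1, -⟩ | ⟨-, h1, -⟩) <;> omega
    · exact fun h => h.elim
  · simp only [cc, A1, Prod.mk.injEq]
    constructor
    · rintro (⟨h1, -⟩ | ⟨h1, -⟩ | ⟨h1, -⟩ | ⟨h1, -⟩ | ⟨-, -, h1, h2, h3⟩)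
      · omega
      · omega
      · omega
      · omega
      · refine ⟨⟨Fin.ext h1, Fin.ext h2⟩, ?_⟩
        cases t <;> cases t' <;> simp_all
    · rintro ⟨⟨rfl, rfl⟩, h3⟩
      refine Or.inr (Or.inr (Or.inr (Or.inr ⟨trivial, trivial, rfl, rfl, ?_⟩)))
      cases t <;> cases t' <;> simp_all

theorem ad_cc (h : Prom fs) (x y : CV (II fs) (XX fs)) :
    ad fs (cc x) (cc y) = true ↔ (core (lit h) (fun _ => false)).Adj x y := by
  unfold ad
  rw [Bool.or_eq_true, ad1_cc h, ad1_cc h, A1_iff]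

/-- The code of a vertex. -/
def cF {k : ℕ} : CV (II fs) (XX fs) ⊕ Z (CV (II fs) (XX fs)) k → LF
  | Sum.inl u => Sum.inl (cc u)
  | Sum.inr z => Sum.inr (cc z.1, cc z.2.1, z.2.2.1, z.2.2.2)

theorem cF_inj {k : ℕ} : Function.Injective (cF (fs := fs) (k := k)) := by
  rintro (u | ⟨u, v, i, s⟩) (u' | ⟨u', v', i', s'⟩) h
  · simp only [cF, Sum.inl.injEq] at h
    rw [cc_inj h]
  · simp [cF] at h
  · simp [cF] at h
  · simp only [cF, Sum.inr.injEq, Prod.mk.injEq] at h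
    obtain ⟨h1, h2, h3, h4⟩ := h
    rw [cc_inj h1, cc_inj h2, Fin.ext h3, h4]

theorem mem_vsF (z : LF) :
    z ∈ vsF fs ↔ ∃ x : CV (II fs) (XX fs) ⊕ Z (CV (II fs) (XX fs)) (budget fs), cF x = z := by
  unfold vsF
  rw [List.mem_append, List.mem_map, List.mem_map]
  constructor
  · rintro (⟨u, hu, rfl⟩ | ⟨⟨u, v, i, s⟩, hz, rfl⟩)
    · obtain ⟨x, rfl⟩ := (mem_vsC u).1 hu
      exact ⟨Sum.inl x, rfl⟩
    · simp only [List.mem_product, List.mem_range] at hz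
      obtain ⟨h1, h2, h3, -⟩ := hz
      obtain ⟨x, rfl⟩ := (mem_vsC u).1 h1
      obtain ⟨y, rfl⟩ := (mem_vsC v).1 h2
      exact ⟨Sum.inr (x, y, ⟨i, h3⟩, s), rfl⟩
  · rintro ⟨x | ⟨x, y, i, s⟩, rfl⟩
    · exact Or.inl ⟨cc x, (mem_vsC _).2 ⟨x, rfl⟩, rfl⟩
    · refine Or.inr ⟨(cc x, cc y, i, s), ?_, rfl⟩
      simp only [List.mem_product, List.mem_range]
      exact ⟨(mem_vsC _).2 ⟨x, rfl⟩, (mem_vsC _).2 ⟨y, rfl⟩, i.2, by cases s <;> simp⟩

theorem nodup_vsF : (vsF fs).Nodup := by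
  unfold vsF
  refine List.Nodup.append ?_ ?_ ?_
  · exact nodup_vsC.map Sum.inl_injective
  · refine List.Nodup.map Sum.inr_injective ?_
    refine List.Nodup.product nodup_vsC ?_
    refine List.Nodup.product nodup_vsC ?_
    exact List.Nodup.product List.nodup_range (by simp)
  · intro a h1 h2
    rw [List.mem_map] at h1 h2
    obtain ⟨u, -, rfl⟩ := h1
    obtain ⟨z, -, hz⟩ := h2
    simp at hz

/-- The graph of the instance. -/
noncomputable def GG (h : Prom fs) :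
    SimpleGraph (CV (II fs) (XX fs) ⊕ Z (CV (II fs) (XX fs)) (budget fs)) :=
  ext (core (lit h) (fun _ => false)) (fun u v => ¬ CFree u v) (budget fs)
    (core (lit h) (fun _ => false))

theorem fre_cc_false (x y : CV (II fs) (XX fs)) : fre (cc x) (cc y) = false ↔ ¬ CFree x y := by
  rw [← fre_cc, Bool.not_eq_true]

theorem att_cc (h : Prom fs) (w : CV (II fs) (XX fs))
    (z : Z (CV (II fs) (XX fs)) (budget fs)) :
    att fs (cc w) (cc z.1, cc z.2.1, z.2.2.1, z.2.2.2) = true ↔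
      Att (core (lit h) (fun _ => false)) (fun u v => ¬ CFree u v) w z := by
  unfold att Att
  rw [decide_eq_true_eq]
  simp only [fre_cc_false, ad_cc h, cc_inj.eq_iff, ne_eq]
  tauto

theorem zad_cc (h : Prom fs) (z z' : Z (CV (II fs) (XX fs)) (budget fs)) :
    zad fs (cc z.1, cc z.2.1, z.2.2.1, z.2.2.2) (cc z'.1, cc z'.2.1, z'.2.2.1, z'.2.2.2) = true ↔
      ZAdj (core (lit h) (fun _ => false)) (fun u v => ¬ CFree u v) z z' := by
  unfold zad ZAdj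
  rw [decide_eq_true_eq]
  have h1 : ad fs (cc z.1) (cc z.2.1) = false ↔
      ¬ (core (lit h) (fun _ => false)).Adj z.1 z.2.1 := by
    rw [← ad_cc h, Bool.not_eq_true]
  simp only [fre_cc_false, h1, cc_inj.eq_iff, ne_eq, Fin.val_inj]

theorem adF_cF (h : Prom fs) (x y : CV (II fs) (XX fs) ⊕ Z (CV (II fs) (XX fs)) (budget fs)) :
    adF fs (cF x) (cF y) = true ↔ (GG h).Adj x y := by
  rcases x with u | z <;> rcases y with v | z'
  · exact ad_cc h u v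
  · exact att_cc h u z'
  · exact att_cc h v z
  · exact zad_cc h z z'

theorem ad1_irrefl (fs : List Form) (u : LC) : ad1 fs u u = false := by
  obtain ⟨k, a, b, e, s⟩ := u
  unfold ad1
  simp only [Bool.or_eq_false_iff, decide_eq_false_iff_not]
  refine ⟨?_, ?_, ?_, ?_, ?_⟩
  · rintro ⟨-, -, -, -, h1, -⟩
    omega
  · rintro ⟨h1, h2, -⟩
    omega
  · rintro ⟨-, -, -, -, -, h1, -⟩
    exact h1 trivial
  · rintro ⟨h1, h2, -⟩
    omega
  · rintro ⟨-, -, -, -, ⟨-, h1, -⟩ | h1⟩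
    · exact h1 trivial
    · exact h1 trivial

theorem adF_irrefl (fs : List Form) (x : LF) : adF fs x x = false := by
  rcases x with u | z
  · show ad fs u u = false
    unfold ad
    rw [ad1_irrefl]
    rfl
  · show zad fs z z = false
    unfold zad
    rw [decide_eq_false_iff_not]
    rintro ⟨-, -, -, h, -⟩
    exact h rfl

theorem adF_symm (fs : List Form) (x y : LF) : adF fs x y = adF fs y x := by
  rcases x with u | z <;> rcases y with v | z'
  · show ad fs u v = ad fs v u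
    unfold ad
    rw [Bool.or_comm]
  · rfl
  · rfl
  · show zad fs z z' = zad fs z' z
    unfold zad
    congr 1
    obtain ⟨u, v, i, s⟩ := z
    obtain ⟨u', v', i', s'⟩ := z'
    refine propext ⟨?_, ?_⟩
    · rintro ⟨h1, h2, h3, h4, h5, h6, h7⟩
      simp only at h1 h2 h3 h4 h5 h6 h7 ⊢
      subst h1 h2 h3
      exact ⟨rfl, rfl, rfl, fun h => h4 h.symm, h5, h6, h7⟩
    · rintro ⟨h1, h2, h3, h4, h5, h6, h7⟩
      simp only at h1 h2 h3 h4 h5 h6 h7 ⊢
      subst h1 h2 h3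
      exact ⟨rfl, rfl, rfl, fun h => h4 h.symm, h5, h6, h7⟩

theorem adB_irrefl (fs : List Form) (b : Bool) (x : LF) : adB fs b x x = false := by
  cases b
  · exact adF_irrefl fs x
  · simp [adB]

theorem adB_symm (fs : List Form) (b : Bool) (x y : LF) : adB fs b x y = adB fs b y x := by
  cases b
  · exact adF_symm fs x y
  · simp only [adB, if_true]
    rw [adF_symm]
    by_cases h : x = y
    · rw [if_pos h, if_pos h.symm]
    · rw [if_neg h, if_neg (Ne.symm h)]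

/-- Editing the graph of the instance. -/
theorem ed_GG (h : Prom fs) : Ed (GG h) (budget fs) ↔ ∃ φ ∈ fs, SAT3 φ := by
  have h1 := frozen_iff (core (lit h) (fun _ => false)) (fun u v => ¬ CFree u v) (budget fs)
  unfold Ed GG
  rw [h1]
  constructor
  · rintro ⟨H, h4, h5, -⟩
    obtain ⟨τ, hτ⟩ := core_sound h4 h5
    exact tree_sound h τ hτ
  · rintro ⟨φ, hφ, hs⟩
    obtain ⟨τ, J, Y, h2, h3, h4, h5⟩ := tree_complete h hφ hs
    refine ⟨core (lit h) τ, core_noC4 (lit_inj h) h2, ?_, ?_⟩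
    · intro u v hne hf
      exact core_agree (lit h) τ (fun _ => false) u v hne hf
    · exact (core_ncard (lit h) τ J Y h3 h4).trans h5

/-- The excluded graph. -/
def ex (b : Bool) : FinGraph := if b then twoK2 else C4

/-- **Correctness of the instances.** -/
theorem inst_iff (b : Bool) (h : Prom fs) :
    ∃ (n : ℕ) (G : SimpleGraph (Fin n)), adjMatrix G = (inst b fs).1 ∧
      (Yes Kind.editing [ex b] G (inst b fs).2 ↔ ∃ φ ∈ fs, SAT3 φ) := by
  obtain ⟨e, he⟩ := exists_equiv (vsF fs) nodup_vsF (cF (fs := fs) (k := budget fs)) cF_inj mem_vsF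
  have key : ∀ i j, (listGraph (vsF fs) (adF fs) (adF_symm fs) (adF_irrefl fs)).Adj i j ↔
      (GG h).Adj (e i) (e j) := by
    intro i j
    rw [← adF_cF h, he, he]
    rfl
  have hed : Ed (listGraph (vsF fs) (adF fs) (adF_symm fs) (adF_irrefl fs)) (budget fs) ↔
      ∃ φ ∈ fs, SAT3 φ := (ed_congr e key (budget fs)).trans (ed_GG h)
  refine ⟨_, listGraph (vsF fs) (adB fs b) (adB_symm fs b) (adB_irrefl fs b),
    adjMatrix_listGraph _ _ _ _, ?_⟩
  rw [← hed]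
  show Yes Kind.editing [ex b] _ (budget fs) ↔ _
  cases b
  · exact yes_c4 _ _
  · have h1 : listGraph (vsF fs) (adB fs true) (adB_symm fs true) (adB_irrefl fs true) =
        (listGraph (vsF fs) (adF fs) (adF_symm fs) (adF_irrefl fs))ᶜ := by
      ext i j
      rw [SimpleGraph.compl_adj]
      show adB fs true (vsF fs)[i] (vsF fs)[j] = true ↔ i ≠ j ∧ ¬ (adF fs (vsF fs)[i] (vsF fs)[j] = true)
      simp only [adB, if_true]
      by_cases hij : i = j
      · subst hij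
        simp
      · have h2 : ¬ (vsF fs)[i] = (vsF fs)[j] := by
          intro h3
          exact hij (Fin.ext ((List.Nodup.getElem_inj_iff nodup_vsF).1 h3))
        rw [if_neg h2]
        simp [hij]
    rw [h1]
    exact yes_twoK2 _ _

end Pool.Agent.E8helper14.KE
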