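import Mathlib

/-!
# The cheapest structured graph

For a fixed set `C` the best clique consists of the vertices of largest weight.
-/

set_option autoImplicit false

namespace Pool.Agent.E8helper14.KE

/-- The pair is violated: `g` tells whether it is an edge, `ci` and `cj` whether the vertices are in `C`,
`e` whether it should be an edge if both are in `C`, `qi` and `qj` whether the vertices belong to the
clique. -/
def vio (g ci cj e qi qj : Bool) : Bool :=
  if ci then (if cj then xor e g else xor qj g)
  else (if cj then xor qi g else ((qi && qj && !g) || (!qi && !qj && g)))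

/-- The violation of the pair `i`, `j`. -/
def viol (g : ℕ → ℕ → Bool) (C : List ℕ) (E : List (ℕ × ℕ)) (Q : ℕ → Bool) (i j : ℕ) : Bool :=
  vio (g i j) (decide (i ∈ C)) (decide (j ∈ C)) (decide ((i, j) ∈ E) || decide ((j, i) ∈ E)) (Q i)
    (Q j)

/-- The number of violated pairs. -/
def cost (n : ℕ) (g : ℕ → ℕ → Bool) (C : List ℕ) (E : List (ℕ × ℕ)) (Q : ℕ → Bool) : ℕ :=
  (((List.range n) ×ˢ (List.range n)).filter
    (fun p => decide (p.1 < p.2) && viol g C E Q p.1 p.2)).length

/-- The weight of a vertex. -/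
def wt (n : ℕ) (g : ℕ → ℕ → Bool) (C : List ℕ) (j : ℕ) : ℕ :=
  ((List.range n).filter (fun i => g i j)).length +
    ((List.range n).filter (fun i => g i j && decide (i ∈ C))).length

/-- The key of a vertex: weights, with ties broken. -/
def key (n : ℕ) (g : ℕ → ℕ → Bool) (C : List ℕ) (j : ℕ) : ℕ := wt n g C j * n + j

/-- The clique with threshold `u`; no threshold means the empty clique. -/
def thr (n : ℕ) (g : ℕ → ℕ → Bool) (C : List ℕ) (u : Option ℕ) (j : ℕ) : Bool :=
  u.elim false (fun u => decide (key n g C u ≤ key n g C j))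

theorem cost_card (n : ℕ) (g : ℕ → ℕ → Bool) (C : List ℕ) (E : List (ℕ × ℕ)) (Q : ℕ → Bool) :
    cost n g C E Q = ((Finset.range n ×ˢ Finset.range n).filter
      (fun p => p.1 < p.2 ∧ viol g C E Q p.1 p.2 = true)).card := by
  unfold cost
  have hn : ((List.range n) ×ˢ (List.range n)).Nodup :=
    List.Nodup.product List.nodup_range List.nodup_range
  rw [← List.toFinset_card_of_nodup (hn.filter _)]
  congr 1
  ext ⟨a, b⟩
  have h : (a, b) ∈ (List.range n) ×ˢ (List.range n) ↔ a < n ∧ b < n := by
    rw [← List.mem_range, ← List.mem_range (m := b)]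
    exact List.pair_mem_product
  rw [List.mem_toFinset, List.mem_filter, h, Finset.mem_filter, Finset.mem_product,
    Finset.mem_range, Finset.mem_range, Bool.and_eq_true, decide_eq_true_eq]

section
variable {n : ℕ} {g : ℕ → ℕ → Bool} {C : List ℕ} {E : List (ℕ × ℕ)}

/-- Indicator of a boolean. -/
def ind (b : Bool) : ℤ := if b then 1 else 0

/-- Indicator of the clique, outside `C`. -/
def yy (C : List ℕ) (Q : ℕ → Bool) (i : ℕ) : ℤ := ind (!decide (i ∈ C) && Q i)

theorem vio_eq (g ci cj e qi qj : Bool) :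
    ind (vio g ci cj e qi qj) = ind (vio g ci cj e false false) +
      ind ci * ind (!cj && qj) * (1 - 2 * ind g) + ind cj * ind (!ci && qi) * (1 - 2 * ind g) +
      ind (!ci && qi) * ind (!cj && qj) - ind g * ind (!ci && qi) * (1 - ind cj) -
      ind g * ind (!cj && qj) * (1 - ind ci) := by
  revert g ci cj e qi qj
  decide

theorem viol_symm (hg : ∀ i j, g i j = g j i) (Q : ℕ → Bool) (i j : ℕ) :
    viol g C E Q i j = viol g C E Q j i := by
  unfold viol
  rw [hg i j, Bool.or_comm]
  generalize g j i = a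
  generalize decide (i ∈ C) = b
  generalize decide (j ∈ C) = c
  generalize (decide ((j, i) ∈ E) || decide ((i, j) ∈ E)) = d
  generalize Q i = e
  generalize Q j = f
  revert a b c d e f
  decide

/-- Twice the number of violated pairs. -/
theorem two_cost (hg : ∀ i j, g i j = g j i) (Q : ℕ → Bool) :
    2 * (cost n g C E Q : ℤ) + ∑ i ∈ Finset.range n, ind (viol g C E Q i i) =
      ∑ i ∈ Finset.range n, ∑ j ∈ Finset.range n, ind (viol g C E Q i j) := by
  have h1 : (cost n g C E Q : ℤ) = ∑ i ∈ Finset.range n, ∑ j ∈ Finset.range n,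
      if i < j then ind (viol g C E Q i j) else 0 := by
    rw [cost_card, Finset.card_filter, Finset.sum_product]
    push_cast
    refine Finset.sum_congr rfl fun i _ => Finset.sum_congr rfl fun j _ => ?_
    unfold ind
    by_cases h1 : i < j <;> by_cases h2 : viol g C E Q i j = true <;> simp [h1, h2]
  have h2 : (cost n g C E Q : ℤ) = ∑ i ∈ Finset.range n, ∑ j ∈ Finset.range n,
      if j < i then ind (viol g C E Q i j) else 0 := by
    rw [h1, Finset.sum_comm]
    refine Finset.sum_congr rfl fun i _ => Finset.sum_congr rfl fun j _ => ?_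
    rw [viol_symm hg]
  have h3 : ∑ i ∈ Finset.range n, ind (viol g C E Q i i) = ∑ i ∈ Finset.range n,
      ∑ j ∈ Finset.range n, if i = j then ind (viol g C E Q i j) else 0 := by
    refine Finset.sum_congr rfl fun i hi => ?_
    rw [Finset.sum_ite_eq, if_pos hi]
  have h4 : 2 * (cost n g C E Q : ℤ) = (cost n g C E Q : ℤ) + (cost n g C E Q : ℤ) := by ring
  rw [h4, h3]
  nth_rewrite 1 [h1]
  rw [h2, ← Finset.sum_add_distrib, ← Finset.sum_add_distrib]
  refine Finset.sum_congr rfl fun i _ => ?_
  rw [← Finset.sum_add_distrib, ← Finset.sum_add_distrib]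
  refine Finset.sum_congr rfl fun j _ => ?_
  rcases lt_trichotomy i j with h | h | h
  · simp [h, h.ne, h.not_gt]
  · simp [h]
  · simp [h, h.ne', h.not_gt]

theorem wt_eq (j : ℕ) : (wt n g C j : ℤ) =
    ∑ i ∈ Finset.range n, ind (g i j) * (1 + ind (decide (i ∈ C))) := by
  have h : ∀ p : ℕ → Bool, (((List.range n).filter p).length : ℤ) =
      ∑ i ∈ Finset.range n, ind (p i) := by
    intro p
    induction n with
    | zero => simp
    | succ n ih =>
      rw [List.range_succ, List.filter_append, List.length_append, Finset.sum_range_succ,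
        Nat.cast_add, ih]
      congr 1
      by_cases hp : p n = true <;> simp [hp, ind]
  unfold wt
  rw [Nat.cast_add, h, h, ← Finset.sum_add_distrib]
  refine Finset.sum_congr rfl fun i _ => ?_
  cases g i j <;> cases decide (i ∈ C) <;> simp [ind]

/-- The number of violated pairs as a quadratic function. -/
theorem cost_formula (hg : ∀ i j, g i j = g j i) (hg0 : ∀ i, g i i = false) : ∃ K : ℤ,
    ∀ Q : ℕ → Bool, 2 * (cost n g C E Q : ℤ) = K +
      (2 * (∑ i ∈ Finset.range n, ind (decide (i ∈ C))) - 1) * (∑ j ∈ Finset.range n, yy C Q j) -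
      2 * (∑ j ∈ Finset.range n, yy C Q j * wt n g C j) +
      (∑ j ∈ Finset.range n, yy C Q j) ^ 2 := by
  refine ⟨(∑ i ∈ Finset.range n, ∑ j ∈ Finset.range n,
    ind (viol g C E (fun _ => false) i j)) -
    ∑ i ∈ Finset.range n, ind (viol g C E (fun _ => false) i i), ?_⟩
  intro Q
  have h1 := two_cost (n := n) (C := C) (E := E) hg Q
  have h2 : ∑ i ∈ Finset.range n, ind (viol g C E Q i i) =
      ∑ i ∈ Finset.range n, ind (viol g C E (fun _ => false) i i) +
        ∑ i ∈ Finset.range n, yy C Q i := by
    rw [← Finset.sum_add_distrib]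
    refine Finset.sum_congr rfl fun i _ => ?_
    unfold viol yy
    rw [hg0]
    show ind (vio false (decide (i ∈ C)) (decide (i ∈ C))
      (decide ((i, i) ∈ E) || decide ((i, i) ∈ E)) (Q i) (Q i)) =
      ind (vio false (decide (i ∈ C)) (decide (i ∈ C))
      (decide ((i, i) ∈ E) || decide ((i, i) ∈ E)) false false) + ind (!decide (i ∈ C) && Q i)
    generalize decide (i ∈ C) = b
    generalize (decide ((i, i) ∈ E) || decide ((i, i) ∈ E)) = d
    generalize Q i = e
    revert b d e
    decide
  have h3 : ∑ i ∈ Finset.range n, ∑ j ∈ Finset.range n, ind (viol g C E Q i j) =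
      ∑ i ∈ Finset.range n, ∑ j ∈ Finset.range n, ind (viol g C E (fun _ => false) i j) +
      (∑ i ∈ Finset.range n, ∑ j ∈ Finset.range n,
        ind (decide (i ∈ C)) * yy C Q j * (1 - 2 * ind (g i j))) +
      (∑ i ∈ Finset.range n, ∑ j ∈ Finset.range n,
        ind (decide (j ∈ C)) * yy C Q i * (1 - 2 * ind (g i j))) +
      (∑ i ∈ Finset.range n, ∑ j ∈ Finset.range n, yy C Q i * yy C Q j) -
      (∑ i ∈ Finset.range n, ∑ j ∈ Finset.range n,
        ind (g i j) * yy C Q i * (1 - ind (decide (j ∈ C)))) -
      (∑ i ∈ Finset.range n, ∑ j ∈ Finset.range n,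
        ind (g i j) * yy C Q j * (1 - ind (decide (i ∈ C)))) := by
    simp only [← Finset.sum_add_distrib, ← Finset.sum_sub_distrib]
    refine Finset.sum_congr rfl fun i _ => Finset.sum_congr rfl fun j _ => ?_
    unfold viol yy
    exact vio_eq _ _ _ _ _ _
  have h4 : ∑ i ∈ Finset.range n, ∑ j ∈ Finset.range n,
      ind (decide (j ∈ C)) * yy C Q i * (1 - 2 * ind (g i j)) =
      ∑ i ∈ Finset.range n, ∑ j ∈ Finset.range n,
        ind (decide (i ∈ C)) * yy C Q j * (1 - 2 * ind (g i j)) := by
    rw [Finset.sum_comm]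
    refine Finset.sum_congr rfl fun i _ => Finset.sum_congr rfl fun j _ => ?_
    rw [hg j i]
  have h5 : ∑ i ∈ Finset.range n, ∑ j ∈ Finset.range n,
      ind (g i j) * yy C Q i * (1 - ind (decide (j ∈ C))) =
      ∑ i ∈ Finset.range n, ∑ j ∈ Finset.range n,
        ind (g i j) * yy C Q j * (1 - ind (decide (i ∈ C))) := by
    rw [Finset.sum_comm]
    refine Finset.sum_congr rfl fun i _ => Finset.sum_congr rfl fun j _ => ?_
    rw [hg j i]
  have h6 : ∑ i ∈ Finset.range n, ∑ j ∈ Finset.range n, yy C Q i * yy C Q j =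
      (∑ j ∈ Finset.range n, yy C Q j) ^ 2 := by
    rw [sq, Finset.sum_mul_sum]
  have h7 : (∑ i ∈ Finset.range n, ∑ j ∈ Finset.range n,
        ind (decide (i ∈ C)) * yy C Q j * (1 - 2 * ind (g i j))) -
      (∑ i ∈ Finset.range n, ∑ j ∈ Finset.range n,
        ind (g i j) * yy C Q j * (1 - ind (decide (i ∈ C)))) =
      (∑ i ∈ Finset.range n, ind (decide (i ∈ C))) * (∑ j ∈ Finset.range n, yy C Q j) -
      ∑ j ∈ Finset.range n, yy C Q j * wt n g C j := by
    rw [Finset.sum_mul_sum]
    have h8 : ∑ j ∈ Finset.range n, yy C Q j * (wt n g C j : ℤ) =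
        ∑ i ∈ Finset.range n, ∑ j ∈ Finset.range n,
          yy C Q j * (ind (g i j) * (1 + ind (decide (i ∈ C)))) := by
      rw [Finset.sum_comm]
      refine Finset.sum_congr rfl fun j _ => ?_
      rw [wt_eq, Finset.mul_sum]
    rw [h8]
    simp only [← Finset.sum_sub_distrib]
    refine Finset.sum_congr rfl fun i _ => Finset.sum_congr rfl fun j _ => ?_
    ring
  rw [h4, h5, h6] at h3
  linarith

/-- The vertices outside `C` in the clique. -/
def AA (n : ℕ) (C : List ℕ) (Q : ℕ → Bool) : Finset ℕ :=
  (Finset.range n).filter fun j => j ∉ C ∧ Q j = true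

theorem sum_yy (Q : ℕ → Bool) (f : ℕ → ℤ) :
    ∑ j ∈ Finset.range n, yy C Q j * f j = ∑ j ∈ AA n C Q, f j := by
  unfold AA
  rw [Finset.sum_filter]
  refine Finset.sum_congr rfl fun j _ => ?_
  unfold yy ind
  by_cases h1 : j ∈ C <;> by_cases h2 : Q j = true <;> simp [h1, h2]

theorem sum_yy' (Q : ℕ → Bool) :
    ∑ j ∈ Finset.range n, yy C Q j = (AA n C Q).card := by
  have := sum_yy (n := n) (C := C) Q (fun _ => 1)
  simpa using this

theorem cost_le (hg : ∀ i j, g i j = g j i) (hg0 : ∀ i, g i i = false) (Q Q' : ℕ → Bool)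
    (h1 : (AA n C Q').card = (AA n C Q).card)
    (h2 : ∑ j ∈ AA n C Q, wt n g C j ≤ ∑ j ∈ AA n C Q', wt n g C j) :
    cost n g C E Q' ≤ cost n g C E Q := by
  obtain ⟨K, hK⟩ := cost_formula (n := n) (C := C) (E := E) hg hg0
  have e1 := hK Q
  have e2 := hK Q'
  rw [sum_yy, sum_yy'] at e1 e2
  rw [h1] at e2
  have h3 : (∑ j ∈ AA n C Q, (wt n g C j : ℤ)) ≤ ∑ j ∈ AA n C Q', (wt n g C j : ℤ) := by
    exact_mod_cast h2
  have : (2 * cost n g C E Q' : ℤ) ≤ 2 * cost n g C E Q := by linarith
  have h4 : (cost n g C E Q' : ℤ) ≤ cost n g C E Q := by linarith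
  exact_mod_cast h4

/-- Among the vertices of `R` with an injective key there is for every number a threshold. -/
theorem exists_thr (R : Finset ℕ) (k : ℕ → ℕ) (hk : Set.InjOn k R) {m : ℕ} (h1 : 1 ≤ m)
    (h2 : m ≤ R.card) : ∃ u ∈ R, (R.filter fun j => k u ≤ k j).card = m := by
  let r : ℕ → ℕ := fun u => (R.filter fun j => k u ≤ k j).card
  have hinj : Set.InjOn r R := by
    have hlt : ∀ u ∈ R, ∀ v ∈ R, k u < k v → r v < r u := by
      intro u hu v _ huv
      refine Finset.card_lt_card ⟨?_, ?_⟩
      · intro j hj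
        rw [Finset.mem_filter] at hj ⊢
        exact ⟨hj.1, by omega⟩
      · intro hsub
        have : u ∈ R.filter fun j => k v ≤ k j := hsub (by
          rw [Finset.mem_filter]
          exact ⟨hu, le_rfl⟩)
        rw [Finset.mem_filter] at this
        omega
    intro u hu v hv huv
    rcases lt_trichotomy (k u) (k v) with h | h | h
    · have := hlt u hu v hv h
      omega
    · exact hk hu hv h
    · have := hlt v hv u hu h
      omega
  have himg : R.image r = Finset.Icc 1 R.card := by
    refine Finset.eq_of_subset_of_card_le ?_ ?_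
    · intro x hx
      rw [Finset.mem_image] at hx
      obtain ⟨u, hu, rfl⟩ := hx
      rw [Finset.mem_Icc]
      refine ⟨?_, Finset.card_filter_le _ _⟩
      exact Finset.card_pos.2 ⟨u, by rw [Finset.mem_filter]; exact ⟨hu, le_rfl⟩⟩
    · rw [Finset.card_image_of_injOn hinj]
      simp
  have : m ∈ R.image r := by
    rw [himg, Finset.mem_Icc]
    exact ⟨h1, h2⟩
  rw [Finset.mem_image] at this
  exact this

theorem key_injOn : Set.InjOn (key n g C) (Finset.range n : Set ℕ) := by
  intro i hi j hj h
  have hi' : i < n := by simpa using hi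
  have hj' : j < n := by simpa using hj
  unfold key at h
  have h1 : (wt n g C i * n + i) % n = i := by
    rw [Nat.mul_add_mod', Nat.mod_eq_of_lt hi']
  have h2 : (wt n g C j * n + j) % n = j := by
    rw [Nat.mul_add_mod', Nat.mod_eq_of_lt hj']
  rw [← h1, h, h2]

theorem wt_le_of_key {i j : ℕ} (hj : j < n) (h : key n g C i ≤ key n g C j) :
    wt n g C i ≤ wt n g C j := by
  unfold key at h
  by_contra hlt
  push Not at hlt
  have h1 : (wt n g C j + 1) * n ≤ wt n g C i * n := Nat.mul_le_mul_right _ hlt
  have h2 : (wt n g C j + 1) * n = wt n g C j * n + n := by ring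
  omega

/-- The best clique is given by a threshold. -/
theorem opt (hg : ∀ i j, g i j = g j i) (hg0 : ∀ i, g i i = false) (Q : ℕ → Bool) :
    ∃ u : Option ℕ, (∀ v ∈ u, v < n) ∧ cost n g C E (thr n g C u) ≤ cost n g C E Q := by
  by_cases h0 : (AA n C Q).card = 0
  · refine ⟨none, by simp, ?_⟩
    have h1 : AA n C (thr n g C none) = ∅ := by
      unfold AA thr
      simp
    have h2 : AA n C Q = ∅ := Finset.card_eq_zero.1 h0
    refine cost_le hg hg0 _ _ ?_ ?_
    · rw [h1, h2]
    · rw [h1, h2]
  · let R := (Finset.range n).filter fun j => j ∉ C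
    have hsub : AA n C Q ⊆ R := by
      intro j hj
      simp only [AA, R, Finset.mem_filter] at hj ⊢
      exact ⟨hj.1, hj.2.1⟩
    obtain ⟨u, hu, hm⟩ := exists_thr R (key n g C) (key_injOn.mono (by
      intro j hj
      simp only [R, Finset.coe_filter, Set.mem_ofPred_eq] at hj
      simpa using hj.1)) (m := (AA n C Q).card) (by omega) (Finset.card_le_card hsub)
    have hun : u < n := by
      simp only [R, Finset.mem_filter, Finset.mem_range] at hu
      exact hu.1
    have hB : AA n C (thr n g C (some u)) = R.filter fun j => key n g C u ≤ key n g C j := by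
      ext j
      simp only [AA, R, thr, Finset.mem_filter, Option.elim_some, decide_eq_true_eq]
      tauto
    refine ⟨some u, by simpa using hun, ?_⟩
    refine cost_le hg hg0 _ _ ?_ ?_
    · rw [hB, hm]
    · rw [hB]
      set B := R.filter fun j => key n g C u ≤ key n g C j with hBdef
      set A := AA n C Q with hAdef
      have hcard : (A \ B).card = (B \ A).card := by
        have e1 := Finset.card_sdiff_add_card_inter A B
        have e2 := Finset.card_sdiff_add_card_inter B A
        rw [Finset.inter_comm] at e2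
        omega
      have e1 : ∑ j ∈ A, wt n g C j = ∑ j ∈ A \ B, wt n g C j + ∑ j ∈ A ∩ B, wt n g C j := by
        rw [← Finset.sum_union (Finset.disjoint_sdiff_inter A B), Finset.sdiff_union_inter]
      have e2 : ∑ j ∈ B, wt n g C j = ∑ j ∈ B \ A, wt n g C j + ∑ j ∈ A ∩ B, wt n g C j := by
        rw [Finset.inter_comm, ← Finset.sum_union (Finset.disjoint_sdiff_inter B A),
          Finset.sdiff_union_inter]
      have e3 : ∑ j ∈ A \ B, wt n g C j ≤ (A \ B).card * wt n g C u := by
        rw [← smul_eq_mul]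
        refine Finset.sum_le_card_nsmul _ _ _ fun j hj => ?_
        rw [Finset.mem_sdiff] at hj
        refine wt_le_of_key hun ?_
        by_contra hlt
        push Not at hlt
        exact hj.2 (by rw [hBdef, Finset.mem_filter]; exact ⟨hsub hj.1, hlt.le⟩)
      have e4 : (B \ A).card * wt n g C u ≤ ∑ j ∈ B \ A, wt n g C j := by
        rw [← smul_eq_mul]
        refine Finset.card_nsmul_le_sum _ _ _ fun j hj => ?_
        rw [Finset.mem_sdiff, hBdef, Finset.mem_filter] at hj
        refine wt_le_of_key ?_ hj.1.2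
        have := hj.1.1
        simp only [R, Finset.mem_filter, Finset.mem_range] at this
        exact this.1
      rw [e1, e2]
      rw [hcard] at e3
      omega

end

end Pool.Agent.E8helper14.KE
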