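import Pool.Agent.E8helper14.KE.Gr

/-!
# The structure of graphs without induced `C₄` and `2K₂`

The vertices outside an induced 5-cycle (if there is one) are adjacent to all or to none of its
vertices; the former form a clique and the latter an independent set. If there is no induced
5-cycle the graph is a split graph.
-/

set_option autoImplicit false

namespace Pool.Agent.E8helper14.KE

/-- Adjacency in the 5-cycle. -/
def adj5 (i j : Fin 5) : Bool := decide (j = i + 1 ∨ i = j + 1)

section
variable {V : Type}

/-- An induced 5-cycle. -/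
def IsC5 (G : SimpleGraph V) (c : Fin 5 → V) : Prop :=
  Function.Injective c ∧ ∀ i j, G.Adj (c i) (c j) ↔ adj5 i j = true

theorem adj5_dec : ∀ a : Fin 5 → Bool,
    (∀ i j k : Fin 5, ¬ (a i = true ∧ adj5 i j = true ∧ adj5 j k = true ∧ a k = true ∧ a j = false ∧
      adj5 i k = false ∧ i ≠ k)) →
    (∀ i j k : Fin 5, ¬ (a i = false ∧ adj5 i j = false ∧ i ≠ j ∧ adj5 j k = false ∧ j ≠ k ∧
      a k = false ∧ a j = true ∧ adj5 i k = true)) → ∀ i, a i = a 0 := by
  intro a
  have h : ∀ a0 a1 a2 a3 a4 : Bool,
    (∀ i j k : Fin 5, ¬ (![a0, a1, a2, a3, a4] i = true ∧ adj5 i j = true ∧ adj5 j k = true ∧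
      ![a0, a1, a2, a3, a4] k = true ∧ ![a0, a1, a2, a3, a4] j = false ∧
      adj5 i k = false ∧ i ≠ k)) →
    (∀ i j k : Fin 5, ¬ (![a0, a1, a2, a3, a4] i = false ∧ adj5 i j = false ∧ i ≠ j ∧
      adj5 j k = false ∧ j ≠ k ∧
      ![a0, a1, a2, a3, a4] k = false ∧ ![a0, a1, a2, a3, a4] j = true ∧ adj5 i k = true)) →
    ∀ i, ![a0, a1, a2, a3, a4] i = ![a0, a1, a2, a3, a4] 0 := by decide
  have e : a = ![a 0, a 1, a 2, a 3, a 4] := by
    funext i
    fin_cases i <;> rfl
  rw [e]
  exact h _ _ _ _ _

/-- A vertex outside an induced 5-cycle is adjacent to all or to none of its vertices. -/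
theorem c5_all {G : SimpleGraph V} (h4 : NoC4 G) (h4' : NoC4 Gᶜ) {c : Fin 5 → V} (hc : IsC5 G c)
    {v : V} (hv : ∀ i, v ≠ c i) (i : Fin 5) : G.Adj v (c i) ↔ G.Adj v (c 0) := by
  classical
  have h := adj5_dec (fun i => decide (G.Adj v (c i))) ?_ ?_ i
  · simpa using h
  · rintro i j k ⟨h1, h2, h3, h5, h6, h7, h8⟩
    simp only [decide_eq_true_eq, decide_eq_false_iff_not] at h1 h5 h6
    rcases h4 v (c i) (c j) (c k) h1 ((hc.2 i j).2 h2) ((hc.2 j k).2 h3) h5.symm (hv j)
      (fun h => h8 (hc.1 h)) with h | h
    · exact h6 h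
    · rw [(hc.2 i k)] at h
      rw [h7] at h
      exact absurd h (by simp)
  · rintro i j k ⟨h1, h2, h2', h3, h3', h5, h6, h7⟩
    simp only [decide_eq_true_eq, decide_eq_false_iff_not] at h1 h5 h6
    have n1 : ¬ G.Adj (c i) (c j) := by rw [hc.2, h2]; simp
    have n2 : ¬ G.Adj (c j) (c k) := by rw [hc.2, h3]; simp
    have n3 : G.Adj (c i) (c k) := (hc.2 i k).2 h7
    rcases h4' v (c i) (c j) (c k) ((SimpleGraph.compl_adj _ _ _).2 ⟨hv i, h1⟩)
      ((SimpleGraph.compl_adj _ _ _).2 ⟨fun h => h2' (hc.1 h), n1⟩)
      ((SimpleGraph.compl_adj _ _ _).2 ⟨fun h => h3' (hc.1 h), n2⟩)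
      ((SimpleGraph.compl_adj _ _ _).2 ⟨(hv k).symm, fun h => h5 h.symm⟩) (hv j) n3.ne with h | h
    · exact ((SimpleGraph.compl_adj _ _ _).1 h).2 h6
    · exact ((SimpleGraph.compl_adj _ _ _).1 h).2 n3

/-- The structure of the graph outside the set `C`: the vertices with property `Q` form a clique which
is completely joined to `C`, the others form an independent set and have no neighbours in `C`. -/
structure Str (G : SimpleGraph V) (C Q : V → Prop) : Prop where
  qq : ∀ u v, ¬ C u → ¬ C v → Q u → Q v → u ≠ v → G.Adj u v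
  ss : ∀ u v, ¬ C u → ¬ C v → ¬ Q u → ¬ Q v → ¬ G.Adj u v
  cq : ∀ u v, C u → ¬ C v → (G.Adj u v ↔ Q v)

theorem str_of_c5 {G : SimpleGraph V} (h4 : NoC4 G) (h4' : NoC4 Gᶜ) {c : Fin 5 → V}
    (hc : IsC5 G c) : Str G (fun v => ∃ i, c i = v) (fun v => G.Adj v (c 0)) := by
  have hv : ∀ v, ¬ (∃ i, c i = v) → ∀ i, v ≠ c i := fun v h i h' => h ⟨i, h'.symm⟩
  constructor
  · intro u v hu hv' hQu hQv hne
    by_contra hno
    have a1 : G.Adj u (c 2) := (c5_all h4 h4' hc (hv u hu) 2).2 hQu
    have a2 : G.Adj v (c 2) := (c5_all h4 h4' hc (hv v hv') 2).2 hQv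
    have a3 : ¬ G.Adj (c 0) (c 2) := by rw [hc.2]; decide
    rcases h4 u (c 0) v (c 2) hQu hQv.symm a2 a1.symm hne
      (fun h => absurd (hc.1 h) (by decide)) with h | h
    · exact hno h
    · exact a3 h
  · intro u v hu hv' hQu hQv huv
    have a1 : ¬ G.Adj u (c 1) := fun h => hQu ((c5_all h4 h4' hc (hv u hu) 1).1 h)
    have a2 : ¬ G.Adj v (c 1) := fun h => hQv ((c5_all h4 h4' hc (hv v hv') 1).1 h)
    have a3 : G.Adj (c 0) (c 1) := by rw [hc.2]; decide
    rcases h4' u (c 0) v (c 1) ((SimpleGraph.compl_adj _ _ _).2 ⟨hv u hu 0, hQu⟩)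
      ((SimpleGraph.compl_adj _ _ _).2 ⟨(hv v hv' 0).symm, fun h => hQv h.symm⟩)
      ((SimpleGraph.compl_adj _ _ _).2 ⟨hv v hv' 1, a2⟩)
      ((SimpleGraph.compl_adj _ _ _).2 ⟨(hv u hu 1).symm, fun h => a1 h.symm⟩) huv.ne
      a3.ne with h | h
    · exact ((SimpleGraph.compl_adj _ _ _).1 h).2 huv
    · exact ((SimpleGraph.compl_adj _ _ _).1 h).2 a3
  · rintro u v ⟨i, rfl⟩ hv'
    rw [SimpleGraph.adj_comm]
    exact c5_all h4 h4' hc (hv v hv') i

/-- Graphs without induced `C₄`, `2K₂` and `C₅` are split graphs. -/
theorem split_of [Fintype V] {G : SimpleGraph V} (h4 : NoC4 G) (h4' : NoC4 Gᶜ)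
    (h5 : ∀ c, ¬ IsC5 G c) : ∃ Q : V → Prop, Str G (fun _ => False) Q := by
  classical
  let clq : Finset V → Prop := fun Q => ∀ u ∈ Q, ∀ v ∈ Q, u ≠ v → G.Adj u v
  -- two disjoint edges are joined
  have two : ∀ a b x y : V, G.Adj a b → G.Adj x y → a ≠ x → a ≠ y → b ≠ x → b ≠ y →
      G.Adj a x ∨ G.Adj a y ∨ G.Adj b x ∨ G.Adj b y := by
    intro a b x y hab hxy e1 e2 e3 e4
    by_contra hno
    push Not at hno
    obtain ⟨n1, n2, n3, n4⟩ := hno
    rcases h4' a x b y ((SimpleGraph.compl_adj _ _ _).2 ⟨e1, n1⟩)
      ((SimpleGraph.compl_adj _ _ _).2 ⟨e3.symm, fun h => n3 h.symm⟩)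
      ((SimpleGraph.compl_adj _ _ _).2 ⟨e4, n4⟩)
      ((SimpleGraph.compl_adj _ _ _).2 ⟨e2.symm, fun h => n2 h.symm⟩) hab.ne hxy.ne with h | h
    · exact ((SimpleGraph.compl_adj _ _ _).1 h).2 hab
    · exact ((SimpleGraph.compl_adj _ _ _).1 h).2 hxy
  obtain ⟨Q0, hQ0, hmax⟩ := Finset.exists_max_image (Finset.univ.filter clq) Finset.card
    ⟨∅, by simp [clq]⟩
  rw [Finset.mem_filter] at hQ0
  let out : Finset V → Finset (V × V) := fun Q =>
    Finset.univ.filter fun p => p.1 ∉ Q ∧ p.2 ∉ Q ∧ G.Adj p.1 p.2
  obtain ⟨Q, hQ, hmin⟩ := Finset.exists_min_image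
    (Finset.univ.filter fun Q => clq Q ∧ Q.card = Q0.card) (fun Q => (out Q).card)
    ⟨Q0, by simp [hQ0.2]⟩
  rw [Finset.mem_filter] at hQ
  obtain ⟨-, hclq, hcard⟩ := hQ
  have hbig : ∀ z, z ∉ Q → (∀ b ∈ Q, G.Adj z b) → False := by
    intro z hz hall
    have h1 : clq (insert z Q) := by
      intro u hu v hv hne
      rw [Finset.mem_insert] at hu hv
      rcases hu with rfl | hu <;> rcases hv with rfl | hv
      · exact absurd rfl hne
      · exact hall v hv
      · exact (hall u hu).symm
      · exact hclq u hu v hv hne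
    have h2 := hmax (insert z Q) (by simp [h1])
    rw [Finset.card_insert_of_notMem hz] at h2
    omega
  -- the main step
  have step : ∀ x y, x ∉ Q → y ∉ Q → G.Adj x y → (∀ b ∈ Q, ¬ G.Adj b y → ¬ G.Adj b x) → False := by
    intro x y hx hy hxy hN
    have hneQ : ∀ {u v : V}, u ∈ Q → v ∉ Q → u ≠ v := fun hu hv h => hv (h ▸ hu)
    obtain ⟨a, ha, hay⟩ : ∃ a ∈ Q, ¬ G.Adj a y := by
      by_contra hno
      push Not at hno
      exact hbig y hy fun b hb => (hno b hb).symm
    have hax := hN a ha hay
    have huniq : ∀ b ∈ Q, b ≠ a → G.Adj b y := by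
      intro b hb hba
      by_contra hby
      have hbx := hN b hb hby
      rcases two a b x y (hclq a ha b hb hba.symm) hxy (hneQ ha hx) (hneQ ha hy) (hneQ hb hx)
        (hneQ hb hy) with h | h | h | h
      · exact hax h
      · exact hay h
      · exact hbx h
      · exact hby h
    -- the other clique
    let Q' := insert y (Q.erase a)
    have hQ' : clq Q' ∧ Q'.card = Q0.card := by
      constructor
      · intro u hu v hv hne
        rw [Finset.mem_insert, Finset.mem_erase] at hu hv
        rcases hu with rfl | ⟨hu1, hu⟩ <;> rcases hv with rfl | ⟨hv1, hv⟩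
        · exact absurd rfl hne
        · exact (huniq v hv hv1).symm
        · exact huniq u hu hu1
        · exact hclq u hu v hv hne
      · have : y ∉ Q.erase a := fun h => hy (Finset.mem_of_mem_erase h)
        rw [Finset.card_insert_of_notMem this, Finset.card_erase_of_mem ha, ← hcard]
        have := Finset.card_pos.2 ⟨a, ha⟩
        omega
    have hle := hmin Q' (by simp [hQ'])
    obtain ⟨z, hz, hzy, hza, hzy'⟩ : ∃ z, z ∉ Q ∧ z ≠ y ∧ G.Adj z a ∧ ¬ G.Adj z y := by
      by_contra hno
      push Not at hno
      have hsub : (out Q').image (fun p => (Equiv.swap a y p.1, Equiv.swap a y p.2)) ⊆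
          (out Q).erase (y, x) := by
        intro p hp
        rw [Finset.mem_image] at hp
        obtain ⟨⟨u, v⟩, hp, rfl⟩ := hp
        simp only [out, Finset.mem_filter, Finset.mem_univ, true_and, Q', Finset.mem_insert,
          Finset.mem_erase, not_or, not_and] at hp
        obtain ⟨⟨hu1, hu2⟩, ⟨hv1, hv2⟩, huv⟩ := hp
        simp only [out, Finset.mem_filter, Finset.mem_univ, true_and, Finset.mem_erase]
        by_cases hua : u = a
        · subst hua
          have hva : v ≠ u := huv.ne.symm
          have hvQ : v ∉ Q := hv2 hva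
          rw [Equiv.swap_apply_left, Equiv.swap_apply_of_ne_of_ne hva hv1]
          have hvy : G.Adj v y := hno v hvQ hv1 huv.symm
          refine ⟨?_, hy, hvQ, hvy.symm⟩
          rintro h
          rw [Prod.mk.injEq] at h
          rw [h.2] at huv
          exact hax huv
        · have huQ : u ∉ Q := hu2 hua
          by_cases hva : v = a
          · subst hva
            rw [Equiv.swap_apply_left, Equiv.swap_apply_of_ne_of_ne hua hu1]
            have huy : G.Adj u y := hno u huQ hu1 huv
            refine ⟨?_, huQ, hy, huy⟩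
            rintro h
            rw [Prod.mk.injEq] at h
            exact hu1 h.1
          · have hvQ : v ∉ Q := hv2 hva
            rw [Equiv.swap_apply_of_ne_of_ne hua hu1, Equiv.swap_apply_of_ne_of_ne hva hv1]
            refine ⟨?_, huQ, hvQ, huv⟩
            rintro h
            rw [Prod.mk.injEq] at h
            exact hu1 h.1
      have h1 := Finset.card_le_card hsub
      rw [Finset.card_image_of_injective] at h1
      · have h2 : (y, x) ∈ out Q := by
          simp only [out, Finset.mem_filter, Finset.mem_univ, true_and]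
          exact ⟨hy, hx, hxy.symm⟩
        rw [Finset.card_erase_of_mem h2] at h1
        have h3 := Finset.card_pos.2 ⟨_, h2⟩
        omega
      · rintro ⟨u, v⟩ ⟨u', v'⟩ h
        simp only [Prod.mk.injEq, EmbeddingLike.apply_eq_iff_eq] at h
        rw [h.1, h.2]
    have hzx : z ≠ x := by
      rintro rfl
      exact hax hza.symm
    have hzx' : G.Adj z x := by
      rcases two z a x y hza hxy hzx hzy (hneQ ha hx) (hneQ ha hy) with h | h | h | h
      · exact h
      · exact absurd h hzy'
      · exact absurd h hax
      · exact absurd h hay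
    refine hbig z hz fun b hb => ?_
    by_cases hba : b = a
    · rw [hba]
      exact hza
    · by_contra hzb
      have hby := huniq b hb hba
      have hab : G.Adj a b := hclq a ha b hb (fun h => hba h.symm)
      by_cases hbx : G.Adj b x
      · rcases h4 z a b x hza hab hbx hzx'.symm (hneQ hb hz).symm (hneQ ha hx) with h | h
        · exact hzb h
        · exact hax h
      · -- an induced 5-cycle
        refine h5 ![z, a, b, y, x] ⟨?_, ?_⟩
        · have e1 := hza.ne
          have e2 := hab.ne
          have e3 := hby.ne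
          have e4 := hxy.ne
          have e5 := (hneQ ha hy)
          have e6 := (hneQ ha hx)
          have e7 := (hneQ hb hx)
          have e8 := (hneQ hb hz)
          have e9 := hzx
          have e10 := hzy
          intro i j hij
          fin_cases i <;> fin_cases j <;>
            first
            | rfl
            | exact absurd hij e1
            | exact absurd hij e2
            | exact absurd hij e3
            | exact absurd hij e4
            | exact absurd hij e5
            | exact absurd hij e6
            | exact absurd hij e7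
            | exact absurd hij e8
            | exact absurd hij e9
            | exact absurd hij e10
            | exact absurd hij e1.symm
            | exact absurd hij e2.symm
            | exact absurd hij e3.symm
            | exact absurd hij e4.symm
            | exact absurd hij e5.symm
            | exact absurd hij e6.symm
            | exact absurd hij e7.symm
            | exact absurd hij e8.symm
            | exact absurd hij e9.symm
            | exact absurd hij e10.symm
        · have l0 : ∀ x, ¬ G.Adj x x := fun x h => h.ne rfl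
          have n1 : ¬ G.Adj b z := fun h => hzb h.symm
          have n2 : ¬ G.Adj y z := fun h => hzy' h.symm
          have n3 : ¬ G.Adj y a := fun h => hay h.symm
          have n4 : ¬ G.Adj x a := fun h => hax h.symm
          have n5 : ¬ G.Adj x b := fun h => hbx h.symm
          intro i j
          show G.Adj (![z, a, b, y, x] i) (![z, a, b, y, x] j) ↔ _
          fin_cases i <;> fin_cases j <;>
            first
            | exact iff_of_true hza (by decide)
            | exact iff_of_true hza.symm (by decide)
            | exact iff_of_true hab (by decide)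
            | exact iff_of_true hab.symm (by decide)
            | exact iff_of_true hby (by decide)
            | exact iff_of_true hby.symm (by decide)
            | exact iff_of_true hxy (by decide)
            | exact iff_of_true hxy.symm (by decide)
            | exact iff_of_true hzx' (by decide)
            | exact iff_of_true hzx'.symm (by decide)
            | exact iff_of_false (l0 _) (by decide)
            | exact iff_of_false hzb (by decide)
            | exact iff_of_false n1 (by decide)
            | exact iff_of_false hzy' (by decide)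
            | exact iff_of_false n2 (by decide)
            | exact iff_of_false hay (by decide)
            | exact iff_of_false n3 (by decide)
            | exact iff_of_false hax (by decide)
            | exact iff_of_false n4 (by decide)
            | exact iff_of_false hbx (by decide)
            | exact iff_of_false n5 (by decide)
  -- the vertices outside `Q` are independent
  refine ⟨fun v => v ∈ Q, ?_, ?_, ?_⟩
  · intro u v _ _ hu hv hne
    exact hclq u hu v hv hne
  · intro x y _ _ hx hy hxy
    by_cases h1 : ∀ b ∈ Q, ¬ G.Adj b y → ¬ G.Adj b x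
    · exact step x y hx hy hxy h1
    · by_cases h2 : ∀ b ∈ Q, ¬ G.Adj b x → ¬ G.Adj b y
      · exact step y x hy hx hxy.symm h2
      · push Not at h1 h2
        obtain ⟨b, hb, hby, hbx⟩ := h1
        obtain ⟨a, ha, hax, hay⟩ := h2
        have hab : a ≠ b := by
          rintro rfl
          exact hax hbx
        have hneQ : ∀ {u v : V}, u ∈ Q → v ∉ Q → u ≠ v := fun hu hv h => hv (h ▸ hu)
        rcases h4 x y a b hxy hay.symm (hclq a ha b hb hab) hbx (hneQ ha hx).symm
          (hneQ hb hy).symm with h | h
        · exact hax h.symm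
        · exact hby h.symm
  · intro u v h
    exact h.elim

/-- Graphs with the structure have no induced `C₄`. -/
theorem Str.noC4 {G : SimpleGraph V} {C Q : V → Prop} (h : Str G C Q)
    (hC : ∀ a b c d, C a → C b → C c → C d → G.Adj a b → G.Adj b c → G.Adj c d → G.Adj d a →
      a ≠ c → b ≠ d → G.Adj a c ∨ G.Adj b d) : NoC4 G := by
  -- a vertex outside `C` whose opposite vertex is not adjacent to it is independent
  have key : ∀ a b c d, G.Adj a b → G.Adj b c → G.Adj c d → G.Adj d a → a ≠ c → b ≠ d →
      ¬ C a → G.Adj a c ∨ G.Adj b d := by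
    intro a b c d h1 h2 h3 h4 hac hbd ha
    by_cases hQ : Q a
    · by_cases hac' : G.Adj a c
      · exact Or.inl hac'
      · right
        by_cases hc : C c
        · exact absurd ((h.cq c a hc ha).2 hQ).symm hac'
        · have hQc : ¬ Q c := fun hQc => hac' (h.qq a c ha hc hQ hQc hac)
          -- the neighbours of `c` are in `Q`
          have nb : ∀ v, G.Adj v c → ¬ C v ∧ Q v := by
            intro v hv
            by_cases hCv : C v
            · exact absurd ((h.cq v c hCv hc).1 hv) hQc
            · refine ⟨hCv, ?_⟩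
              by_contra hQv
              exact h.ss v c hCv hc hQv hQc hv
          obtain ⟨b1, b2⟩ := nb b h2
          obtain ⟨d1, d2⟩ := nb d h3.symm
          exact h.qq b d b1 d1 b2 d2 hbd
    · right
      have nb : ∀ v, G.Adj v a → ¬ C v ∧ Q v := by
        intro v hv
        by_cases hCv : C v
        · exact absurd ((h.cq v a hCv ha).1 hv) hQ
        · refine ⟨hCv, ?_⟩
          by_contra hQv
          exact h.ss v a hCv ha hQv hQ hv
      obtain ⟨b1, b2⟩ := nb b h1.symm
      obtain ⟨d1, d2⟩ := nb d h4
      exact h.qq b d b1 d1 b2 d2 hbd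
  intro a b c d h1 h2 h3 h4 hac hbd
  by_cases ha : C a
  · by_cases hb : C b
    · by_cases hc : C c
      · by_cases hd : C d
        · exact hC a b c d ha hb hc hd h1 h2 h3 h4 hac hbd
        · rcases key d a b c h4 h1 h2 h3 hbd.symm hac hd with h | h
          · exact Or.inr h.symm
          · exact Or.inl h
      · rcases key c d a b h3 h4 h1 h2 hac.symm hbd.symm hc with h | h
        · exact Or.inl h.symm
        · exact Or.inr h.symm
    · rcases key b c d a h2 h3 h4 h1 hbd hac.symm hb with h | h
      · exact Or.inr h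
      · exact Or.inl h.symm
  · exact key a b c d h1 h2 h3 h4 hac hbd ha

end

end Pool.Agent.E8helper14.KE
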