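import Pool.Agent.E8helper14.KE.PS
import Pool.Agent.E8helper14.KE.Opt

/-!
# Editing into graphs without induced `C₄` and `2K₂`
-/

set_option autoImplicit false

namespace Pool.Agent.E8helper14.KE

/-- The entry of a matrix. -/
def gg (M : List (List Bool)) (i j : ℕ) : Bool := (M.getD i []).getD j false

open Pool.Agent.NPC.R671 in
theorem gg_adj {n : ℕ} (G : SimpleGraph (Fin n)) (i j : Fin n) :
    gg (adjMatrix G) i j = true ↔ G.Adj i j := by
  unfold gg adjMatrix
  simp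

open Pool.Agent.NPC.R671 in
theorem gg_out {n : ℕ} (G : SimpleGraph (Fin n)) (i j : ℕ) (h : gg (adjMatrix G) i j = true) :
    ∃ (hi : i < n) (hj : j < n), G.Adj ⟨i, hi⟩ ⟨j, hj⟩ := by
  by_cases hi : i < n
  · by_cases hj : j < n
    · exact ⟨hi, hj, (gg_adj G ⟨i, hi⟩ ⟨j, hj⟩).1 h⟩
    · exfalso
      unfold gg adjMatrix at h
      simp [List.getD_eq_getElem?_getD, hi, hj] at h
  · exfalso
    unfold gg adjMatrix at h
    simp [List.getD_eq_getElem?_getD, hi] at h

open Pool.Agent.NPC.R671 in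
theorem gg_symm {n : ℕ} (G : SimpleGraph (Fin n)) (i j : ℕ) :
    gg (adjMatrix G) i j = gg (adjMatrix G) j i := by
  have h : ∀ i j, gg (adjMatrix G) i j = true → gg (adjMatrix G) j i = true := by
    intro i j h
    obtain ⟨hi, hj, h⟩ := gg_out G i j h
    exact (gg_adj G ⟨j, hj⟩ ⟨i, hi⟩).2 h.symm
  rw [Bool.eq_iff_iff]
  exact ⟨h i j, h j i⟩

open Pool.Agent.NPC.R671 in
theorem gg_irrefl {n : ℕ} (G : SimpleGraph (Fin n)) (i : ℕ) : gg (adjMatrix G) i i = false := by
  by_contra h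
  rw [Bool.not_eq_false] at h
  obtain ⟨hi, hj, h⟩ := gg_out G i i h
  exact h.ne rfl

/-- The number of modifications. -/
theorem ncard_symmDiff {n : ℕ} (G H : SimpleGraph (Fin n)) (d : ℕ → ℕ → Bool)
    (hd : ∀ i j : Fin n, i < j → (d i j = true ↔ ¬ (G.Adj i j ↔ H.Adj i j))) :
    (symmDiff G.edgeSet H.edgeSet).ncard =
      ((Finset.range n ×ˢ Finset.range n).filter (fun p => p.1 < p.2 ∧ d p.1 p.2 = true)).card := by
  classical
  let T : Finset (Fin n × Fin n) := Finset.univ.filter fun p => p.1 < p.2 ∧ d p.1 p.2 = true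
  have h1 : symmDiff G.edgeSet H.edgeSet = (fun p : Fin n × Fin n => s(p.1, p.2)) '' (T : Set _) := by
    ext e
    induction e with
    | _ a b =>
    have main : ∀ a b : Fin n, a < b → (s(a, b) ∈ symmDiff G.edgeSet H.edgeSet ↔
        d a b = true) := by
      intro a b hab
      rw [Set.mem_symmDiff, SimpleGraph.mem_edgeSet, SimpleGraph.mem_edgeSet, hd a b hab]
      tauto
    constructor
    · intro h
      have hne : a ≠ b := by
        rintro rfl
        rw [Set.mem_symmDiff, SimpleGraph.mem_edgeSet, SimpleGraph.mem_edgeSet] at h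
        simp at h
      rcases lt_or_gt_of_ne hne with hab | hab
      · exact ⟨(a, b), by simpa [T, hab] using (main a b hab).1 h, rfl⟩
      · rw [Sym2.eq_swap] at h
        exact ⟨(b, a), by simpa [T, hab] using (main b a hab).1 h, Sym2.eq_swap⟩
    · rintro ⟨⟨x, y⟩, hxy, he⟩
      have hxy' : x < y ∧ d x y = true := by simpa [T] using hxy
      rw [← he]
      exact (main x y hxy'.1).2 hxy'.2
  have h2 : Set.InjOn (fun p : Fin n × Fin n => s(p.1, p.2)) (T : Set _) := by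
    rintro ⟨x, y⟩ hxy ⟨x', y'⟩ hxy' he
    have h3 : x < y ∧ d x y = true := by simpa [T] using hxy
    have h4 : x' < y' ∧ d x' y' = true := by simpa [T] using hxy'
    simp only [Sym2.eq_iff] at he
    rcases he with ⟨rfl, rfl⟩ | ⟨rfl, rfl⟩
    · rfl
    · exact absurd h3.1 h4.1.not_gt
  rw [h1, h2.ncard_image, Set.ncard_coe_finset]
  refine Finset.card_bij (fun p _ => ((p.1 : ℕ), (p.2 : ℕ))) ?_ ?_ ?_
  · rintro ⟨x, y⟩ hxy
    have h3 : x < y ∧ d x y = true := by simpa [T] using hxy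
    rw [Finset.mem_filter, Finset.mem_product, Finset.mem_range, Finset.mem_range]
    exact ⟨⟨x.2, y.2⟩, h3.1, h3.2⟩
  · rintro ⟨x, y⟩ _ ⟨x', y'⟩ _ he
    rw [Prod.mk.injEq] at he
    exact Prod.ext (Fin.ext he.1) (Fin.ext he.2)
  · rintro ⟨x, y⟩ hxy
    rw [Finset.mem_filter, Finset.mem_product, Finset.mem_range, Finset.mem_range] at hxy
    obtain ⟨⟨hx, hy⟩, h3, h4⟩ := hxy
    exact ⟨(⟨x, hx⟩, ⟨y, hy⟩), by simpa [T] using ⟨h3, h4⟩, rfl⟩

theorem Str.compl {V : Type} {G : SimpleGraph V} {C Q : V → Prop} (h : Str G C Q) :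
    Str Gᶜ C (fun v => ¬ Q v) := by
  refine ⟨?_, ?_, ?_⟩
  · intro u v hu hv hQu hQv hne
    exact (SimpleGraph.compl_adj _ _ _).2 ⟨hne, h.ss u v hu hv hQu hQv⟩
  · intro u v hu hv hQu hQv huv
    rw [SimpleGraph.compl_adj] at huv
    exact huv.2 (h.qq u v hu hv (not_not.1 hQu) (not_not.1 hQv) huv.1)
  · intro u v hu hv
    rw [SimpleGraph.compl_adj, h.cq u v hu hv]
    exact ⟨fun h => h.2, fun h' => ⟨fun e => hv (e ▸ hu), h'⟩⟩

section
variable {n : ℕ}

/-- The edges of the 5-cycle. -/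
def cyc (c : Fin 5 → ℕ) : List (ℕ × ℕ) :=
  [(c 0, c 1), (c 1, c 2), (c 2, c 3), (c 3, c 4), (c 4, c 0)]

/-- The vertices of the 5-cycle. -/
def ver (c : Fin 5 → ℕ) : List ℕ := [c 0, c 1, c 2, c 3, c 4]

theorem mem_ver (c : Fin 5 → ℕ) (i : ℕ) : i ∈ ver c ↔ ∃ k, c k = i := by
  have : ver c = List.ofFn c := by
    simp [ver, List.ofFn_succ]
  rw [this, List.mem_ofFn]

theorem mem_cyc (c : Fin 5 → ℕ) (p : ℕ × ℕ) : p ∈ cyc c ↔ ∃ k, (c k, c (k + 1)) = p := by
  have : cyc c = List.ofFn (fun k => (c k, c (k + 1))) := by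
    simp [cyc, List.ofFn_succ]
  rw [this, List.mem_ofFn]

theorem cyc_adj {c : Fin 5 → ℕ} (hc : Function.Injective c) (i j : Fin 5) :
    (decide ((c i, c j) ∈ cyc c) || decide ((c j, c i) ∈ cyc c)) = adj5 i j := by
  have h : ∀ i j : Fin 5, (c i, c j) ∈ cyc c ↔ j = i + 1 := by
    intro i j
    rw [mem_cyc]
    constructor
    · rintro ⟨k, hk⟩
      rw [Prod.mk.injEq] at hk
      have h1 := hc hk.1
      subst h1
      exact (hc hk.2).symm
    · rintro rfl
      exact ⟨i, rfl⟩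
  unfold adj5
  rw [Bool.eq_iff_iff]
  simp only [Bool.or_eq_true, decide_eq_true_eq, h]

/-- The pairs of lists describing the possible 5-cycles; the empty lists if there is none. -/
def Cand (n : ℕ) (C : List ℕ) (E : List (ℕ × ℕ)) : Prop :=
  (C = [] ∧ E = []) ∨ ∃ c : Fin 5 → ℕ, Function.Injective c ∧ (∀ i, c i < n) ∧ C = ver c ∧ E = cyc c

/-- The graph after the modifications. -/
def aft (n : ℕ) (g : ℕ → ℕ → Bool) (hg : ∀ i j, g i j = g j i) (C : List ℕ) (E : List (ℕ × ℕ))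
    (Q : ℕ → Bool) : SimpleGraph (Fin n) where
  Adj i j := i ≠ j ∧ xor (g i j) (viol g C E Q i j) = true
  symm := ⟨by
    rintro i j ⟨h1, h2⟩
    refine ⟨h1.symm, ?_⟩
    rw [hg, viol_symm hg]
    exact h2⟩
  loopless := ⟨fun i h => h.1 rfl⟩

theorem aft_str (g : ℕ → ℕ → Bool) (hg : ∀ i j, g i j = g j i) (C : List ℕ) (E : List (ℕ × ℕ))
    (Q : ℕ → Bool) : Str (aft n g hg C E Q) (fun v => (v : ℕ) ∈ C) (fun v => Q v = true) := by
  refine ⟨?_, ?_, ?_⟩
  · intro u v hu hv hQu hQv hne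
    refine ⟨hne, ?_⟩
    unfold viol vio
    rw [decide_eq_false hu, decide_eq_false hv, hQu, hQv]
    cases g u v <;> rfl
  · rintro u v hu hv hQu hQv ⟨-, h⟩
    unfold viol vio at h
    rw [Bool.not_eq_true] at hQu hQv
    rw [decide_eq_false hu, decide_eq_false hv, hQu, hQv] at h
    cases hh : g u v <;> rw [hh] at h <;> simp at h
  · intro u v hu hv
    have hne : u ≠ v := by
      rintro rfl
      exact hv hu
    show u ≠ v ∧ _ ↔ _
    unfold viol vio
    rw [decide_eq_true hu, decide_eq_false hv]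
    cases g u v <;> cases Q v <;> simp [hne]

theorem aft_in (g : ℕ → ℕ → Bool) (hg : ∀ i j, g i j = g j i) (c : Fin 5 → ℕ)
    (hc : Function.Injective c)
    (Q : ℕ → Bool) (u v : Fin n) (i j : Fin 5) (hi : c i = u) (hj : c j = v) :
    (aft n g hg (ver c) (cyc c) Q).Adj u v ↔ adj5 i j = true := by
  show u ≠ v ∧ _ ↔ _
  unfold viol vio
  rw [← hi, ← hj, cyc_adj hc, decide_eq_true ((mem_ver c _).2 ⟨i, rfl⟩),
    decide_eq_true ((mem_ver c _).2 ⟨j, rfl⟩)]
  have h1 : adj5 i j = true → u ≠ v := by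
    rintro h rfl
    have : i = j := hc (by rw [hi, hj])
    subst this
    have h0 : ∀ i : Fin 5, ¬ adj5 i i = true := by decide
    exact h0 i h
  cases g (c i) (c j) <;> cases h : adj5 i j <;> simp [h1, h]

theorem five : ∀ i j k l : Fin 5, adj5 i j = true → adj5 j k = true → adj5 k l = true →
    adj5 l i = true → i ≠ k → j ≠ l → adj5 i k = true ∨ adj5 j l = true := by
  decide

theorem five' : ∀ i j k l : Fin 5, adj5 i j = false → adj5 j k = false → adj5 k l = false →
    adj5 l i = false → i ≠ j → j ≠ k → k ≠ l → l ≠ i → i ≠ k → j ≠ l →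
    adj5 i k = false ∨ adj5 j l = false := by
  decide

theorem aft_free (g : ℕ → ℕ → Bool) (hg : ∀ i j, g i j = g j i) {C : List ℕ}
    {E : List (ℕ × ℕ)} (hCE : Cand n C E) (Q : ℕ → Bool) :
    NoC4 (aft n g hg C E Q) ∧ NoC4 (aft n g hg C E Q)ᶜ := by
  have hs := aft_str (n := n) g hg C E Q
  rcases hCE with ⟨rfl, rfl⟩ | ⟨c, hc, hcn, rfl, rfl⟩
  · refine ⟨hs.noC4 ?_, hs.compl.noC4 ?_⟩
    · intro a b c d ha
      exact absurd ha (by simp)
    · intro a b c d ha
      exact absurd ha (by simp)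
  · refine ⟨hs.noC4 ?_, hs.compl.noC4 ?_⟩
    · intro a b x d ha hb hx hd
      obtain ⟨i, hi⟩ := (mem_ver c _).1 ha
      obtain ⟨j, hj⟩ := (mem_ver c _).1 hb
      obtain ⟨k, hk⟩ := (mem_ver c _).1 hx
      obtain ⟨l, hl⟩ := (mem_ver c _).1 hd
      rw [aft_in g hg c hc Q a b i j hi hj, aft_in g hg c hc Q b x j k hj hk,
        aft_in g hg c hc Q x d k l hk hl, aft_in g hg c hc Q d a l i hl hi,
        aft_in g hg c hc Q a x i k hi hk, aft_in g hg c hc Q b d j l hj hl]
      intro h1 h2 h3 h4 hax hbd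
      refine five i j k l h1 h2 h3 h4 ?_ ?_
      · rintro rfl
        exact hax (Fin.ext (hi.symm.trans hk))
      · rintro rfl
        exact hbd (Fin.ext (hj.symm.trans hl))
    · intro a b x d ha hb hx hd
      obtain ⟨i, hi⟩ := (mem_ver c _).1 ha
      obtain ⟨j, hj⟩ := (mem_ver c _).1 hb
      obtain ⟨k, hk⟩ := (mem_ver c _).1 hx
      obtain ⟨l, hl⟩ := (mem_ver c _).1 hd
      simp only [SimpleGraph.compl_adj]
      rw [aft_in g hg c hc Q a b i j hi hj, aft_in g hg c hc Q b x j k hj hk,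
        aft_in g hg c hc Q x d k l hk hl, aft_in g hg c hc Q d a l i hl hi,
        aft_in g hg c hc Q a x i k hi hk, aft_in g hg c hc Q b d j l hj hl]
      intro h1 h2 h3 h4 hax hbd
      have tr : ∀ {u v : Fin n} {p q : Fin 5}, c p = u → c q = v → u ≠ v → p ≠ q := by
        rintro u v p q hp hq hne rfl
        exact hne (Fin.ext (hp.symm.trans hq))
      rcases five' i j k l (by simpa using h1.2) (by simpa using h2.2) (by simpa using h3.2)
        (by simpa using h4.2) (tr hi hj h1.1) (tr hj hk h2.1) (tr hk hl h3.1) (tr hl hi h4.1)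
        (tr hi hk hax) (tr hj hl hbd) with h | h
      · exact Or.inl ⟨hax, by simp [h]⟩
      · exact Or.inr ⟨hbd, by simp [h]⟩

theorem aft_cost (G : SimpleGraph (Fin n)) (g : ℕ → ℕ → Bool) (hg : ∀ i j, g i j = g j i)
    (hG : ∀ i j : Fin n, g i j = true ↔ G.Adj i j) (C : List ℕ)
    (E : List (ℕ × ℕ)) (Q : ℕ → Bool) :
    (symmDiff G.edgeSet (aft n g hg C E Q).edgeSet).ncard = cost n g C E Q := by
  rw [cost_card]
  refine ncard_symmDiff G _ _ ?_
  intro i j hij
  show _ ↔ ¬ (G.Adj i j ↔ (i ≠ j ∧ xor (g i j) (viol g C E Q i j) = true))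
  rw [← hG]
  cases g i j <;> cases viol g C E Q i j <;> simp [hij.ne]

/-- Every way to get rid of the forbidden subgraphs costs at least as much as some clique. -/
theorem cost_le_ncard (G G' : SimpleGraph (Fin n)) (g : ℕ → ℕ → Bool)
    (hG : ∀ i j : Fin n, g i j = true ↔ G.Adj i j) (C : List ℕ) (E : List (ℕ × ℕ)) (Q : ℕ → Bool)
    (hs : Str G' (fun v => (v : ℕ) ∈ C) (fun v => Q v = true))
    (hE : ∀ i j : Fin n, (i : ℕ) ∈ C → (j : ℕ) ∈ C → i < j →
      ((decide (((i : ℕ), (j : ℕ)) ∈ E) || decide (((j : ℕ), (i : ℕ)) ∈ E)) = true ↔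
        G'.Adj i j)) :
    cost n g C E Q ≤ (symmDiff G.edgeSet G'.edgeSet).ncard := by
  classical
  let d : ℕ → ℕ → Bool := fun i j => decide (∃ (hi : i < n) (hj : j < n),
    ¬ (G.Adj ⟨i, hi⟩ ⟨j, hj⟩ ↔ G'.Adj ⟨i, hi⟩ ⟨j, hj⟩))
  rw [ncard_symmDiff G G' d, cost_card]
  · refine Finset.card_le_card ?_
    rintro ⟨i, j⟩ hp
    rw [Finset.mem_filter, Finset.mem_product, Finset.mem_range, Finset.mem_range] at hp ⊢
    obtain ⟨⟨hi, hj⟩, hij, hv⟩ := hp
    refine ⟨⟨hi, hj⟩, hij, ?_⟩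
    rw [decide_eq_true_eq]
    refine ⟨hi, hj, ?_⟩
    have hG' := hG ⟨i, hi⟩ ⟨j, hj⟩
    simp only at hG' hij hv hi hj
    rw [← hG']
    unfold viol vio at hv
    by_cases h1 : i ∈ C
    · by_cases h2 : j ∈ C
      · have h3 := hE ⟨i, hi⟩ ⟨j, hj⟩ h1 h2 hij
        simp only at h3
        rw [← h3]
        rw [decide_eq_true h1, decide_eq_true h2] at hv
        generalize (decide ((i, j) ∈ E) || decide ((j, i) ∈ E)) = e at hv ⊢
        revert hv
        cases e <;> cases g i j <;> simp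
      · have h3 := hs.cq ⟨i, hi⟩ ⟨j, hj⟩ h1 h2
        rw [h3]
        rw [decide_eq_true h1, decide_eq_false h2] at hv
        revert hv
        simp only
        cases g i j <;> cases Q j <;> simp
    · by_cases h2 : j ∈ C
      · have h3 := hs.cq ⟨j, hj⟩ ⟨i, hi⟩ h2 h1
        rw [SimpleGraph.adj_comm] at h3
        rw [h3]
        rw [decide_eq_false h1, decide_eq_true h2] at hv
        revert hv
        simp only
        cases g i j <;> cases Q i <;> simp
      · rw [decide_eq_false h1, decide_eq_false h2] at hv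
        have h3 := hs.qq ⟨i, hi⟩ ⟨j, hj⟩ h1 h2
        have h4 := hs.ss ⟨i, hi⟩ ⟨j, hj⟩ h1 h2
        have h5 : (⟨i, hi⟩ : Fin n) ≠ ⟨j, hj⟩ := by
          intro h
          rw [Fin.mk.injEq] at h
          omega
        simp only at h3 h4
        revert hv h3 h4
        cases g i j <;> cases Q i <;> cases Q j <;> simp [h5]
  · intro i j _
    simp only [d, decide_eq_true_eq]
    exact ⟨fun ⟨_, _, h⟩ => h, fun h => ⟨i.2, j.2, h⟩⟩

/-- The problem, reformulated. -/
theorem pos_iff (G : SimpleGraph (Fin n)) (g : ℕ → ℕ → Bool) (hg : ∀ i j, g i j = g j i)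
    (hg0 : ∀ i, g i i = false) (hG : ∀ i j : Fin n, g i j = true ↔ G.Adj i j) (k : ℕ) :
    Yes Kind.editing [C4, twoK2] G k ↔ ∃ (C : List ℕ) (E : List (ℕ × ℕ)), Cand n C E ∧
      ∃ u : Option ℕ, (∀ v ∈ u, v < n) ∧ cost n g C E (thr n g C u) ≤ k := by
  have hfree : ∀ G' : SimpleGraph (Fin n), IsFree [C4, twoK2] G' ↔ NoC4 G' ∧ NoC4 G'ᶜ := by
    intro G'
    rw [← isEmpty_c4, ← isEmpty_twoK2]
    unfold IsFree
    simp only [List.mem_cons, List.not_mem_nil, or_false, forall_eq_or_imp, forall_eq]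
    rfl
  constructor
  · rintro ⟨G', -, h1, h2⟩
    rw [hfree] at h1
    obtain ⟨h3, h4⟩ := h1
    obtain ⟨C, E, Q, hCE, hle⟩ : ∃ (C : List ℕ) (E : List (ℕ × ℕ)) (Q : ℕ → Bool), Cand n C E ∧
        cost n g C E Q ≤ (symmDiff G.edgeSet G'.edgeSet).ncard := by
      classical
      by_cases h5 : ∃ c, IsC5 G' c
      · obtain ⟨c, hc⟩ := h5
        have hs := str_of_c5 h3 h4 hc
        let c' : Fin 5 → ℕ := fun i => c i
        have hc' : Function.Injective c' := fun i j h => hc.1 (Fin.ext h)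
        let Q : ℕ → Bool := fun v => decide (∃ hv : v < n, G'.Adj ⟨v, hv⟩ (c 0))
        refine ⟨ver c', cyc c', Q, Or.inr ⟨c', hc', fun i => (c i).2, rfl, rfl⟩, ?_⟩
        have e1 : (fun v : Fin n => ∃ i, c i = v) = (fun v : Fin n => (v : ℕ) ∈ ver c') := by
          funext v
          rw [mem_ver]
          refine propext (exists_congr fun i => ?_)
          exact ⟨fun h => by rw [← h], fun h => Fin.ext h⟩
        have e2 : (fun v : Fin n => G'.Adj v (c 0)) = (fun v : Fin n => Q v = true) := by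
          funext v
          simp only [Q, decide_eq_true_eq]
          refine propext ⟨fun h => ⟨v.2, h⟩, fun ⟨_, h⟩ => h⟩
        rw [e1, e2] at hs
        refine cost_le_ncard G G' g hG _ _ _ hs ?_
        intro u v hu hv _
        obtain ⟨i, hi⟩ := (mem_ver c' _).1 hu
        obtain ⟨j, hj⟩ := (mem_ver c' _).1 hv
        have hi' : c i = u := Fin.ext hi
        have hj' : c j = v := Fin.ext hj
        rw [← hi, ← hj, cyc_adj hc', ← hc.2, hi', hj']
      · push Not at h5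
        obtain ⟨Q', hQ'⟩ := split_of h3 h4 h5
        let Q : ℕ → Bool := fun v => decide (∃ hv : v < n, Q' ⟨v, hv⟩)
        refine ⟨[], [], Q, Or.inl ⟨rfl, rfl⟩, ?_⟩
        have e1 : (fun _ : Fin n => False) = (fun v : Fin n => (v : ℕ) ∈ ([] : List ℕ)) := by
          funext v
          simp
        have e2 : Q' = (fun v : Fin n => Q v = true) := by
          funext v
          simp only [Q, decide_eq_true_eq]
          refine propext ⟨fun h => ⟨v.2, h⟩, fun ⟨_, h⟩ => h⟩
        rw [e1, e2] at hQ'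
        refine cost_le_ncard G G' g hG _ _ _ hQ' ?_
        intro u v hu
        exact absurd hu (by simp)
    obtain ⟨u, hu, hle'⟩ := opt (n := n) (C := C) (E := E) hg hg0 Q
    exact ⟨C, E, hCE, u, hu, hle'.trans (hle.trans h2)⟩
  · rintro ⟨C, E, hCE, u, -, hle⟩
    refine ⟨aft n g hg C E (thr n g C u), trivial, ?_, ?_⟩
    · rw [hfree]
      exact aft_free g hg hCE _
    · rw [aft_cost G g hg hG]
      exact hle

end

end Pool.Agent.E8helper14.KE
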