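import Pool.Agent.E8helper14.KE.Core2
import Pool.Agent.H671R2.CK.K13

/-!
# The clauses of a list of formulas

A ternary tree selects one of the formulas.
-/

set_option autoImplicit false

namespace Pool.Agent.E8helper14.KE

open Pool.Agent.NPC
open Pool.Agent.CK (Form maxLen)

/-! ### Paths in the tree

The nodes are natural numbers; the children of `s` are `3 s + 4`, `3 s + 5` and `3 s + 6`, and the roots are
`0`, `1`, `2` and `3`. -/

/-- The nodes on the way from `s` to a root. -/
def path (s : ℕ) : List ℕ := if s < 4 then [s] else s :: path ((s - 4) / 3)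
termination_by s
decreasing_by omega

theorem path_of_lt {s : ℕ} (h : s < 4) : path s = [s] := by rw [path, if_pos h]

theorem path_of_ge {s : ℕ} (h : ¬ s < 4) : path s = s :: path ((s - 4) / 3) := by
  rw [path, if_neg h]

theorem self_mem_path (s : ℕ) : s ∈ path s := by
  by_cases h : s < 4
  · rw [path_of_lt h]; simp
  · rw [path_of_ge h]; simp

theorem root_mem_path (s : ℕ) : ∃ r ∈ path s, r < 4 := by
  induction s using Nat.strong_induction_on with
  | _ s ih =>
  by_cases h : s < 4
  · exact ⟨s, self_mem_path s, h⟩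
  · obtain ⟨r, hr, hr'⟩ := ih ((s - 4) / 3) (by omega)
    refine ⟨r, ?_, hr'⟩
    rw [path_of_ge h]
    exact List.mem_cons_of_mem _ hr

theorem parent_mem_path (s u : ℕ) (hu : u ∈ path s) (h4 : ¬ u < 4) : (u - 4) / 3 ∈ path s := by
  induction s using Nat.strong_induction_on with
  | _ s ih =>
  by_cases h : s < 4
  · rw [path_of_lt h, List.mem_singleton] at hu
    omega
  · rw [path_of_ge h, List.mem_cons] at hu
    rw [path_of_ge h]
    rcases hu with rfl | hu
    · exact List.mem_cons_of_mem _ (self_mem_path _)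
    · exact List.mem_cons_of_mem _ (ih _ (by omega) hu)

theorem mem_path_cases (s u : ℕ) (hu : u ∈ path s) : u = s ∨ (¬ s < 4 ∧ u ≤ (s - 4) / 3) := by
  induction s using Nat.strong_induction_on generalizing u with
  | _ s ih =>
  by_cases h : s < 4
  · rw [path_of_lt h, List.mem_singleton] at hu
    exact Or.inl hu
  · rw [path_of_ge h, List.mem_cons] at hu
    rcases hu with rfl | hu
    · exact Or.inl rfl
    · right
      refine ⟨h, ?_⟩
      rcases ih _ (by omega) u hu with h1 | ⟨h1, h2⟩
      · exact h1.le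
      · omega

theorem child_mem_path (s u : ℕ) (hu : u ∈ path s) (hne : u ≠ s) :
    ∃ k < 3, 3 * u + 4 + k ∈ path s := by
  induction s using Nat.strong_induction_on with
  | _ s ih =>
  by_cases h : s < 4
  · rw [path_of_lt h, List.mem_singleton] at hu
    exact absurd hu hne
  · rw [path_of_ge h, List.mem_cons] at hu
    rcases hu with hu | hu
    · exact absurd hu hne
    · by_cases hu' : u = (s - 4) / 3
      · refine ⟨(s - 4) % 3, by omega, ?_⟩
        have : 3 * u + 4 + (s - 4) % 3 = s := by omega
        rw [this]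
        exact self_mem_path s
      · obtain ⟨k, hk, hk'⟩ := ih _ (by omega) hu hu'
        refine ⟨k, hk, ?_⟩
        rw [path_of_ge h]
        exact List.mem_cons_of_mem _ hk'

theorem path_length (s : ℕ) : (path s).length ≤ s.size + 1 := by
  induction s using Nat.strong_induction_on with
  | _ s ih =>
  by_cases h : s < 4
  · rw [path_of_lt h]
    simp
  · rw [path_of_ge h, List.length_cons]
    have h1 := ih ((s - 4) / 3) (by omega)
    have h2 : ((s - 4) / 3).size ≤ s.size - 1 := by
      rw [Nat.size_le]
      have h3 : s < 2 ^ s.size := Nat.lt_size_self s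
      have h4 : 0 < s.size := Nat.size_pos.2 (by omega)
      have h5 : 2 ^ s.size = 2 * 2 ^ (s.size - 1) := by
        rw [← pow_succ']
        congr 1
        omega
      omega
    have h4 : 0 < s.size := Nat.size_pos.2 (by omega)
    omega

/-! ### The clauses -/

/-- The clause number `r` of the formula at the leaf `s`. -/
def cl (fs : List Form) (s r : ℕ) : Lit ℕ × Lit ℕ × Lit ℕ :=
  (fs.getD ((s - fs.length) % fs.length) []).getD
    (r % (fs.getD ((s - fs.length) % fs.length) []).length) ((true, 0), (true, 0), (true, 0))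

/-- The literal number `j` of the clause number `r` at the node `s`. -/
def litN (fs : List Form) (s r j : ℕ) : Bool × ℕ × ℕ :=
  if s = 3 * fs.length + 4 then (true, j, 0)
  else if s < fs.length then (if j = 0 then (false, s, 0) else (true, 3 * s + 3 + j, 0))
  else if j = 0 then (false, s, 0)
  else if j = 1 then ((cl fs s r).1.1, s, (cl fs s r).1.2 + 1)
  else if j = 2 then ((cl fs s r).2.1.1, s, (cl fs s r).2.1.2 + 1)
  else ((cl fs s r).2.2.1, s, (cl fs s r).2.2.2 + 1)

/-- What is known about the formulas. -/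
structure Prom (fs : List Form) : Prop where
  ne : fs ≠ []
  dis : ∀ φ ∈ fs, Distinct3 φ
  bd : ∀ φ ∈ fs, Bounded3 φ
  nonempty : ∀ φ ∈ fs, φ ≠ []

theorem foldl_max_ge (fs : List Form) (b : ℕ) :
    b ≤ fs.foldl (fun a φ => max a φ.length) b ∧
      ∀ φ ∈ fs, φ.length ≤ fs.foldl (fun a φ => max a φ.length) b := by
  induction fs generalizing b with
  | nil => simp
  | cons φ fs ih =>
    rw [List.foldl_cons]
    obtain ⟨h1, h2⟩ := ih (max b φ.length)
    refine ⟨by omega, ?_⟩
    intro ψ hψ
    rcases List.mem_cons.1 hψ with rfl | hψ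
    · omega
    · exact h2 ψ hψ

theorem one_le_maxLen (fs : List Form) : 1 ≤ maxLen fs := (foldl_max_ge fs 1).1

theorem le_maxLen {fs : List Form} {φ : Form} (h : φ ∈ fs) : φ.length ≤ maxLen fs :=
  (foldl_max_ge fs 1).2 φ h

variable {fs : List Form}

theorem Prom.len_pos (h : Prom fs) : 0 < fs.length := List.length_pos_iff.2 h.ne

theorem Prom.mem_leaf (h : Prom fs) (s : ℕ) :
    fs.getD ((s - fs.length) % fs.length) [] ∈ fs := by
  rw [List.getD_eq_getElem _ _ (Nat.mod_lt _ h.len_pos)]
  exact List.getElem_mem _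

theorem Prom.cl_mem (h : Prom fs) (s r : ℕ) :
    cl fs s r ∈ fs.getD ((s - fs.length) % fs.length) [] := by
  unfold cl
  have h1 : 0 < (fs.getD ((s - fs.length) % fs.length) []).length :=
    List.length_pos_iff.2 (h.nonempty _ (h.mem_leaf s))
  rw [List.getD_eq_getElem _ _ (Nat.mod_lt _ h1)]
  exact List.getElem_mem _

/-- The variables are in the range. -/
theorem Prom.lit_lt (h : Prom fs) {s r j : ℕ} (hs : s < 3 * fs.length + 5) (hj : j < 4) :
    (litN fs s r j).2.1 < 3 * fs.length + 4 ∧ (litN fs s r j).2.2 < 3 * maxLen fs + 1 := by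
  have h1 := h.bd _ (h.mem_leaf s) _ (h.cl_mem s r)
  have h2 := le_maxLen (h.mem_leaf s)
  have h3 := h.len_pos
  unfold litN
  split_ifs <;> simp only [] <;> omega

/-- The literals of a clause are different. -/
theorem Prom.lit_inj (h : Prom fs) {s r j j' : ℕ} (hs : s < 3 * fs.length + 5) (hj : j < 4)
    (hj' : j' < 4) (he : litN fs s r j = litN fs s r j') : j = j' := by
  have h1 := h.dis _ (h.mem_leaf s) _ (h.cl_mem s r)
  have h3 := h.len_pos
  unfold litN at he
  by_cases e1 : s = 3 * fs.length + 4
  · simp only [e1, if_true, Prod.mk.injEq] at he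
    exact he.2.1
  · by_cases e2 : s < fs.length
    · simp only [e1, e2, if_true, if_false] at he
      split_ifs at he <;> simp only [Prod.mk.injEq] at he
      · omega
      · simp at he
      · simp at he
      · omega
    · simp only [e1, e2, if_false] at he
      split_ifs at he <;> simp only [Prod.mk.injEq] at he <;> omega

/-- The indices of the clauses. -/
abbrev II (fs : List Form) : Type := Fin (3 * fs.length + 5) × Fin (maxLen fs)

/-- The variables. -/
abbrev XX (fs : List Form) : Type := Fin (3 * fs.length + 4) × Fin (3 * maxLen fs + 1)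

/-- The literals. -/
def lit (h : Prom fs) (c : II fs) (j : Fin 4) : Bool × XX fs :=
  ((litN fs c.1 c.2 j).1, ⟨(litN fs c.1 c.2 j).2.1, (h.lit_lt c.1.2 j.2).1⟩,
    ⟨(litN fs c.1 c.2 j).2.2, (h.lit_lt c.1.2 j.2).2⟩)

theorem lit_inj (h : Prom fs) (c : II fs) (j j' : Fin 4) (he : lit h c j = lit h c j') : j = j' := by
  refine Fin.ext (h.lit_inj (r := c.2) c.1.2 j.2 j'.2 ?_)
  unfold lit at he
  simp only [Prod.mk.injEq, Fin.mk.injEq] at he
  exact Prod.ext he.1 (Prod.ext he.2.1 he.2.2)

/-- A satisfying assignment of the clauses satisfies one of the formulas. -/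
theorem tree_sound (h : Prom fs) (τ : XX fs → Bool) (hτ : ∀ c, ∃ j, Tr (lit h) τ c j) :
    ∃ φ ∈ fs, SAT3 φ := by
  classical
  have hL : 0 < maxLen fs := one_le_maxLen fs
  let N : ℕ → ℕ → Bool := fun s y =>
    if hs : s < 3 * fs.length + 4 ∧ y < 3 * maxLen fs + 1 then τ (⟨s, hs.1⟩, ⟨y, hs.2⟩) else false
  have hN : ∀ (c : II fs) (j : Fin 4), Tr (lit h) τ c j ↔
      N (litN fs c.1 c.2 j).2.1 (litN fs c.1 c.2 j).2.2 = (litN fs c.1 c.2 j).1 := by
    intro c j
    simp only [N, dif_pos (h.lit_lt (r := c.2) c.1.2 j.2)]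
    rfl
  have hcl : ∀ s r : ℕ, s < 3 * fs.length + 5 → r < maxLen fs →
      ∃ j < 4, N (litN fs s r j).2.1 (litN fs s r j).2.2 = (litN fs s r j).1 := by
    intro s r hs hr
    obtain ⟨j, hj⟩ := hτ (⟨s, hs⟩, ⟨r, hr⟩)
    exact ⟨j, j.2, (hN _ _).1 hj⟩
  -- some root is selected
  have hroot : ∃ s < 3 * fs.length + 4, N s 0 = true := by
    obtain ⟨j, hj, h1⟩ := hcl (3 * fs.length + 4) 0 (by omega) hL
    have h2 : litN fs (3 * fs.length + 4) 0 j = (true, j, 0) := by simp [litN]
    rw [h2] at h1
    exact ⟨j, by omega, h1⟩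
  -- some leaf is selected
  have hdesc : ∀ n s, n = 3 * fs.length + 4 - s → s < 3 * fs.length + 4 → N s 0 = true →
      ∃ s' < 3 * fs.length + 4, fs.length ≤ s' ∧ N s' 0 = true := by
    intro n
    induction n using Nat.strong_induction_on with
    | _ n ih =>
    intro s hn hs hNs
    by_cases hsl : s < fs.length
    · obtain ⟨j, hj, h1⟩ := hcl s 0 (by omega) hL
      have e1 : s ≠ 3 * fs.length + 4 := by omega
      by_cases hj0 : j = 0
      · have h2 : litN fs s 0 j = (false, s, 0) := by simp [litN, e1, hsl, hj0]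
        rw [h2] at h1
        rw [hNs] at h1
        exact absurd h1 (by simp)
      · have h2 : litN fs s 0 j = (true, 3 * s + 3 + j, 0) := by simp [litN, e1, hsl, hj0]
        rw [h2] at h1
        exact ih _ (by omega) (3 * s + 3 + j) rfl (by omega) h1
    · exact ⟨s, hs, by omega, hNs⟩
  obtain ⟨s0, hs0, hN0⟩ := hroot
  obtain ⟨s, hs, hsl, hNs⟩ := hdesc _ s0 rfl hs0 hN0
  refine ⟨_, h.mem_leaf s, fun x => N s (x + 1), ?_⟩
  intro c hc
  obtain ⟨r, hr, hrc⟩ := List.getElem_of_mem hc
  have hrL : r < maxLen fs := lt_of_lt_of_le hr (le_maxLen (h.mem_leaf s))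
  have hclr : cl fs s r = c := by
    unfold cl
    rw [Nat.mod_eq_of_lt hr, List.getD_eq_getElem _ _ hr, hrc]
  obtain ⟨j, hj, h1⟩ := hcl s r (by omega) hrL
  have e1 : s ≠ 3 * fs.length + 4 := by omega
  have e2 : ¬ s < fs.length := by omega
  have hj' : j = 0 ∨ j = 1 ∨ j = 2 ∨ j = 3 := by omega
  rcases hj' with rfl | rfl | rfl | rfl
  · have h2 : litN fs s r 0 = (false, s, 0) := by simp [litN, e1, e2]
    rw [h2, hNs] at h1
    exact absurd h1 (by simp)
  · have h2 : litN fs s r 1 = (c.1.1, s, c.1.2 + 1) := by simp [litN, e1, e2, hclr]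
    rw [h2] at h1
    exact Or.inl h1
  · have h2 : litN fs s r 2 = (c.2.1.1, s, c.2.1.2 + 1) := by simp [litN, e1, e2, hclr]
    rw [h2] at h1
    exact Or.inr (Or.inl h1)
  · have h2 : litN fs s r 3 = (c.2.2.1, s, c.2.2.2 + 1) := by simp [litN, e1, e2, hclr]
    rw [h2] at h1
    exact Or.inr (Or.inr h1)

/-- The number of modifications. -/
def budget (fs : List Form) : ℕ := ((2 * fs.length).size + 2) * (14 * maxLen fs + 2)

/-- A satisfying assignment of one of the formulas gives one of the clauses, with few changes. -/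
theorem tree_complete (h : Prom fs) {φ : Form} (hφ : φ ∈ fs) (hsat : SAT3 φ) :
    ∃ (τ : XX fs → Bool) (J : Set (II fs × Fin 4)) (Y : Set (XX fs)),
      (∀ c, ∃ j, Tr (lit h) τ c j) ∧ (∀ c j, τ (lit h c j).2 = true → (c, j) ∈ J) ∧
      (∀ x, τ x = true → x ∈ Y) ∧ 2 * J.ncard + 2 * Y.ncard ≤ budget fs := by
  classical
  obtain ⟨i, hi, hiφ⟩ := List.getElem_of_mem hφ
  obtain ⟨σ, hσ⟩ := hsat
  have hL : 0 < maxLen fs := one_le_maxLen fs
  -- the selected leaf
  set a : ℕ := fs.length + i with ha
  let T : ℕ → ℕ → Bool := fun s y => if y = 0 then decide (s ∈ path a) else decide (s = a) && σ (y - 1)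
  let P : Finset ℕ := (path a).toFinset
  have hP : P.card ≤ (2 * fs.length).size + 1 := by
    refine (List.toFinset_card_le _).trans ((path_length a).trans ?_)
    have : a.size ≤ (2 * fs.length).size := Nat.size_le_size (by omega)
    omega
  have htrue : ∀ s y, T s y = true → s ∈ path a := by
    intro s y hT
    simp only [T] at hT
    split_ifs at hT with hy
    · simpa using hT
    · simp only [Bool.and_eq_true, decide_eq_true_eq] at hT
      rw [hT.1]
      exact self_mem_path a
  have hleaf : ∀ s, s ∈ path a → fs.length ≤ s → s = a := by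
    intro s hs hs'
    rcases mem_path_cases a s hs with h1 | ⟨h1, h2⟩
    · exact h1
    · omega
  have hlt : ∀ s, s ∈ path a → s < 3 * fs.length + 4 := by
    intro s hs
    rcases mem_path_cases a s hs with h1 | ⟨h1, h2⟩ <;> omega
  -- the literals which may be true
  have hlit : ∀ s r j, s < 3 * fs.length + 5 → j < 4 →
      T (litN fs s r j).2.1 (litN fs s r j).2.2 = true → s ∈ path a ∨ s = 3 * fs.length + 4 := by
    intro s r j hs hj hT
    have h1 := htrue _ _ hT
    by_cases e1 : s = 3 * fs.length + 4
    · exact Or.inr e1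
    · left
      by_cases e2 : s < fs.length
      · by_cases e3 : j = 0
        · simpa [litN, e1, e2, e3] using h1
        · have h2 : 3 * s + 3 + j ∈ path a := by simpa [litN, e1, e2, e3] using h1
          have h3 := parent_mem_path a _ h2 (by omega)
          have h4 : (3 * s + 3 + j - 4) / 3 = s := by omega
          rwa [h4] at h3
      · have h2 : (litN fs s r j).2.1 = s := by
          simp only [litN, e1, e2, if_false]
          split_ifs <;> rfl
        rwa [h2] at h1
  refine ⟨fun x => T x.1 x.2, {p | (p.1.1 : ℕ) ∈ path a ∨ (p.1.1 : ℕ) = 3 * fs.length + 4},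
    {x | (x.1 : ℕ) ∈ path a}, ?_, ?_, ?_, ?_⟩
  · -- all clauses are satisfied
    rintro ⟨⟨s, hs⟩, ⟨r, hr⟩⟩
    have key : ∃ j, ∃ hj : j < 4,
        T (litN fs s r j).2.1 (litN fs s r j).2.2 = (litN fs s r j).1 := by
      by_cases e1 : s = 3 * fs.length + 4
      · obtain ⟨j, hj, hj4⟩ := root_mem_path a
        refine ⟨j, hj4, ?_⟩
        have h2 : litN fs s r j = (true, j, 0) := by simp [litN, e1]
        rw [h2]
        simp [T, hj]
      · by_cases e2 : s < fs.length
        · by_cases e3 : s ∈ path a
          · obtain ⟨k, hk, hk'⟩ := child_mem_path a s e3 (by omega)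
            refine ⟨k + 1, by omega, ?_⟩
            have h2 : litN fs s r (k + 1) = (true, 3 * s + 3 + (k + 1), 0) := by
              simp [litN, e1, e2]
            have h3 : 3 * s + 3 + (k + 1) = 3 * s + 4 + k := by omega
            rw [h2, h3]
            simp [T, hk']
          · refine ⟨0, by omega, ?_⟩
            have h2 : litN fs s r 0 = (false, s, 0) := by simp [litN, e1, e2]
            rw [h2]
            simp [T, e3]
        · by_cases e3 : s = a
          · have hφ' : fs.getD ((s - fs.length) % fs.length) [] = φ := by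
              have h1 : (s - fs.length) % fs.length = i := by
                rw [e3, ha, Nat.add_sub_cancel_left, Nat.mod_eq_of_lt hi]
              rw [h1, List.getD_eq_getElem _ _ hi, hiφ]
            have hmem := h.cl_mem s r
            rw [hφ'] at hmem
            rcases hσ _ hmem with h1 | h1 | h1
            · refine ⟨1, by omega, ?_⟩
              have h2 : litN fs s r 1 = ((cl fs s r).1.1, s, (cl fs s r).1.2 + 1) := by
                simp [litN, e1, e2]
              rw [h2]
              simp [T, e3] at h1 ⊢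
              exact h1
            · refine ⟨2, by omega, ?_⟩
              have h2 : litN fs s r 2 = ((cl fs s r).2.1.1, s, (cl fs s r).2.1.2 + 1) := by
                simp [litN, e1, e2]
              rw [h2]
              simp [T, e3] at h1 ⊢
              exact h1
            · refine ⟨3, by omega, ?_⟩
              have h2 : litN fs s r 3 = ((cl fs s r).2.2.1, s, (cl fs s r).2.2.2 + 1) := by
                simp [litN, e1, e2]
              rw [h2]
              simp [T, e3] at h1 ⊢
              exact h1
          · refine ⟨0, by omega, ?_⟩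
            have h2 : litN fs s r 0 = (false, s, 0) := by simp [litN, e1, e2]
            rw [h2]
            have h3 : s ∉ path a := fun hs' => e3 (hleaf s hs' (by omega))
            simp [T, h3]
    obtain ⟨j, hj, hT⟩ := key
    exact ⟨⟨j, hj⟩, hT⟩
  · intro c j hT
    exact hlit c.1 c.2 j c.1.2 j.2 hT
  · intro x hT
    exact htrue _ _ hT
  · -- the number of changes
    have hJ : ({p | (p.1.1 : ℕ) ∈ path a ∨ (p.1.1 : ℕ) = 3 * fs.length + 4} :
        Set (II fs × Fin 4)).ncard ≤ ((2 * fs.length).size + 2) * (4 * maxLen fs) := by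
      let g : II fs × Fin 4 → ℕ × (Fin (maxLen fs) × Fin 4) := fun p => (p.1.1, p.1.2, p.2)
      have hg : Function.Injective g := by
        rintro ⟨⟨s, r⟩, j⟩ ⟨⟨s', r'⟩, j'⟩ h1
        simp only [g, Prod.mk.injEq] at h1
        obtain ⟨h1, h2, h3⟩ := h1
        rw [Fin.ext h1, h2, h3]
      rw [← Set.ncard_image_of_injective _ hg]
      have hsub : g '' {p | (p.1.1 : ℕ) ∈ path a ∨ (p.1.1 : ℕ) = 3 * fs.length + 4} ⊆
          (((insert (3 * fs.length + 4) P) ×ˢ (Finset.univ : Finset (Fin (maxLen fs) × Fin 4)) :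
            Finset (ℕ × (Fin (maxLen fs) × Fin 4))) : Set (ℕ × (Fin (maxLen fs) × Fin 4))) := by
        rintro _ ⟨p, hp, rfl⟩
        simp only [g, Finset.coe_product, Set.mem_prod, Finset.mem_coe, Finset.mem_insert,
          Finset.mem_univ, and_true, P, List.mem_toFinset]
        exact hp.symm
      refine (Set.ncard_le_ncard hsub (Finset.finite_toSet _)).trans ?_
      rw [Set.ncard_coe_finset, Finset.card_product, Finset.card_univ, Fintype.card_prod,
        Fintype.card_fin, Fintype.card_fin]
      have h1 : (insert (3 * fs.length + 4) P).card ≤ (2 * fs.length).size + 2 :=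
        (Finset.card_insert_le _ _).trans (by omega)
      calc _ ≤ ((2 * fs.length).size + 2) * (maxLen fs * 4) := Nat.mul_le_mul_right _ h1
        _ = _ := by rw [mul_comm (maxLen fs) 4]
    have hY : ({x | (x.1 : ℕ) ∈ path a} : Set (XX fs)).ncard ≤
        ((2 * fs.length).size + 2) * (3 * maxLen fs + 1) := by
      let g : XX fs → ℕ × Fin (3 * maxLen fs + 1) := fun p => (p.1, p.2)
      have hg : Function.Injective g := by
        rintro ⟨s, r⟩ ⟨s', r'⟩ h1
        simp only [g, Prod.mk.injEq] at h1
        obtain ⟨h1, h2⟩ := h1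
        rw [Fin.ext h1, h2]
      rw [← Set.ncard_image_of_injective _ hg]
      have hsub : g '' {x | (x.1 : ℕ) ∈ path a} ⊆
          ((P ×ˢ (Finset.univ : Finset (Fin (3 * maxLen fs + 1))) :
            Finset (ℕ × Fin (3 * maxLen fs + 1))) : Set (ℕ × Fin (3 * maxLen fs + 1))) := by
        rintro _ ⟨p, hp, rfl⟩
        simp only [g, Finset.coe_product, Set.mem_prod, Finset.mem_coe,
          Finset.mem_univ, and_true, P, List.mem_toFinset]
        exact hp
      refine (Set.ncard_le_ncard hsub (Finset.finite_toSet _)).trans ?_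
      rw [Set.ncard_coe_finset, Finset.card_product, Finset.card_univ, Fintype.card_fin]
      exact Nat.mul_le_mul_right _ (by omega)
    unfold budget
    calc _ ≤ 2 * (((2 * fs.length).size + 2) * (4 * maxLen fs)) +
        2 * (((2 * fs.length).size + 2) * (3 * maxLen fs + 1)) := by omega
      _ = _ := by ring

end Pool.Agent.E8helper14.KE
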